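import Mathlib

/-!
The Heisenberg matrices `W m` (`m` in `(ℤ/a)²`), and linear operators `S` on the `a × a` matrices with
`S (W m)` proportional to `W (m + γ)` which map the matrices of rank one to nilpotent matrices: they
are zero.
-/

set_option autoImplicit false

namespace Pool.Agent.H16NC

open Matrix

section Heis

variable {L : Type*} [Field L] {a : ℕ} [NeZero a] (ψ : AddChar (ZMod a) L)

/-- The Heisenberg matrices. -/
def W (m : ZMod a × ZMod a) : Matrix (ZMod a) (ZMod a) L :=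
  Matrix.of fun i j => if j = i + m.2 then ψ (m.1 * i) else 0

omit [NeZero a] in
theorem W_apply (m : ZMod a × ZMod a) (i j : ZMod a) :
    W ψ m i j = if j = i + m.2 then ψ (m.1 * i) else 0 := rfl

theorem W_mul (m n : ZMod a × ZMod a) : W ψ m * W ψ n = ψ (n.1 * m.2) • W ψ (m + n) := by
  ext i j
  rw [mul_apply, Finset.sum_eq_single (i + m.2)]
  · simp only [W_apply, Matrix.smul_apply, smul_eq_mul, if_true, Prod.fst_add, Prod.snd_add]
    by_cases h : j = i + (m.2 + n.2)
    · rw [if_pos (by rw [h]; ring), if_pos h, ← AddChar.map_add_eq_mul, ← AddChar.map_add_eq_mul]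
      congr 1
      ring
    · rw [if_neg (by intro e; apply h; rw [e]; ring), if_neg h]
      ring
  · intro b _ hb
    rw [W_apply, if_neg hb, zero_mul]
  · intro h
    exact absurd (Finset.mem_univ _) h

theorem W_zero : W ψ 0 = 1 := by
  ext i j
  rw [W_apply, Matrix.one_apply]
  simp only [Prod.snd_zero, Prod.fst_zero, add_zero, zero_mul, AddChar.map_zero_eq_one]
  by_cases h : i = j
  · rw [if_pos h.symm, if_pos h]
  · rw [if_neg (Ne.symm h), if_neg h]

theorem W_pow (g : ZMod a × ZMod a) (k : ℕ) :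
    ∃ c : L, c ≠ 0 ∧ W ψ g ^ k = c • W ψ (k • g) := by
  induction k with
  | zero => exact ⟨1, one_ne_zero, by rw [pow_zero, zero_smul, W_zero, one_smul]⟩
  | succ k ih =>
    obtain ⟨c, hc, h⟩ := ih
    refine ⟨c * ψ (g.1 * (k • g).2), mul_ne_zero hc ((AddChar.val_isUnit ψ _).ne_zero), ?_⟩
    rw [pow_succ, h, Matrix.smul_mul, W_mul, smul_smul, succ_nsmul]

theorem trace_W (hψ : ψ.IsPrimitive) (m : ZMod a × ZMod a) (hm : m ≠ 0) :
    (W ψ m).trace = 0 := by
  rw [Matrix.trace]
  by_cases h : m.2 = 0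
  · have h1 : m.1 ≠ 0 := fun e => hm (Prod.ext e h)
    have h2 := AddChar.sum_mulShift m.1 hψ
    rw [if_neg h1] at h2
    rw [Nat.cast_zero] at h2
    rw [← h2]
    refine Finset.sum_congr rfl fun i _ => ?_
    rw [Matrix.diag_apply, W_apply, h, add_zero, if_pos rfl, mul_comm]
  · refine Finset.sum_eq_zero fun i _ => ?_
    rw [Matrix.diag_apply, W_apply, if_neg]
    intro e
    apply h
    have := congrArg (fun z => z - i) e
    simpa using this.symm

theorem unit_eq (hψ : ψ.IsPrimitive) (i j : ZMod a) :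
    (a : L) • Matrix.single i j (1 : L) =
      ∑ k : ZMod a, ψ (-(k * i)) • W ψ (k, j - i) := by
  ext i' j'
  rw [Matrix.sum_apply]
  simp only [Matrix.smul_apply, W_apply, smul_eq_mul]
  by_cases h : j' = i' + (j - i)
  · simp only [if_pos h]
    have h2 := AddChar.sum_mulShift (i' - i) hψ
    have h3 : ∀ k : ZMod a, ψ (-(k * i)) * ψ (k * i') = ψ (k * (i' - i)) := by
      intro k
      rw [← AddChar.map_add_eq_mul]
      congr 1
      ring
    simp only [h3, h2]
    by_cases h4 : i = i'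
    · subst h4
      have h5 : j' = j := by rw [h]; ring
      subst h5
      simp [ZMod.card]
    · have h5 : i' - i ≠ 0 := fun e => h4 (sub_eq_zero.mp e).symm
      rw [if_neg h5, Matrix.single_apply, if_neg (fun e => h4 e.1)]
      simp
  · simp only [if_neg h, mul_zero, Finset.sum_const_zero]
    rw [Matrix.single_apply, if_neg, mul_zero]
    rintro ⟨rfl, rfl⟩
    apply h
    ring

/-- Eigenvectors of the conjugations by the Heisenberg matrices. -/
theorem eig (hψ : ∀ x, ψ x = 1 → x = 0) (M : Matrix (ZMod a) (ZMod a) L) (n : ZMod a × ZMod a)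
    (h1 : W ψ (1, 0) * M = ψ (-n.2) • (M * W ψ (1, 0)))
    (h2 : W ψ (0, 1) * M = ψ n.1 • (M * W ψ (0, 1))) : M = M 0 n.2 • W ψ n := by
  have e1 : ∀ i j, ψ i * M i j = ψ (-n.2) * (M i j * ψ j) := by
    intro i j
    have h3 := congrFun (congrFun h1 i) j
    rw [Matrix.smul_apply, mul_apply, mul_apply, Finset.sum_eq_single i,
      Finset.sum_eq_single j] at h3
    · simpa [W_apply] using h3
    · intro b _ hb
      rw [W_apply, if_neg, mul_zero]
      simpa using Ne.symm hb
    · intro h; exact absurd (Finset.mem_univ _) h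
    · intro b _ hb
      rw [W_apply, if_neg, zero_mul]
      simpa using hb
    · intro h; exact absurd (Finset.mem_univ _) h
  have e2 : ∀ i j, M (i + 1) j = ψ n.1 * M i (j - 1) := by
    intro i j
    have h3 := congrFun (congrFun h2 i) j
    rw [Matrix.smul_apply, mul_apply, mul_apply, Finset.sum_eq_single (i + 1),
      Finset.sum_eq_single (j - 1)] at h3
    · simpa [W_apply] using h3
    · intro b _ hb
      rw [W_apply, if_neg, mul_zero]
      simp only
      intro e
      apply hb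
      rw [e]; ring
    · intro h; exact absurd (Finset.mem_univ _) h
    · intro b _ hb
      rw [W_apply, if_neg, zero_mul]
      simpa using hb
    · intro h; exact absurd (Finset.mem_univ _) h
  have e3 : ∀ i j, j ≠ i + n.2 → M i j = 0 := by
    intro i j hij
    by_contra hne
    have h3 := e1 i j
    have h4 : ψ i = ψ (-n.2) * ψ j := by
      have : ψ i * M i j = ψ (-n.2) * ψ j * M i j := by rw [h3]; ring
      exact mul_right_cancel₀ hne this
    rw [← AddChar.map_add_eq_mul] at h4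
    have h5 : ψ (i + -(-n.2 + j)) = 1 := by
      rw [AddChar.map_add_eq_mul, h4, ← AddChar.map_add_eq_mul, add_neg_cancel,
        AddChar.map_zero_eq_one]
    have h6 := hψ _ h5
    apply hij
    have : i + n.2 - j = 0 := by rw [← h6]; ring
    exact (sub_eq_zero.mp this).symm
  have e4 : ∀ k : ℕ, M (k : ZMod a) ((k : ZMod a) + n.2) = ψ (n.1 * k) * M 0 n.2 := by
    intro k
    induction k with
    | zero => simp
    | succ k ih =>
      rw [Nat.cast_succ, e2]
      have : (k : ZMod a) + 1 + n.2 - 1 = k + n.2 := by ring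
      rw [this, ih, ← mul_assoc, ← AddChar.map_add_eq_mul]
      congr 2
      ring
  ext i j
  rw [Matrix.smul_apply, W_apply, smul_eq_mul]
  by_cases h : j = i + n.2
  · rw [if_pos h, h]
    have h3 := e4 i.val
    rw [ZMod.natCast_zmod_val] at h3
    rw [h3, mul_comm]
  · rw [if_neg h, mul_zero, e3 i j h]

/-- The powers of `W g`. -/
theorem W_pow_a (g : ZMod a × ZMod a) : ∃ ξ : L, ξ ≠ 0 ∧ W ψ g ^ a = ξ • (1 : Matrix _ _ L) := by
  obtain ⟨c, hc, h⟩ := W_pow ψ g a
  refine ⟨c, hc, ?_⟩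
  rw [h]
  have : a • g = 0 := by
    ext
    · simp
    · simp
  rw [this, W_zero]

/-- The (unnormalised) projections. -/
def E (g : ZMod a × ZMod a) (μ : L) : Matrix (ZMod a) (ZMod a) L :=
  ∑ k ∈ Finset.range a, (μ⁻¹) ^ k • W ψ g ^ k

theorem W_mul_E (g : ZMod a × ZMod a) (ξ μ : L) (hξ : ξ ≠ 0)
    (h : W ψ g ^ a = ξ • (1 : Matrix _ _ L)) (hμ : μ ^ a = ξ) :
    W ψ g * E ψ g μ = μ • E ψ g μ := by
  have ha : a ≠ 0 := NeZero.ne a
  have hμ0 : μ ≠ 0 := by
    rintro rfl
    rw [zero_pow ha] at hμ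
    exact hξ hμ.symm
  have h1 : W ψ g * E ψ g μ = μ • ∑ k ∈ Finset.range a, (μ⁻¹) ^ (k + 1) • W ψ g ^ (k + 1) := by
    rw [E, Finset.mul_sum, Finset.smul_sum]
    refine Finset.sum_congr rfl fun k _ => ?_
    rw [Matrix.mul_smul, ← pow_succ', smul_smul, pow_succ μ⁻¹ k]
    congr 1
    field_simp
  rw [h1]
  congr 1
  have h2 := Finset.sum_range_succ (fun k => (μ⁻¹) ^ k • W ψ g ^ k) a
  have h3 := Finset.sum_range_succ' (fun k => (μ⁻¹) ^ k • W ψ g ^ k) a
  rw [h2] at h3
  have h4 : (μ⁻¹) ^ a • W ψ g ^ a = (μ⁻¹) ^ 0 • W ψ g ^ 0 := by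
    rw [h, smul_smul, pow_zero, pow_zero, inv_pow, hμ, inv_mul_cancel₀ hξ]
  rw [h4] at h3
  exact (add_right_cancel h3).symm

theorem pow_W_mul_E (g : ZMod a × ZMod a) (ξ μ : L) (hξ : ξ ≠ 0)
    (h : W ψ g ^ a = ξ • (1 : Matrix _ _ L)) (hμ : μ ^ a = ξ) (k : ℕ) :
    W ψ g ^ k * E ψ g μ = μ ^ k • E ψ g μ := by
  induction k with
  | zero => simp
  | succ k ih =>
    rw [pow_succ', Matrix.mul_assoc, ih, Matrix.mul_smul, W_mul_E ψ g ξ μ hξ h hμ, smul_smul,
      pow_succ]

theorem E_mul_E (g : ZMod a × ZMod a) (ξ μ ν : L) (hξ : ξ ≠ 0)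
    (h : W ψ g ^ a = ξ • (1 : Matrix _ _ L)) (hμ : μ ^ a = ξ) :
    E ψ g ν * E ψ g μ = (∑ k ∈ Finset.range a, (ν⁻¹ * μ) ^ k) • E ψ g μ := by
  rw [E, Finset.sum_mul, Finset.sum_smul]
  refine Finset.sum_congr rfl fun k _ => ?_
  rw [Matrix.smul_mul, pow_W_mul_E ψ g ξ μ hξ h hμ, smul_smul, mul_pow]

theorem W_comm (m n : ZMod a × ZMod a) :
    W ψ m * W ψ n = ψ (n.1 * m.2 - m.1 * n.2) • (W ψ n * W ψ m) := by
  rw [W_mul, W_mul, smul_smul, ← AddChar.map_add_eq_mul, add_comm n m]
  congr 2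
  ring

theorem trace_E (hψ : ψ.IsPrimitive) (haL : (a : L) ≠ 0) (g : ZMod a × ZMod a)
    (hg : ∃ u v : ZMod a, u * g.1 + v * g.2 = 1) (μ : L) : E ψ g μ ≠ 0 := by
  have ha : a ≠ 0 := NeZero.ne a
  intro h0
  have h1 : (E ψ g μ).trace = a := by
    rw [E, Matrix.trace_sum, Finset.sum_eq_single 0]
    · simp [Matrix.trace_one, ZMod.card]
    · intro k hk hk0
      obtain ⟨c, hc, h⟩ := W_pow ψ g k
      rw [Matrix.trace_smul, h, Matrix.trace_smul, trace_W ψ hψ, smul_zero, smul_zero]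
      intro hkg
      obtain ⟨u, v, huv⟩ := hg
      have e1 := congrArg Prod.fst hkg
      have e2 := congrArg Prod.snd hkg
      rw [Prod.smul_fst, Prod.fst_zero, nsmul_eq_mul] at e1
      rw [Prod.smul_snd, Prod.snd_zero, nsmul_eq_mul] at e2
      have e3 : (k : ZMod a) = 0 := by
        calc (k : ZMod a) = k * (u * g.1 + v * g.2) := by rw [huv, mul_one]
          _ = u * (k * g.1) + v * (k * g.2) := by ring
          _ = 0 := by rw [e1, e2]; ring
      rw [ZMod.natCast_eq_zero_iff] at e3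
      exact hk0 (Nat.eq_zero_of_dvd_of_lt e3 (Finset.mem_range.mp hk))
    · intro h
      exact absurd (Finset.mem_range.mpr (Nat.pos_of_ne_zero ha)) h
  rw [h0, Matrix.trace_zero] at h1
  exact haL h1.symm

/-- `E M E` is a multiple of `E`. -/
theorem E_sandwich (hψ : ψ.IsPrimitive) (haL : (a : L) ≠ 0) (g : ZMod a × ZMod a)
    (hg : ∃ u v : ZMod a, u * g.1 + v * g.2 = 1) (hψ1 : ∀ x, ψ x = 1 → x = 0)
    (ξ μ : L) (hξ : ξ ≠ 0)
    (h : W ψ g ^ a = ξ • (1 : Matrix _ _ L)) (hμ : μ ^ a = ξ)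
    (M : Matrix (ZMod a) (ZMod a) L) : ∃ c : L, E ψ g μ * M * E ψ g μ = c • E ψ g μ := by
  have hμ0 : μ ≠ 0 := by
    rintro rfl
    rw [zero_pow (NeZero.ne a)] at hμ
    exact hξ hμ.symm
  have hW : ∀ m, ∃ c : L, E ψ g μ * W ψ m * E ψ g μ = c • E ψ g μ := by
    intro m
    set θ : L := ψ (m.1 * g.2 - g.1 * m.2) with hθ
    have hθ0 : θ ≠ 0 := (AddChar.val_isUnit ψ _).ne_zero
    have h1 : ∀ k : ℕ, W ψ g ^ k * W ψ m = θ ^ k • (W ψ m * W ψ g ^ k) := by
      intro k
      induction k with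
      | zero => simp
      | succ k ih =>
        rw [pow_succ', Matrix.mul_assoc, ih, Matrix.mul_smul, ← Matrix.mul_assoc, W_comm,
          ← hθ, Matrix.smul_mul, smul_smul, Matrix.mul_assoc, pow_succ θ k]
    have h2 : E ψ g μ * W ψ m = W ψ m * E ψ g (μ * θ⁻¹) := by
      rw [E, E, Finset.sum_mul, Finset.mul_sum]
      refine Finset.sum_congr rfl fun k _ => ?_
      rw [Matrix.smul_mul, h1, smul_smul, Matrix.mul_smul, mul_inv, inv_inv, mul_pow]
    rw [h2, Matrix.mul_assoc, E_mul_E ψ g ξ μ _ hξ h hμ]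
    have h3 : (μ * θ⁻¹)⁻¹ * μ = θ := by field_simp
    rw [h3]
    by_cases hθ1 : θ = 1
    · have h4 := hψ1 _ hθ1
      obtain ⟨u, v, huv⟩ := hg
      have h5 : m.1 * g.2 = g.1 * m.2 := sub_eq_zero.mp h4
      set j : ZMod a := u * m.1 + v * m.2 with hj
      have h6 : m = j.val • g := by
        ext
        · rw [Prod.smul_fst, nsmul_eq_mul, ZMod.natCast_zmod_val, hj]
          calc m.1 = m.1 * (u * g.1 + v * g.2) := by rw [huv, mul_one]
            _ = u * m.1 * g.1 + v * (m.1 * g.2) := by ring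
            _ = u * m.1 * g.1 + v * (g.1 * m.2) := by rw [h5]
            _ = _ := by ring
        · rw [Prod.smul_snd, nsmul_eq_mul, ZMod.natCast_zmod_val, hj]
          calc m.2 = m.2 * (u * g.1 + v * g.2) := by rw [huv, mul_one]
            _ = u * (g.1 * m.2) + v * m.2 * g.2 := by ring
            _ = u * (m.1 * g.2) + v * m.2 * g.2 := by rw [h5]
            _ = _ := by ring
      obtain ⟨c, hc, h7⟩ := W_pow ψ g j.val
      rw [← h6] at h7
      have h8 : W ψ m = c⁻¹ • W ψ g ^ j.val := by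
        rw [h7, smul_smul, inv_mul_cancel₀ hc, one_smul]
      rw [h8, Matrix.smul_mul, Matrix.mul_smul, pow_W_mul_E ψ g ξ μ hξ h hμ, smul_smul, smul_smul]
      exact ⟨_, rfl⟩
    · have h4 : (∑ k ∈ Finset.range a, θ ^ k) = 0 := by
        have h5 : θ ^ a = 1 := by
          rw [hθ, ← AddChar.map_nsmul_eq_pow]
          simp
        have h6 := mul_geom_sum θ a
        rw [h5, sub_self] at h6
        exact (mul_eq_zero.mp h6).resolve_left (sub_ne_zero.mpr hθ1)
      rw [h4, zero_smul, Matrix.mul_zero]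
      exact ⟨0, by rw [zero_smul]⟩
  choose c hc using hW
  have hunit : ∀ i j, ∃ d : L, E ψ g μ * Matrix.single i j (1 : L) * E ψ g μ = d • E ψ g μ := by
    intro i j
    refine ⟨(a : L)⁻¹ * ∑ k : ZMod a, ψ (-(k * i)) * c (k, j - i), ?_⟩
    have h1 : Matrix.single i j (1 : L) =
        (a : L)⁻¹ • ∑ k : ZMod a, ψ (-(k * i)) • W ψ (k, j - i) := by
      rw [← unit_eq ψ hψ, smul_smul, inv_mul_cancel₀ haL, one_smul]
    rw [h1, Matrix.mul_smul, Matrix.smul_mul, Finset.mul_sum, Finset.sum_mul, mul_smul,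
      Finset.sum_smul]
    congr 1
    refine Finset.sum_congr rfl fun k _ => ?_
    rw [Matrix.mul_smul, Matrix.smul_mul, hc, smul_smul]
  choose d hd using hunit
  refine ⟨∑ i, ∑ j, M i j * d i j, ?_⟩
  conv_lhs => rw [Matrix.matrix_eq_sum_single M]
  simp only [Finset.mul_sum, Finset.sum_mul, Finset.sum_smul]
  refine Finset.sum_congr rfl fun i _ => Finset.sum_congr rfl fun j _ => ?_
  have h1 : Matrix.single i j (M i j) = M i j • Matrix.single i j (1 : L) := by
    rw [Matrix.smul_single, smul_eq_mul, mul_one]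
  rw [h1, Matrix.mul_smul, Matrix.smul_mul, hd, smul_smul]

/-- A matrix `E ≠ 0` such that all `E M E` are multiples of `E` has rank one. -/
theorem rank_one (F : Matrix (ZMod a) (ZMod a) L) (hF : F ≠ 0)
    (h : ∀ M : Matrix (ZMod a) (ZMod a) L, ∃ c : L, F * M * F = c • F) :
    ∃ x y : ZMod a → L, F = Matrix.vecMulVec x y := by
  obtain ⟨p, q, hpq⟩ : ∃ p q, F p q ≠ 0 := by
    by_contra hcon
    push Not at hcon
    exact hF (by ext1 i j; exact hcon i j)
  obtain ⟨c, hc⟩ := h (Matrix.single q p (1 : L))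
  have h1 : ∀ i j, F i q * F p j = c * F i j := by
    intro i j
    have h2 := congrFun (congrFun hc i) j
    rw [Matrix.smul_apply, smul_eq_mul] at h2
    rw [← h2, Matrix.mul_assoc, mul_apply, Finset.sum_eq_single q]
    · rw [Matrix.single_mul_apply_same, one_mul]
    · intro b _ hb
      rw [Matrix.single_mul_apply_of_ne _ _ _ _ _ hb, mul_zero]
    · intro h; exact absurd (Finset.mem_univ _) h
  have hc0 : c = F p q := by
    have h2 := h1 p q
    exact (mul_right_cancel₀ hpq h2).symm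
  refine ⟨fun i => c⁻¹ * F i q, fun j => F p j, ?_⟩
  ext i j
  rw [Matrix.vecMulVec_apply, mul_assoc, h1, ← mul_assoc, inv_mul_cancel₀ (hc0 ▸ hpq), one_mul]

theorem exists_unimod (n : ZMod a × ZMod a) : ∃ g : ZMod a × ZMod a,
    (∃ u v : ZMod a, u * g.1 + v * g.2 = 1) ∧ ∃ k : ℕ, k < a ∧ n = k • g := by
  have ha : 0 < a := Nat.pos_of_ne_zero (NeZero.ne a)
  by_cases h : n = 0
  · exact ⟨(1, 0), ⟨1, 0, by simp⟩, 0, ha, by simp [h]⟩
  · set x : ℤ := (n.1.val : ℤ) with hx
    set y : ℤ := (n.2.val : ℤ) with hy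
    have hx1 : ((x : ℤ) : ZMod a) = n.1 := by
      rw [hx, Int.cast_natCast, ZMod.natCast_zmod_val]
    have hy1 : ((y : ℤ) : ZMod a) = n.2 := by
      rw [hy, Int.cast_natCast, ZMod.natCast_zmod_val]
    have hd0 : (Int.gcd x y : ℤ) ≠ 0 := by
      intro h0
      have h1 : Int.gcd x y = 0 := by exact_mod_cast h0
      rw [Int.gcd_eq_zero_iff] at h1
      apply h
      ext
      · rw [← hx1, h1.1]; simp
      · rw [← hy1, h1.2]; simp
    obtain ⟨p, hp⟩ : (Int.gcd x y : ℤ) ∣ x := Int.gcd_dvd_left _ _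
    obtain ⟨q, hq⟩ : (Int.gcd x y : ℤ) ∣ y := Int.gcd_dvd_right _ _
    have hb := Int.gcd_eq_gcd_ab x y
    have hb1 : x.gcdA y * p + x.gcdB y * q = 1 := by
      have h1 : (Int.gcd x y : ℤ) * (x.gcdA y * p + x.gcdB y * q) = (Int.gcd x y : ℤ) * 1 := by
        calc (Int.gcd x y : ℤ) * (x.gcdA y * p + x.gcdB y * q)
            = ((Int.gcd x y : ℤ) * p) * x.gcdA y + ((Int.gcd x y : ℤ) * q) * x.gcdB y := by ring
          _ = x * x.gcdA y + y * x.gcdB y := by rw [← hp, ← hq]
          _ = (Int.gcd x y : ℤ) * 1 := by rw [← hb, mul_one]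
      exact mul_left_cancel₀ hd0 h1
    refine ⟨((p : ZMod a), (q : ZMod a)), ⟨((x.gcdA y : ℤ) : ZMod a), ((x.gcdB y : ℤ) : ZMod a), ?_⟩,
      Int.gcd x y % a, Nat.mod_lt _ ha, ?_⟩
    · have h1 := congrArg (fun z : ℤ => (z : ZMod a)) hb1
      simpa using h1
    · ext
      · rw [Prod.smul_fst, nsmul_eq_mul, ZMod.natCast_mod, ← hx1]
        conv_lhs => rw [hp]
        push_cast
        rfl
      · rw [Prod.smul_snd, nsmul_eq_mul, ZMod.natCast_mod, ← hy1]
        conv_lhs => rw [hq]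
        push_cast
        rfl

theorem heis [IsAlgClosed L] (hψ : ψ.IsPrimitive) (haL : (a : L) ≠ 0)
    (hψ1 : ∀ x, ψ x = 1 → x = 0)
    (S : Matrix (ZMod a) (ZMod a) L →ₗ[L] Matrix (ZMod a) (ZMod a) L) (γ : ZMod a × ZMod a)
    (φ : ZMod a × ZMod a → L) (hS : ∀ n, S (W ψ n) = φ n • W ψ (n + γ)) (N : ℕ)
    (hnil : ∀ x y : ZMod a → L, (S (Matrix.vecMulVec x y)) ^ N = 0) : S = 0 := by
  have ha : 0 < a := Nat.pos_of_ne_zero (NeZero.ne a)
  have hφ : ∀ n, φ n = 0 := by
    intro n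
    obtain ⟨g, hg, k0, hk0, hk⟩ := exists_unimod (n + γ)
    obtain ⟨ξ, hξ, hWa⟩ := W_pow_a ψ g
    obtain ⟨lam, hlam⟩ := IsAlgClosed.exists_pow_nat_eq ξ ha
    have hlam0 : lam ≠ 0 := by
      rintro rfl
      rw [zero_pow ha.ne'] at hlam
      exact hξ hlam.symm
    choose c hc hWk using W_pow ψ g
    obtain ⟨x, y, hxy⟩ := rank_one (E ψ g lam) (trace_E ψ hψ haL g hg lam)
      (fun M => E_sandwich ψ hψ haL g hg hψ1 ξ lam hξ hWa hlam M)
    set δ : ℕ → L := fun k => (lam⁻¹) ^ k * (c k * (ψ ((-γ).1 * (k • g).2) *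
      (φ (k • g + -γ) * (c k)⁻¹))) with hδ
    have hD : E ψ g lam * W ψ (-γ) = Matrix.vecMulVec x (Matrix.vecMul y (W ψ (-γ))) := by
      rw [hxy, Matrix.vecMulVec_mul]
    have hSD : S (E ψ g lam * W ψ (-γ)) = ∑ k ∈ Finset.range a, δ k • W ψ g ^ k := by
      rw [E, Finset.sum_mul, map_sum]
      refine Finset.sum_congr rfl fun k _ => ?_
      rw [Matrix.smul_mul, map_smul, hWk k, Matrix.smul_mul, map_smul, W_mul, map_smul, hS,
        neg_add_cancel_right, smul_smul, smul_smul, smul_smul, smul_smul, hδ]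
      congr 1
      have := hc k
      field_simp
    have hz : ∀ μ : L, μ ^ a = ξ → ∑ k ∈ Finset.range a, δ k * μ ^ k = 0 := by
      intro μ hμ
      have h1 : S (E ψ g lam * W ψ (-γ)) * E ψ g μ =
          (∑ k ∈ Finset.range a, δ k * μ ^ k) • E ψ g μ := by
        rw [hSD, Finset.sum_mul, Finset.sum_smul]
        refine Finset.sum_congr rfl fun k _ => ?_
        rw [Matrix.smul_mul, pow_W_mul_E ψ g ξ μ hξ hWa hμ, smul_smul]
      have h2 : ∀ j : ℕ, S (E ψ g lam * W ψ (-γ)) ^ j * E ψ g μ =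
          (∑ k ∈ Finset.range a, δ k * μ ^ k) ^ j • E ψ g μ := by
        intro j
        induction j with
        | zero => simp
        | succ j ih =>
          rw [pow_succ, Matrix.mul_assoc, h1, Matrix.mul_smul, ih, smul_smul, pow_succ, mul_comm]
      have h3 := h2 N
      rw [hD, hnil, Matrix.zero_mul] at h3
      have h4 := smul_eq_zero.mp h3.symm
      rcases h4 with h4 | h4
      · have hN : N ≠ 0 := by
          rintro rfl
          rw [pow_zero] at h4
          exact one_ne_zero h4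
        exact (pow_eq_zero_iff hN).mp h4
      · exact absurd h4 (trace_E ψ hψ haL g hg μ)
    set p : Polynomial L := ∑ k ∈ Finset.range a, Polynomial.C (δ k) * Polynomial.X ^ k with hp
    have hψa : ∀ j : ZMod a, ψ j ^ a = 1 := by
      intro j
      rw [← AddChar.map_nsmul_eq_pow]
      simp
    have hp0 : p = 0 := by
      refine Polynomial.eq_zero_of_natDegree_lt_card_of_eval_eq_zero p
        (f := fun j : ZMod a => lam * ψ j) ?_ ?_ ?_
      · intro i j hij
        have h1 : ψ i = ψ j := mul_left_cancel₀ hlam0 hij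
        have h2 : ψ (i - j) = 1 := by
          rw [sub_eq_add_neg, AddChar.map_add_eq_mul, h1, ← AddChar.map_add_eq_mul,
            add_neg_cancel, AddChar.map_zero_eq_one]
        exact sub_eq_zero.mp (hψ1 _ h2)
      · intro j
        rw [hp, Polynomial.eval_finsetSum]
        simp only [Polynomial.eval_mul, Polynomial.eval_C, Polynomial.eval_pow, Polynomial.eval_X]
        exact hz _ (by rw [mul_pow, hψa, mul_one, hlam])
      · rw [ZMod.card]
        refine lt_of_le_of_lt (Polynomial.natDegree_sum_le_of_forall_le (n := a - 1) _ _ ?_)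
          (by omega)
        intro k hk
        have := Finset.mem_range.mp hk
        exact (Polynomial.natDegree_C_mul_X_pow_le _ _).trans (by omega)
    have h1 : δ k0 = 0 := by
      have h2 := congrArg (fun q => Polynomial.coeff q k0) hp0
      simp only [hp, Polynomial.finsetSum_coeff, Polynomial.coeff_C_mul, Polynomial.coeff_X_pow,
        mul_ite, mul_one, mul_zero, Polynomial.coeff_zero] at h2
      rw [Finset.sum_ite_eq, if_pos (Finset.mem_range.mpr hk0)] at h2
      exact h2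
    rw [hδ] at h1
    simp only [← hk] at h1
    have e1 : (lam⁻¹) ^ k0 ≠ 0 := pow_ne_zero _ (inv_ne_zero hlam0)
    have e2 : ψ ((-γ).1 * (n + γ).2) ≠ 0 := (AddChar.val_isUnit ψ _).ne_zero
    have e3 := (mul_eq_zero.mp h1).resolve_left e1
    have e4 := (mul_eq_zero.mp e3).resolve_left (hc k0)
    have e5 := (mul_eq_zero.mp e4).resolve_left e2
    have e6 := (mul_eq_zero.mp e5).resolve_right (inv_ne_zero (hc k0))
    rwa [add_neg_cancel_right] at e6
  have hunit : ∀ i j, S (Matrix.single i j (1 : L)) = 0 := by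
    intro i j
    have h1 : Matrix.single i j (1 : L) =
        (a : L)⁻¹ • ∑ k : ZMod a, ψ (-(k * i)) • W ψ (k, j - i) := by
      rw [← unit_eq ψ hψ, smul_smul, inv_mul_cancel₀ haL, one_smul]
    rw [h1, map_smul, map_sum]
    refine smul_eq_zero_of_right _ (Finset.sum_eq_zero fun k _ => ?_)
    rw [map_smul, hS, hφ, zero_smul, smul_zero]
  refine LinearMap.ext fun M => ?_
  conv_lhs => rw [Matrix.matrix_eq_sum_single M]
  simp only [map_sum, LinearMap.zero_apply]
  refine Finset.sum_eq_zero fun i _ => Finset.sum_eq_zero fun j _ => ?_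
  have h1 : Matrix.single i j (M i j) = M i j • Matrix.single i j (1 : L) := by
    rw [Matrix.smul_single, smul_eq_mul, mul_one]
  rw [h1, map_smul, hunit, smul_zero]

end Heis

end Pool.Agent.H16NC
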