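import Mathlib
import Pool.Agent.H16NC.Heis

/-!
Operators `S` with `S (W n)` proportional to `W n`, such that the characteristic polynomial of
`S (x yᵀ)` is the product of the factors `X - q_i (yᵀ x)`, with `a ≥ 3` different numbers `q_i`: they
do not exist.
-/

set_option autoImplicit false

namespace Pool.Agent.H16NC

open Matrix

section Pert

variable {L : Type*} [Field L] {a : ℕ} [NeZero a]

/-- The cyclic tridiagonal matrices. -/
def tri {R : Type*} [CommRing R] (d b c : ZMod a → R) : Matrix (ZMod a) (ZMod a) R :=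
  Matrix.of fun p q => (if q = p then d p else 0) + (if q = p + 1 then b p else 0) +
    (if q = p - 1 then c p else 0)

theorem tri_single {R : Type*} [CommRing R] (d b c : ZMod a → R) (i : ZMod a) :
    (tri d b c).mulVec (Pi.single i 1) =
      d i • Pi.single i 1 + b (i - 1) • Pi.single (i - 1) 1 + c (i + 1) • Pi.single (i + 1) 1 := by
  funext p
  rw [Matrix.mulVec_single_one]
  simp only [Matrix.col_apply, tri, Matrix.of_apply, Pi.add_apply, Pi.smul_apply, Pi.single_apply,
    smul_eq_mul, mul_ite, mul_one, mul_zero]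
  congr 1
  · congr 1
    · by_cases h : i = p
      · rw [if_pos h, if_pos h.symm, h]
      · rw [if_neg h, if_neg (Ne.symm h)]
    · by_cases h : i = p + 1
      · have h' : p = i - 1 := by rw [h]; ring
        rw [if_pos h, if_pos h', ← h']
      · rw [if_neg h, if_neg]
        intro h'
        apply h
        rw [h']; ring
  · by_cases h : i = p - 1
    · have h' : p = i + 1 := by rw [h]; ring
      rw [if_pos h, if_pos h', ← h']
    · rw [if_neg h, if_neg]
      intro h'
      apply h
      rw [h']; ring

theorem list_eig {R : Type*} [CommRing R] {ι κ : Type*} [Fintype ι] [DecidableEq ι]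
    (T : Matrix ι ι R) (x : κ → R) (l : List κ) (v : ι → R) (μ : R) (hv : T.mulVec v = μ • v) :
    ((l.map (fun p => T - x p • (1 : Matrix ι ι R))).prod).mulVec v =
      (l.map (fun p => μ - x p)).prod • v := by
  induction l with
  | nil => simp
  | cons p l ih =>
    rw [List.map_cons, List.prod_cons, ← Matrix.mulVec_mulVec, ih, Matrix.mulVec_smul,
      Matrix.sub_mulVec, hv, Matrix.smul_mulVec, Matrix.one_mulVec, List.map_cons, List.prod_cons,
      ← sub_smul, smul_smul, mul_comm]

theorem pert [Infinite L] (α0 α1 b c : ZMod a → L) (ha : 2 ≤ a)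
    (hinj : Function.Injective α0)
    (hCH : ∀ t : L, Polynomial.aeval (tri (fun p => α0 p + t * α1 p) b (fun p => t * c p))
      (∏ p, (Polynomial.X - Polynomial.C (α0 p * (1 + t)))) = 0)
    (i : ZMod a) (hb : b (i - 1) = 0) :
    b i * c (i + 1) = (α1 i - α0 i) * (α0 (i + 1) - α0 i) := by
  classical
  have hne : i + 1 ≠ i := by
    intro h
    have h1 : (1 : ZMod a) = 0 := by
      have := congrArg (fun z => z - i) h
      simpa using this
    have h2 : ((1 : ℕ) : ZMod a) = 0 := by rw [Nat.cast_one]; exact h1
    rw [ZMod.natCast_eq_zero_iff] at h2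
    have := Nat.le_of_dvd one_pos h2
    omega
  set l : List (ZMod a) := (Finset.univ.erase i).toList with hl
  have hmem : ∀ p, p ≠ i → p ∈ l := by
    intro p hp
    rw [hl, Finset.mem_toList]
    exact Finset.mem_erase.mpr ⟨hp, Finset.mem_univ p⟩
  have hnmem : i ∉ l := by
    rw [hl, Finset.mem_toList]
    exact Finset.notMem_erase i _
  -- over the polynomial ring
  set TX : Matrix (ZMod a) (ZMod a) (Polynomial L) :=
    tri (fun p => Polynomial.C (α0 p) + Polynomial.X * Polynomial.C (α1 p))
      (fun p => Polynomial.C (b p)) (fun p => Polynomial.X * Polynomial.C (c p)) with hTX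
  set aX : ZMod a → Polynomial L := fun p => Polynomial.C (α0 p) * (1 + Polynomial.X) with haX
  set QX := (l.map (fun p => TX - aX p • (1 : Matrix (ZMod a) (ZMod a) (Polynomial L)))).prod
    with hQX
  have hfac : ∀ (t : L) (p : ZMod a),
      (Polynomial.evalRingHom t).mapMatrix
        (TX - aX p • (1 : Matrix (ZMod a) (ZMod a) (Polynomial L))) =
      tri (fun p => α0 p + t * α1 p) b (fun p => t * c p) -
        (α0 p * (1 + t)) • (1 : Matrix (ZMod a) (ZMod a) L) := by
    intro t p
    refine Matrix.ext fun u v => ?_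
    rw [RingHom.mapMatrix_apply, Matrix.map_apply, Matrix.sub_apply, Matrix.sub_apply,
      Matrix.smul_apply, Matrix.smul_apply, Matrix.one_apply, Matrix.one_apply, hTX, tri, tri,
      Matrix.of_apply, Matrix.of_apply, haX]
    split_ifs <;> simp <;> ring
  have hzero : QX * (TX - aX i • (1 : Matrix (ZMod a) (ZMod a) (Polynomial L))) = 0 := by
    refine Matrix.ext fun u v => ?_
    apply Polynomial.funext
    intro t
    have h1 : (l.map (fun p => tri (fun p => α0 p + t * α1 p) b (fun p => t * c p) -
        (α0 p * (1 + t)) • (1 : Matrix (ZMod a) (ZMod a) L))).prod *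
        (tri (fun p => α0 p + t * α1 p) b (fun p => t * c p) -
        (α0 i * (1 + t)) • (1 : Matrix (ZMod a) (ZMod a) L)) = 0 := by
      have h2 := hCH t
      rw [← Finset.prod_erase_mul _ _ (Finset.mem_univ i), map_mul, ← Finset.prod_map_toList,
        ← hl, map_list_prod, List.map_map] at h2
      have h3 : ∀ p, Polynomial.aeval (tri (fun p => α0 p + t * α1 p) b (fun p => t * c p))
          (Polynomial.X - Polynomial.C (α0 p * (1 + t))) =
          tri (fun p => α0 p + t * α1 p) b (fun p => t * c p) -
            (α0 p * (1 + t)) • (1 : Matrix (ZMod a) (ZMod a) L) := by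
        intro p
        rw [map_sub, Polynomial.aeval_X, Polynomial.aeval_C, Algebra.algebraMap_eq_smul_one]
      rw [h3] at h2
      rw [← h2]
      congr 2
      refine List.map_congr_left fun p _ => ?_
      exact (h3 p).symm
    have h2 : (Polynomial.evalRingHom t).mapMatrix
        (QX * (TX - aX i • (1 : Matrix (ZMod a) (ZMod a) (Polynomial L)))) = 0 := by
      rw [map_mul, hfac, hQX, map_list_prod, List.map_map, ← h1]
      congr 2
      refine List.map_congr_left fun p _ => ?_
      exact hfac t p
    have h3 := congrFun (congrFun h2 u) v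
    rw [RingHom.mapMatrix_apply, Matrix.map_apply] at h3
    simpa using h3
  -- the vector
  set uX : ZMod a → Polynomial L := (Polynomial.C (α1 i - α0 i)) • Pi.single i 1 +
    Polynomial.C (c (i + 1)) • Pi.single (i + 1) 1 with huX
  have hvec : (TX - aX i • (1 : Matrix (ZMod a) (ZMod a) (Polynomial L))).mulVec
      (Pi.single i 1) = (Polynomial.X : Polynomial L) • uX := by
    rw [Matrix.sub_mulVec, Matrix.smul_mulVec, Matrix.one_mulVec, hTX, tri_single, hb, map_zero,
      zero_smul, add_zero, huX, haX]
    funext p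
    simp only [Pi.sub_apply, Pi.add_apply, Pi.smul_apply, smul_eq_mul, map_sub]
    ring
  have hQu : QX.mulVec uX = 0 := by
    have h1 : QX.mulVec ((Polynomial.X : Polynomial L) • uX) = 0 := by
      rw [← hvec, Matrix.mulVec_mulVec, hzero, Matrix.zero_mulVec]
    rw [Matrix.mulVec_smul] at h1
    exact (smul_eq_zero.mp h1).resolve_left Polynomial.X_ne_zero
  -- evaluate at zero
  set T0 : Matrix (ZMod a) (ZMod a) L := tri α0 b (fun _ => 0) with hT0
  set Q0 := (l.map (fun p => T0 - α0 p • (1 : Matrix (ZMod a) (ZMod a) L))).prod with hQ0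
  set u : ZMod a → L := (α1 i - α0 i) • Pi.single i 1 + c (i + 1) • Pi.single (i + 1) 1 with hu
  have hQ0u : Q0.mulVec u = 0 := by
    have h1 : (Polynomial.evalRingHom (0 : L)).mapMatrix QX = Q0 := by
      rw [hQX, map_list_prod, List.map_map, hQ0]
      congr 1
      refine List.map_congr_left fun p _ => ?_
      have h2 := hfac 0 p
      have h3 : tri (fun p => α0 p + 0 * α1 p) b (fun p => 0 * c p) -
        (α0 p * (1 + 0)) • (1 : Matrix (ZMod a) (ZMod a) L) =
          T0 - α0 p • (1 : Matrix (ZMod a) (ZMod a) L) := by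
        simp only [zero_mul, add_zero, mul_one]
        rfl
      rw [← h3, ← h2]
      rfl
    funext p
    have h2 := congrArg (Polynomial.eval (0 : L)) (congrFun hQu p)
    rw [Matrix.mulVec, dotProduct, Polynomial.eval_finsetSum] at h2
    rw [← h1, Matrix.mulVec, dotProduct]
    simp only [Pi.zero_apply, Polynomial.eval_zero, Polynomial.eval_mul] at h2 ⊢
    refine Eq.trans ?_ h2
    refine Finset.sum_congr rfl fun q _ => ?_
    rw [RingHom.mapMatrix_apply, Matrix.map_apply, Polynomial.coe_evalRingHom]
    congr 1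
    rw [hu, huX]
    simp only [Pi.add_apply, Pi.smul_apply, Pi.single_apply, smul_eq_mul]
    split_ifs <;> simp
  have hd : α0 (i + 1) - α0 i ≠ 0 := sub_ne_zero.mpr (fun h => hne (hinj h))
  have hei : T0.mulVec (Pi.single i 1) = α0 i • Pi.single i 1 := by
    rw [hT0, tri_single, hb, zero_smul, add_zero, zero_smul, add_zero]
  set s : L := b i / (α0 (i + 1) - α0 i) with hs
  have hei1 : T0.mulVec (Pi.single (i + 1) 1 + s • Pi.single i 1) =
      α0 (i + 1) • (Pi.single (i + 1) 1 + s • Pi.single i 1) := by
    rw [Matrix.mulVec_add, Matrix.mulVec_smul, hei, hT0, tri_single, zero_smul, add_zero,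
      add_sub_cancel_right, smul_add, add_assoc]
    congr 1
    rw [smul_smul, smul_smul, ← add_smul]
    congr 1
    rw [hs]
    field_simp
    ring
  have e1 := list_eig T0 α0 l _ _ hei
  have e2 := list_eig T0 α0 l _ _ hei1
  rw [← hQ0] at e1 e2
  have h0 : (l.map (fun p => α0 (i + 1) - α0 p)).prod = 0 := by
    apply List.prod_eq_zero
    exact List.mem_map.mpr ⟨i + 1, hmem _ hne, sub_self _⟩
  have hκ : (l.map (fun p => α0 i - α0 p)).prod ≠ 0 := by
    apply List.prod_ne_zero
    intro h
    obtain ⟨p, hp, hp0⟩ := List.mem_map.mp h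
    have : i = p := hinj (sub_eq_zero.mp hp0)
    exact hnmem (this ▸ hp)
  rw [h0, zero_smul, Matrix.mulVec_add, Matrix.mulVec_smul, e1] at e2
  rw [hu, Matrix.mulVec_add, Matrix.mulVec_smul, Matrix.mulVec_smul, e1] at hQ0u
  have e3 : Q0.mulVec (Pi.single (i + 1) 1) =
      -(s • (l.map (fun p => α0 i - α0 p)).prod • (Pi.single i 1 : ZMod a → L)) :=
    eq_neg_of_add_eq_zero_left e2
  rw [e3] at hQ0u
  have e4 := congrFun hQ0u i
  simp only [Pi.add_apply, Pi.smul_apply, Pi.neg_apply, Pi.single_eq_same, smul_eq_mul, mul_one,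
    Pi.zero_apply] at e4
  have e5 : ((α1 i - α0 i) - c (i + 1) * s) * (l.map (fun p => α0 i - α0 p)).prod = 0 := by
    rw [← e4]; ring
  have e6 := (mul_eq_zero.mp e5).resolve_right hκ
  have e7 : α1 i - α0 i = c (i + 1) * s := sub_eq_zero.mp e6
  rw [e7, hs]
  field_simp

end Pert

end Pool.Agent.H16NC
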