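import Mathlib
import Pool.Agent.H16NC.Pert

/-!
Operators `S` with `S (W n)` proportional to `W n`, such that the characteristic polynomial of
`S (x yᵀ)` is the product of the factors `X - q_i (yᵀ x)`, with `a ≥ 3` different numbers `q_i`, do
not exist.
-/

set_option autoImplicit false

namespace Pool.Agent.H16NC

open Matrix

variable {L : Type*} [Field L] {a : ℕ} [NeZero a] (ψ : AddChar (ZMod a) L)

theorem S_single (hψ : ψ.IsPrimitive) (haL : (a : L) ≠ 0)
    (S : Matrix (ZMod a) (ZMod a) L →ₗ[L] Matrix (ZMod a) (ZMod a) L)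
    (φ : ZMod a × ZMod a → L) (hS : ∀ n, S (W ψ n) = φ n • W ψ n) (i j p r : ZMod a) :
    S (Matrix.single i j (1 : L)) p r = if r = p + (j - i) then
      (a : L)⁻¹ * ∑ k : ZMod a, φ (k, j - i) * ψ (k * (p - i)) else 0 := by
  have h1 : Matrix.single i j (1 : L) =
      (a : L)⁻¹ • ∑ k : ZMod a, ψ (-(k * i)) • W ψ (k, j - i) := by
    rw [← unit_eq ψ hψ, smul_smul, inv_mul_cancel₀ haL, one_smul]
  rw [h1, map_smul, map_sum, Matrix.smul_apply, Matrix.sum_apply, smul_eq_mul]
  simp only [map_smul, hS, Matrix.smul_apply, W_apply, smul_eq_mul]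
  by_cases h : r = p + (j - i)
  · simp only [if_pos h]
    congr 1
    refine Finset.sum_congr rfl fun k _ => ?_
    have h2 : ψ (k * (p - i)) = ψ (-(k * i)) * ψ (k * p) := by
      rw [← AddChar.map_add_eq_mul]
      congr 1
      ring
    rw [h2]
    ring
  · simp only [if_neg h, mul_zero, Finset.sum_const_zero]

theorem vec_single (i j : ZMod a) : Matrix.vecMulVec (Pi.single i (1 : L)) (Pi.single j 1) =
    Matrix.single i j (1 : L) := by
  ext p q
  rw [Matrix.vecMulVec_apply, Matrix.single_apply, Pi.single_apply, Pi.single_apply]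
  by_cases h1 : i = p <;> by_cases h2 : j = q <;> simp [h1, h2, eq_comm]

/-- The unit vectors. -/
def ev (L : Type*) [Field L] (a : ℕ) (i : ZMod a) : ZMod a → L := Pi.single i 1

theorem prod_swap {ι κ : Type*} [Fintype ι] (I : Finset κ) (α : ι → L) (q : κ → L)
    (h : (∏ p, (Polynomial.X - Polynomial.C (α p))) = ∏ i ∈ I, (Polynomial.X - Polynomial.C (q i))) :
    Multiset.map α Finset.univ.val = Multiset.map q I.val := by
  have h1 : (∏ p, (Polynomial.X - Polynomial.C (α p))) =
      ((Multiset.map α Finset.univ.val).map (fun x => Polynomial.X - Polynomial.C x)).prod := by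
    rw [Multiset.map_map]; rfl
  have h2 : (∏ i ∈ I, (Polynomial.X - Polynomial.C (q i))) =
      ((Multiset.map q I.val).map (fun x => Polynomial.X - Polynomial.C x)).prod := by
    rw [Multiset.map_map]; rfl
  rw [h1, h2] at h
  have h3 := congrArg Polynomial.roots h
  rwa [Polynomial.roots_multiset_prod_X_sub_C, Polynomial.roots_multiset_prod_X_sub_C] at h3

theorem contra [Infinite L] (hψ : ψ.IsPrimitive) (haL : (a : L) ≠ 0) (ha3 : 3 ≤ a)
    (S : Matrix (ZMod a) (ZMod a) L →ₗ[L] Matrix (ZMod a) (ZMod a) L)
    (φ : ZMod a × ZMod a → L) (hS : ∀ n, S (W ψ n) = φ n • W ψ n) {κ : Type*} (I : Finset κ)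
    (q : κ → L) (hq : Set.InjOn q I)
    (hch : ∀ x y : ZMod a → L, (S (Matrix.vecMulVec x y)).charpoly =
      ∏ i ∈ I, (Polynomial.X - Polynomial.C (q i * (x ⬝ᵥ y)))) : False := by
  classical
  have h01 : (0 : ZMod a) ≠ 1 := by
    intro h
    have h2 : ((1 : ℕ) : ZMod a) = 0 := by rw [Nat.cast_one]; exact h.symm
    rw [ZMod.natCast_eq_zero_iff] at h2
    have := Nat.le_of_dvd one_pos h2
    omega
  set κf : ZMod a → ZMod a → L := fun e z => (a : L)⁻¹ * ∑ k : ZMod a, φ (k, e) * ψ (k * z)
    with hκ
  have hunit : ∀ i j p r, S (Matrix.single i j (1 : L)) p r =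
      if r = p + (j - i) then κf (j - i) (p - i) else 0 := S_single ψ hψ haL S φ hS
  set α : ZMod a → L := fun p => κf 0 p with hα
  set b : ZMod a → L := fun p => κf 1 p with hb
  set c : ZMod a → L := fun p => κf (-1) (p - 1) with hc
  have hA : S (Matrix.single 0 0 1) = Matrix.diagonal α := by
    ext p r
    rw [hunit, Matrix.diagonal_apply, sub_zero, sub_zero, add_zero]
    by_cases h : p = r
    · rw [if_pos h.symm, if_pos h]
    · rw [if_neg (Ne.symm h), if_neg h]
  -- the diagonal
  have hroots : Multiset.map α Finset.univ.val = Multiset.map q I.val := by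
    apply prod_swap
    rw [← Matrix.charpoly_diagonal, ← hA, ← vec_single, hch]
    refine Finset.prod_congr rfl fun i _ => ?_
    rw [dotProduct_single_one, Pi.single_eq_same, mul_one]
  have hinj : Function.Injective α := by
    have h1 : (Multiset.map α Finset.univ.val).Nodup := by
      rw [hroots]
      exact (Multiset.nodup_map_iff_inj_on I.nodup).mpr (fun x hx y hy h => hq hx hy h)
    have h2 := (Multiset.nodup_map_iff_inj_on Finset.univ.nodup).mp h1
    intro x y h
    exact h2 x (Finset.mem_univ x) y (Finset.mem_univ y) h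
  have hprod : ∀ g : L → Polynomial L, ∏ i ∈ I, g (q i) = ∏ p, g (α p) := by
    intro g
    have h1 : ∏ i ∈ I, g (q i) = ((Multiset.map q I.val).map g).prod := by
      rw [Multiset.map_map]; rfl
    have h2 : ∏ p, g (α p) = ((Multiset.map α Finset.univ.val).map g).prod := by
      rw [Multiset.map_map]; rfl
    rw [h1, h2, hroots]
  -- `b` has a zero
  have hbz : ∃ j, b j = 0 := by
    by_contra hcon
    push Not at hcon
    have h1 : (S (Matrix.single 0 1 1)) ^ a = 0 := by
      have h2 := hch (Pi.single 0 1) (Pi.single 1 1)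
      rw [vec_single] at h2
      have h3 : ∏ i ∈ I, (Polynomial.X - Polynomial.C (q i *
          ((Pi.single 0 1 : ZMod a → L) ⬝ᵥ Pi.single 1 1))) = Polynomial.X ^ I.card := by
        rw [← Finset.prod_const]
        refine Finset.prod_congr rfl fun i _ => ?_
        rw [dotProduct_single_one, Pi.single_eq_of_ne h01.symm, mul_zero, map_zero, sub_zero]
      rw [h3] at h2
      have h4 := Matrix.aeval_self_charpoly (S (Matrix.single 0 1 (1 : L)))
      rw [h2, map_pow, Polynomial.aeval_X] at h4
      have h5 : I.card = a := by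
        have h6 := congrArg Polynomial.natDegree h2
        rw [Matrix.charpoly_natDegree_eq_dim, ZMod.card, Polynomial.natDegree_X_pow] at h6
        exact h6.symm
      rwa [h5] at h4
    have h2 : ∀ k : ℕ, ((S (Matrix.single 0 1 1)) ^ k) 0 (k : ZMod a) ≠ 0 := by
      intro k
      induction k with
      | zero => simp
      | succ k ih =>
        rw [pow_succ, mul_apply, Finset.sum_eq_single (k : ZMod a)]
        · refine mul_ne_zero ih ?_
          rw [hunit, if_pos (by push_cast; ring), sub_zero, sub_zero]
          exact hcon _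
        · intro l _ hl
          rw [hunit, if_neg, mul_zero]
          intro h
          apply hl
          push_cast at h
          have h3 : (k : ZMod a) + 1 - 1 = l + (1 - 0) - 1 := by rw [h]
          ring_nf at h3
          exact h3.symm
        · intro h; exact absurd (Finset.mem_univ _) h
    apply h2 a
    rw [h1]
    rfl
  obtain ⟨j, hj⟩ := hbz
  -- the two lines
  have hline : ∀ u v w z : L, Matrix.vecMulVec (u • ev L a 0 + v • ev L a 1 : ZMod a → L)
      (w • ev L a 0 + z • ev L a 1) =
      (u * w) • Matrix.single 0 0 (1 : L) + (u * z) • Matrix.single 0 1 (1 : L) +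
        (v * w) • Matrix.single 1 0 (1 : L) + (v * z) • Matrix.single 1 1 (1 : L) := by
    intro u v w z
    rw [← vec_single, ← vec_single, ← vec_single, ← vec_single]
    ext p r
    simp only [Matrix.vecMulVec_apply, Matrix.add_apply, Matrix.smul_apply, Pi.add_apply,
      Pi.smul_apply, smul_eq_mul, ev]
    ring
  have hSline : ∀ u v w z : L, S (Matrix.vecMulVec
      (u • ev L a 0 + v • ev L a 1 : ZMod a → L) (w • ev L a 0 + z • ev L a 1)) =
      tri (fun p => u * w * α p + v * z * α (p - 1)) (fun p => u * z * b p)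
        (fun p => v * w * c p) := by
    intro u v w z
    rw [hline, map_add, map_add, map_add, map_smul, map_smul, map_smul, map_smul]
    ext p r
    simp only [Matrix.add_apply, Matrix.smul_apply, hunit, tri, Matrix.of_apply, smul_eq_mul,
      sub_zero, sub_self, add_zero, zero_sub, ← sub_eq_add_neg, mul_ite, mul_zero, hα, hb, hc]
    split_ifs <;> ring
  have hdot : ∀ u v w z : L, (u • ev L a 0 + v • ev L a 1 : ZMod a → L) ⬝ᵥ
      (w • ev L a 0 + z • ev L a 1) = u * w + v * z := by
    intro u v w z
    rw [dotProduct_add, dotProduct_smul, dotProduct_smul, ev, ev, dotProduct_single_one,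
      dotProduct_single_one]
    simp only [Pi.add_apply, Pi.smul_apply, Pi.single_eq_same, Pi.single_eq_of_ne h01,
      Pi.single_eq_of_ne h01.symm, smul_eq_mul]
    ring
  have hi : b (j + 1 - 1) = 0 := by rw [add_sub_cancel_right]; exact hj
  have e1 := pert α (fun p => α (p - 1)) b c (by omega) hinj (by
    intro t
    have h1 := hch ((1 : L) • ev L a 0 + t • ev L a 1)
      ((1 : L) • ev L a 0 + (1 : L) • ev L a 1)
    have h2 := Matrix.aeval_self_charpoly (S (Matrix.vecMulVec
      ((1 : L) • ev L a 0 + t • ev L a 1 : ZMod a → L)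
      ((1 : L) • ev L a 0 + (1 : L) • ev L a 1)))
    rw [h1, hSline, hdot, hprod (fun x => Polynomial.X - Polynomial.C (x * (1 * 1 + t * 1)))] at h2
    simp only [one_mul, mul_one] at h2
    exact h2) (j + 1) hi
  have e2 := pert (fun p => α (p - 1)) α b c (by omega)
    (fun x y h => sub_left_injective (hinj h)) (by
    intro t
    have h1 := hch ((1 : L) • ev L a 0 + (1 : L) • ev L a 1)
      (t • ev L a 0 + (1 : L) • ev L a 1)
    have h2 := Matrix.aeval_self_charpoly (S (Matrix.vecMulVec
      ((1 : L) • ev L a 0 + (1 : L) • ev L a 1 : ZMod a → L)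
      (t • ev L a 0 + (1 : L) • ev L a 1)))
    rw [h1, hSline, hdot, hprod (fun x => Polynomial.X - Polynomial.C (x * (1 * t + 1 * 1)))] at h2
    simp only [one_mul, mul_one] at h2
    have h3 : ∏ p, (Polynomial.X - Polynomial.C (α (p - 1) * (1 + t))) =
        ∏ p, (Polynomial.X - Polynomial.C (α p * (t + 1))) := by
      refine Fintype.prod_equiv (Equiv.subRight (1 : ZMod a)) _ _ fun p => ?_
      rw [Equiv.subRight_apply, add_comm]
    rw [h3]
    have h4 : (fun p => α (p - 1) + t * α p) = fun p => t * α p + α (p - 1) := by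
      funext p
      ring
    rw [h4]
    exact h2) (j + 1) hi
  rw [e1] at e2
  simp only [add_sub_cancel_right] at e2
  have hne : α (j + 1) - α j ≠ 0 := by
    rw [sub_ne_zero]
    intro h
    have h1 := hinj h
    have h2 : (1 : ZMod a) = 0 := by
      have := congrArg (fun z => z - j) h1
      simpa using this
    exact h01 h2.symm
  have e3 : (α (j + 1) - α j) * (α (j + 1 + 1) - α j) = 0 := by
    linear_combination (-1 : L) * e2
  have e4 := (mul_eq_zero.mp e3).resolve_left hne
  have e5 := hinj (sub_eq_zero.mp e4)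
  have e6 : ((2 : ℕ) : ZMod a) = 0 := by
    have := congrArg (fun z => z - j) e5
    push_cast
    have h7 : j + 1 + 1 - j = (2 : ZMod a) := by ring
    rw [← h7, e5, sub_self]
  rw [ZMod.natCast_eq_zero_iff] at e6
  have := Nat.le_of_dvd two_pos e6
  omega

end Pool.Agent.H16NC
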