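import Mathlib
import Pool.Agent.TH82.NC.Kron

/-!
The corner block of the values of noncommutative polynomials at block triangular matrices with three
diagonal blocks `Y, M, Y`.
-/

set_option autoImplicit false

namespace Pool.Agent.H16NC

open Matrix Pool.Agent.TH82.NC Pool.Agent.H552R3.PC

variable {K : Type*} [Field K] {σ : Type*} {ι κ : Type*} [Fintype ι] [DecidableEq ι] [Fintype κ]
  [DecidableEq κ] {R : Type*} [CommRing R] [Algebra K R]

section Up

variable (A : σ → Matrix ι ι R) (A' : σ → Matrix κ κ R)

theorem up_lin {α : Type*} (t : Finset α) (x : α → R) (b : α → σ → Matrix ι κ R)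
    (f : FreeAlgebra K σ) :
    up A A' (fun i => ∑ p ∈ t, x p • b p i) f = ∑ p ∈ t, x p • up A A' (b p) f := by
  induction f using FreeAlgebra.induction with
  | grade0 r => simp only [up_algebraMap, smul_zero, Finset.sum_const_zero]
  | grade1 y => simp only [up_ι]
  | mul f g hf hg =>
    simp only [up_mul, hf, hg, Matrix.mul_sum, Matrix.sum_mul, smul_add, Finset.sum_add_distrib,
      Matrix.mul_smul, Matrix.smul_mul]
  | add f g hf hg => simp only [up_add, hf, hg, smul_add, Finset.sum_add_distrib]

theorem lift_conj (g g' : Matrix ι ι R) (hg : g' * g = 1) (hg' : g * g' = 1)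
    (f : FreeAlgebra K σ) :
    FreeAlgebra.lift K (fun i => g * A i * g') f = g * FreeAlgebra.lift K A f * g' := by
  induction f using FreeAlgebra.induction with
  | grade0 r =>
    rw [AlgHom.commutes, AlgHom.commutes, Algebra.algebraMap_eq_smul_one, Matrix.mul_smul,
      Matrix.mul_one, Matrix.smul_mul, hg']
  | grade1 y => simp only [FreeAlgebra.lift_ι_apply]
  | mul f h hf hh =>
    rw [map_mul, hf, hh, map_mul]
    calc g * FreeAlgebra.lift K A f * g' * (g * FreeAlgebra.lift K A h * g')
        = g * FreeAlgebra.lift K A f * (g' * g) * FreeAlgebra.lift K A h * g' := by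
          simp only [Matrix.mul_assoc]
      _ = _ := by rw [hg, Matrix.mul_one]; simp only [Matrix.mul_assoc]
  | add f h hf hh => rw [map_add, hf, hh, map_add, Matrix.mul_add, Matrix.add_mul]

theorem up_conj_left (g g' : Matrix ι ι R) (hg : g' * g = 1) (hg' : g * g' = 1)
    (b : σ → Matrix ι κ R) (f : FreeAlgebra K σ) :
    up (fun i => g * A i * g') A' (fun i => g * b i) f = g * up A A' b f := by
  induction f using FreeAlgebra.induction with
  | grade0 r => rw [up_algebraMap, up_algebraMap, Matrix.mul_zero]
  | grade1 y => rw [up_ι, up_ι]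
  | mul f h hf hh =>
    rw [up_mul, up_mul, hf, hh, lift_conj A g g' hg hg', Matrix.mul_add]
    congr 1
    · calc g * FreeAlgebra.lift K A f * g' * (g * up A A' b h)
          = g * FreeAlgebra.lift K A f * (g' * g) * up A A' b h := by
            simp only [Matrix.mul_assoc]
        _ = _ := by rw [hg, Matrix.mul_one]; simp only [Matrix.mul_assoc]
    · simp only [Matrix.mul_assoc]
  | add f h hf hh => rw [up_add, up_add, hf, hh, Matrix.mul_add]

theorem up_conj_right (g g' : Matrix κ κ R) (hg : g' * g = 1) (hg' : g * g' = 1)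
    (b : σ → Matrix ι κ R) (f : FreeAlgebra K σ) :
    up A (fun i => g * A' i * g') (fun i => b i * g') f = up A A' b f * g' := by
  induction f using FreeAlgebra.induction with
  | grade0 r => rw [up_algebraMap, up_algebraMap, Matrix.zero_mul]
  | grade1 y => rw [up_ι, up_ι]
  | mul f h hf hh =>
    rw [up_mul, up_mul, hf, hh, lift_conj A' g g' hg hg', Matrix.add_mul]
    congr 1
    · simp only [Matrix.mul_assoc]
    · calc up A A' b f * g' * (g * FreeAlgebra.lift K A' h * g')
          = up A A' b f * (g' * g) * FreeAlgebra.lift K A' h * g' := by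
            simp only [Matrix.mul_assoc]
        _ = _ := by rw [hg, Matrix.mul_one]
  | add f h hf hh => rw [up_add, up_add, hf, hh, Matrix.add_mul]

end Up

section Corner

/-- The corner block of the value at the matrices with rows `Y B E`, `0 M C`, `0 0 Y`. -/
noncomputable def crn (Y : σ → Matrix ι ι R) (M : σ → Matrix κ κ R) (B : σ → Matrix ι κ R)
    (C : σ → Matrix κ ι R) (E : σ → Matrix ι ι R) (f : FreeAlgebra K σ) : Matrix ι ι R :=
  (up Y (fun i => fromBlocks (M i) (C i) 0 (Y i)) (fun i => Matrix.fromCols (B i) (E i)) f).toCols₂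

variable (Y : σ → Matrix ι ι R) (M : σ → Matrix κ κ R) (B : σ → Matrix ι κ R)
    (C : σ → Matrix κ ι R) (E : σ → Matrix ι ι R)

theorem up_eq (f : FreeAlgebra K σ) :
    up Y (fun i => fromBlocks (M i) (C i) 0 (Y i)) (fun i => Matrix.fromCols (B i) (E i)) f =
      Matrix.fromCols (up Y M B f) (crn Y M B C E f) := by
  have key : ∃ u, up Y (fun i => fromBlocks (M i) (C i) 0 (Y i))
      (fun i => Matrix.fromCols (B i) (E i)) f = Matrix.fromCols (up Y M B f) u := by
    induction f using FreeAlgebra.induction with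
    | grade0 r => exact ⟨0, by rw [up_algebraMap, up_algebraMap, Matrix.fromCols_zero]⟩
    | grade1 y => exact ⟨E y, by rw [up_ι, up_ι]⟩
    | mul f h hf hh =>
      obtain ⟨u, hu⟩ := hf
      obtain ⟨v, hv⟩ := hh
      refine ⟨FreeAlgebra.lift K Y f * v + (up Y M B f * up M Y C h +
        u * FreeAlgebra.lift K Y h), ?_⟩
      rw [up_mul, hu, hv, lift_up, Matrix.fromCols_mul_fromBlocks, Matrix.mul_fromCols, up_mul]
      ext i j
      rcases j with j | j <;> simp
    | add f h hf hh =>
      obtain ⟨u, hu⟩ := hf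
      obtain ⟨v, hv⟩ := hh
      refine ⟨u + v, ?_⟩
      rw [up_add, hu, hv, up_add]
      ext i j
      rcases j with j | j <;> simp
  obtain ⟨u, hu⟩ := key
  have h1 : crn Y M B C E f = u := by rw [crn, hu, Matrix.toCols₂_fromCols]
  rw [h1, hu]

theorem crn_algebraMap (r : K) : crn Y M B C E (algebraMap K (FreeAlgebra K σ) r) = 0 := by
  rw [crn, up_algebraMap]
  rfl

theorem crn_ι (i : σ) : crn Y M B C E (FreeAlgebra.ι K i) = E i := by
  rw [crn, up_ι, Matrix.toCols₂_fromCols]

theorem crn_add (f h : FreeAlgebra K σ) :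
    crn Y M B C E (f + h) = crn Y M B C E f + crn Y M B C E h := by
  rw [crn, up_add]; rfl

theorem crn_mul (f h : FreeAlgebra K σ) : crn Y M B C E (f * h) =
    FreeAlgebra.lift K Y f * crn Y M B C E h + (up Y M B f * up M Y C h +
      crn Y M B C E f * FreeAlgebra.lift K Y h) := by
  rw [crn, up_mul, up_eq, up_eq, lift_up, Matrix.fromCols_mul_fromBlocks, Matrix.mul_fromCols]
  ext i j
  simp [Matrix.toCols₂]

theorem crn_E (f : FreeAlgebra K σ) : crn Y M B C E f =
    crn Y M B C (fun _ => 0) f + up Y Y E f := by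
  induction f using FreeAlgebra.induction with
  | grade0 r => simp only [crn_algebraMap, up_algebraMap, add_zero]
  | grade1 y => simp only [crn_ι, up_ι, zero_add]
  | mul f h hf hh =>
    rw [crn_mul, crn_mul, up_mul, hf, hh, Matrix.mul_add, Matrix.add_mul]
    abel
  | add f h hf hh =>
    rw [crn_add, crn_add, up_add, hf, hh]
    abel

/-- The bilinear part. -/
noncomputable abbrev cr (Y : σ → Matrix ι ι R) (M : σ → Matrix κ κ R) (B : σ → Matrix ι κ R)
    (C : σ → Matrix κ ι R) (f : FreeAlgebra K σ) : Matrix ι ι R :=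
  crn Y M B C (fun _ => 0) f

theorem cr_mul (f h : FreeAlgebra K σ) : cr Y M B C (f * h) =
    FreeAlgebra.lift K Y f * cr Y M B C h + (up Y M B f * up M Y C h +
      cr Y M B C f * FreeAlgebra.lift K Y h) := crn_mul Y M B C _ f h

theorem cr_add (f h : FreeAlgebra K σ) :
    cr Y M B C (f + h) = cr Y M B C f + cr Y M B C h := crn_add Y M B C _ f h

theorem cr_lin {α β : Type*} (s : Finset α) (t : Finset β) (x : α → R) (y : β → R)
    (B : α → σ → Matrix ι κ R) (C : β → σ → Matrix κ ι R) (f : FreeAlgebra K σ) :
    cr Y M (fun i => ∑ p ∈ s, x p • B p i) (fun i => ∑ q ∈ t, y q • C q i) f =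
      ∑ p ∈ s, ∑ q ∈ t, (x p * y q) • cr Y M (B p) (C q) f := by
  induction f using FreeAlgebra.induction with
  | grade0 r => simp only [crn_algebraMap, smul_zero, Finset.sum_const_zero]
  | grade1 z => simp only [crn_ι, smul_zero, Finset.sum_const_zero]
  | mul f h hf hh =>
    simp only [crn_mul, hf, hh, up_lin]
    simp only [smul_add, Finset.sum_add_distrib]
    congr 1
    · simp only [Matrix.mul_sum, Matrix.mul_smul]
    · congr 1
      · rw [Matrix.sum_mul]
        refine Finset.sum_congr rfl fun p _ => ?_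
        rw [Matrix.mul_sum]
        refine Finset.sum_congr rfl fun q _ => ?_
        rw [Matrix.smul_mul, Matrix.mul_smul, smul_smul]
      · simp only [Matrix.sum_mul, Matrix.smul_mul]
  | add f h hf hh => simp only [crn_add, hf, hh, smul_add, Finset.sum_add_distrib]

theorem cr_conj (g g' : Matrix ι ι R) (hg : g' * g = 1) (hg' : g * g' = 1)
    (f : FreeAlgebra K σ) :
    cr (fun i => g * Y i * g') M (fun i => g * B i) (fun i => C i * g') f =
      g * cr Y M B C f * g' := by
  induction f using FreeAlgebra.induction with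
  | grade0 r => simp only [crn_algebraMap, Matrix.mul_zero, Matrix.zero_mul]
  | grade1 z => simp only [crn_ι, Matrix.mul_zero, Matrix.zero_mul]
  | mul f h hf hh =>
    rw [cr_mul, cr_mul, hf, hh, lift_conj Y g g' hg hg', lift_conj Y g g' hg hg',
      up_conj_left Y M g g' hg hg', up_conj_right M Y g g' hg hg', Matrix.mul_add, Matrix.mul_add,
      Matrix.add_mul, Matrix.add_mul]
    congr 1
    · calc g * FreeAlgebra.lift K Y f * g' * (g * cr Y M B C h * g')
          = g * FreeAlgebra.lift K Y f * (g' * g) * cr Y M B C h * g' := by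
            simp only [Matrix.mul_assoc]
        _ = _ := by rw [hg, Matrix.mul_one]; simp only [Matrix.mul_assoc]
    · congr 1
      · simp only [Matrix.mul_assoc]
      · calc g * cr Y M B C f * g' * (g * FreeAlgebra.lift K Y h * g')
            = g * cr Y M B C f * (g' * g) * FreeAlgebra.lift K Y h * g' := by
              simp only [Matrix.mul_assoc]
          _ = _ := by rw [hg, Matrix.mul_one]; simp only [Matrix.mul_assoc]
  | add f h hf hh => rw [cr_add, cr_add, hf, hh, Matrix.mul_add, Matrix.add_mul]

theorem cr_map {R' : Type*} [CommRing R'] [Algebra K R'] (ψ : R →ₐ[K] R')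
    (f : FreeAlgebra K σ) : (cr Y M B C f).map ψ =
      cr (fun i => (Y i).map ψ) (fun i => (M i).map ψ) (fun i => (B i).map ψ)
        (fun i => (C i).map ψ) f := by
  have h1 := up_map Y (fun i => fromBlocks (M i) (C i) 0 (Y i)) ψ
    (fun i => Matrix.fromCols (B i) (0 : Matrix ι ι R)) f
  have h2 : (fun i => (fromBlocks (M i) (C i) 0 (Y i)).map ψ) =
      fun i => fromBlocks ((M i).map ψ) ((C i).map ψ) 0 ((Y i).map ψ) := by
    funext i
    rw [fromBlocks_map, Matrix.map_zero _ (map_zero ψ)]
  have h3 : (fun i => (Matrix.fromCols (B i) (0 : Matrix ι ι R)).map ψ) =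
      fun i => Matrix.fromCols ((B i).map ψ) (0 : Matrix ι ι R') := by
    funext i
    ext p q
    rcases q with q | q <;> simp
  rw [h2, h3] at h1
  unfold cr crn
  rw [← h1]
  rfl

end Corner

end Pool.Agent.H16NC
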