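import Mathlib
import Pool.Agent.R176.NC.Up
import Pool.Agent.R176.NC.Cyc
import Pool.Agent.H16NC.Cor

/-!
The structure of the derivative of an `n`-central polynomial at block upper triangular matrices.
-/

set_option autoImplicit false

namespace Pool.Agent.H16NC

open Matrix Pool.Agent.R176.NC Pool.Agent.TH82.NC
open Pool.Agent.Results.MP_5d2531_al.BlockTriangular (IsNuCentral coef)

variable {K : Type*} [Field K] {σ : Type*}

/-- `f` vanishes on the block upper triangular `n × n` matrices with diagonal blocks of sizes `s`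
and `n - s`. -/
def Van (f : FreeAlgebra K σ) (n s : ℕ) : Prop :=
  ∀ X : σ → Matrix (Fin n) (Fin n) K,
    (∀ i (k l : Fin n), (l : ℕ) < s → s ≤ (k : ℕ) → X i k l = 0) → FreeAlgebra.lift K X f = 0

lemma const_up' {d e n : ℕ} (ε : Fin d ⊕ Fin e ≃ Fin n) (f : FreeAlgebra K σ) (c : K)
    (h : ∀ (A : σ → Matrix (Fin d) (Fin d) K) (A' : σ → Matrix (Fin e) (Fin e) K)
      (B : σ → Matrix (Fin d) (Fin e) K),
      FreeAlgebra.lift K (fun i => Matrix.fromBlocks (A i) (B i) 0 (A' i)) f =
        Matrix.scalar (Fin d ⊕ Fin e) c)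
    (X : σ → Matrix (Fin n) (Fin n) K)
    (hX : ∀ i (k : Fin e) (u : Fin d), X i (ε (Sum.inr k)) (ε (Sum.inl u)) = 0) :
    FreeAlgebra.lift K X f = algebraMap K _ c := by
  set Y : σ → Matrix (Fin d ⊕ Fin e) (Fin d ⊕ Fin e) K := fun i =>
    Matrix.reindexAlgEquiv K K ε.symm (X i) with hY
  have h1 : ∀ i, Y i = Matrix.fromBlocks (Y i).toBlocks₁₁ (Y i).toBlocks₁₂ 0 (Y i).toBlocks₂₂ := by
    intro i
    conv_lhs => rw [← Matrix.fromBlocks_toBlocks (Y i)]
    congr 1
    ext k u
    exact hX i k u
  have h2 : X = fun i => Matrix.reindexAlgEquiv K K ε (Y i) := by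
    funext i
    ext a b
    simp [hY]
  rw [h2, lift_reindex, show Y = fun i => Matrix.fromBlocks (Y i).toBlocks₁₁ (Y i).toBlocks₁₂ 0
    (Y i).toBlocks₂₂ from funext h1, h]
  exact AlgEquiv.commutes (Matrix.reindexAlgEquiv K K ε) c

lemma const_lo' {d e n : ℕ} (ε : Fin d ⊕ Fin e ≃ Fin n) (f : FreeAlgebra K σ) (c : K)
    (h : ∀ (A : σ → Matrix (Fin d) (Fin d) K) (A' : σ → Matrix (Fin e) (Fin e) K)
      (C : σ → Matrix (Fin e) (Fin d) K),
      FreeAlgebra.lift K (fun i => Matrix.fromBlocks (A i) 0 (C i) (A' i)) f =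
        Matrix.scalar (Fin d ⊕ Fin e) c)
    (X : σ → Matrix (Fin n) (Fin n) K)
    (hX : ∀ i (k : Fin e) (u : Fin d), X i (ε (Sum.inl u)) (ε (Sum.inr k)) = 0) :
    FreeAlgebra.lift K X f = algebraMap K _ c := by
  set Y : σ → Matrix (Fin d ⊕ Fin e) (Fin d ⊕ Fin e) K := fun i =>
    Matrix.reindexAlgEquiv K K ε.symm (X i) with hY
  have h1 : ∀ i, Y i = Matrix.fromBlocks (Y i).toBlocks₁₁ 0 (Y i).toBlocks₂₁ (Y i).toBlocks₂₂ := by
    intro i
    conv_lhs => rw [← Matrix.fromBlocks_toBlocks (Y i)]
    congr 1
    ext u k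
    exact hX i k u
  have h2 : X = fun i => Matrix.reindexAlgEquiv K K ε (Y i) := by
    funext i
    ext a b
    simp [hY]
  rw [h2, lift_reindex, show Y = fun i => Matrix.fromBlocks (Y i).toBlocks₁₁ 0 (Y i).toBlocks₂₁
    (Y i).toBlocks₂₂ from funext h1, h]
  exact AlgEquiv.commutes (Matrix.reindexAlgEquiv K K ε) c

/-- The starting result `BlockTriangular`: for one of the two orders of the sizes of the blocks,
an `n`-central polynomial vanishes on the block upper triangular matrices. -/
theorem van_or [Infinite K] {n : ℕ} (hn : n.Prime) (hn2 : n ≠ 2) (hnK : (n : K) ≠ 0)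
    (f : FreeAlgebra K σ) (hcen : IsNuCentral n n f) (s : ℕ) (hs : 0 < s) (hsn : s < n) :
    Van f n s ∨ Van f n (n - s) := by
  classical
  have h1 := (Pool.Agent.Results.MP_5d2531_al.BlockTriangular.result n hn hn2 f hcen).1 s (n - s)
    hs (by omega) (by omega)
  rw [coef_nil n hn hnK f hcen] at h1
  rcases h1 with h2 | h2
  · left
    intro X hX
    have h3 := const_up' (finSumFinEquiv.trans (finCongr (by omega : s + (n - s) = n))) f 0 h2 X
      (fun i k u => hX i _ _ (by simp) (by simp))
    rw [h3, map_zero]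
  · right
    intro X hX
    have h3 := const_lo' (((Equiv.sumComm _ _).trans finSumFinEquiv).trans
      (finCongr (by omega : (n - s) + s = n))) f 0 h2 X
      (fun i k u => hX i _ _ (by simp) (by simp))
    rw [h3, map_zero]

/-- Restriction to an interval of blocks. -/
theorem win' {R : Type*} [CommRing R] [Algebra K R]
    {κ τ : Type*} [Fintype κ] [DecidableEq κ] [Fintype τ] [DecidableEq τ] (β : κ → ℕ)
    (k0 : ℕ) (e : τ → κ) (hei : Function.Injective e) (he : ∀ x, β x = k0 ↔ ∃ j, e j = x)
    (M : σ → Matrix κ κ R) (hM : ∀ i k l, β l < β k → M i k l = 0) (f : FreeAlgebra K σ) :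
    (∀ k l, β l < β k → FreeAlgebra.lift K M f k l = 0) ∧
    (FreeAlgebra.lift K M f).submatrix e e =
      FreeAlgebra.lift K (fun i => (M i).submatrix e e) f := by
  induction f using FreeAlgebra.induction with
  | grade0 c =>
    rw [AlgHom.commutes, AlgHom.commutes]
    refine ⟨fun k l h => ?_, ?_⟩
    · rw [Matrix.algebraMap_matrix_apply, if_neg]
      rintro rfl
      exact lt_irrefl _ h
    · ext k l
      rw [submatrix_apply, algebraMap_matrix_apply, algebraMap_matrix_apply]
      simp only [hei.eq_iff]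
  | grade1 i =>
    simp only [FreeAlgebra.lift_ι_apply]
    exact ⟨hM i, trivial⟩
  | mul f g hf hg =>
    rw [map_mul, map_mul, ← hf.2, ← hg.2]
    set P := FreeAlgebra.lift K M f
    set Q := FreeAlgebra.lift K M g
    refine ⟨fun k l h => ?_, ?_⟩
    · rw [mul_apply]
      refine Finset.sum_eq_zero fun j _ => ?_
      rcases lt_or_ge (β j) (β k) with h1 | h1
      · rw [hf.1 _ _ h1, zero_mul]
      · rw [hg.1 _ _ (lt_of_lt_of_le h h1), mul_zero]
    · ext k l
      rw [submatrix_apply, mul_apply, mul_apply]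
      simp only [submatrix_apply]
      symm
      refine Finset.sum_of_injOn e (hei.injOn) (fun _ _ => by simp) (fun j _ hj => ?_)
        (fun _ _ => rfl)
      have hk : β (e k) = k0 := (he _).mpr ⟨k, rfl⟩
      have hl : β (e l) = k0 := (he _).mpr ⟨l, rfl⟩
      rcases lt_trichotomy (β j) k0 with h1 | h1 | h1
      · rw [hf.1 _ _ (by rw [hk]; exact h1), zero_mul]
      · exfalso
        obtain ⟨j', hj'⟩ := (he j).mp h1
        exact hj ⟨j', by simp, hj'⟩
      · rw [hg.1 _ _ (by rw [hl]; exact h1), mul_zero]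
  | add f g hf hg =>
    rw [map_add, map_add, ← hf.2, ← hg.2]
    refine ⟨fun k l h => ?_, rfl⟩
    rw [Matrix.add_apply, hf.1 _ _ h, hg.1 _ _ h, add_zero]

/-- The characteristic polynomial of the derivative. -/
theorem charpoly_up [Infinite K] {n : ℕ} (hn0 : n ≠ 0) (f : FreeAlgebra K σ)
    (hch : ∀ X : σ → Matrix (Fin n) (Fin n) K,
      ∃ c : K, (FreeAlgebra.lift K X f).charpoly = Polynomial.X ^ n - Polynomial.C c)
    (B C : σ → Matrix (Fin n) (Fin n) K) (hB : FreeAlgebra.lift K B f = 0) :
    ∃ c : K, (up B B C f).charpoly = Polynomial.X ^ n - Polynomial.C c := by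
  classical
  set F := FreeAlgebra.lift K (line B C) f with hF
  have hev : ∀ t : K, F.map (Polynomial.eval t) =
      FreeAlgebra.lift K (fun i => B i + t • C i) f := eval_line B C f
  have hF0 : ∀ a b, (F a b).coeff 0 = 0 := by
    intro a b
    have h1 := congrFun (congrFun (hev 0) a) b
    have h2 : (fun i => B i + (0 : K) • C i) = B := by
      funext i
      rw [zero_smul, add_zero]
    rw [h2, hB] at h1
    rw [Polynomial.coeff_zero_eq_eval_zero]
    exact h1
  set H : Matrix (Fin n) (Fin n) (Polynomial K) := F.map Polynomial.divX with hH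
  have hFH : ∀ a b, F a b = H a b * Polynomial.X := by
    intro a b
    have h1 := Polynomial.divX_mul_X_add (F a b)
    rw [hF0, map_zero, add_zero] at h1
    exact h1.symm
  have hFt : ∀ t : K, F.map (Polynomial.eval t) = t • H.map (Polynomial.eval t) := by
    intro t
    ext a b
    rw [Matrix.map_apply, hFH, Matrix.smul_apply, Matrix.map_apply, Polynomial.eval_mul,
      Polynomial.eval_X, smul_eq_mul, mul_comm]
  -- the key identity away from zero
  have key : ∀ x t : K, t ≠ 0 → (Matrix.scalar (Fin n) x - H.map (Polynomial.eval t)).det -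
      (Matrix.scalar (Fin n) 0 - H.map (Polynomial.eval t)).det = x ^ n := by
    intro x t ht
    obtain ⟨c, hc⟩ := hch (fun i => B i + t • C i)
    rw [← hev, hFt] at hc
    have h1 : ∀ y : K, t ^ n * (Matrix.scalar (Fin n) y - H.map (Polynomial.eval t)).det =
        (t * y) ^ n - c := by
      intro y
      have h2 := congrArg (Polynomial.eval (t * y)) hc
      rw [Matrix.eval_charpoly] at h2
      have h3 : Matrix.scalar (Fin n) (t * y) - t • H.map (Polynomial.eval t) =
          t • (Matrix.scalar (Fin n) y - H.map (Polynomial.eval t)) := by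
        rw [smul_sub]
        congr 1
        ext a b
        by_cases hab : a = b
        · subst hab; simp
        · simp [hab]
      rw [h3, Matrix.det_smul, Fintype.card_fin] at h2
      rw [h2]
      simp
    have h2 := h1 x
    have h3 := h1 0
    rw [mul_zero, zero_pow hn0, zero_sub] at h3
    have h4 : t ^ n * ((Matrix.scalar (Fin n) x - H.map (Polynomial.eval t)).det -
      (Matrix.scalar (Fin n) 0 - H.map (Polynomial.eval t)).det) = t ^ n * x ^ n := by
      rw [mul_sub, h2, h3, mul_pow]
      ring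
    exact mul_left_cancel₀ (pow_ne_zero n ht) h4
  -- the key identity at zero
  have key0 : ∀ x : K, (Matrix.scalar (Fin n) x - H.map (Polynomial.eval 0)).det -
      (Matrix.scalar (Fin n) 0 - H.map (Polynomial.eval 0)).det = x ^ n := by
    intro x
    set g : Polynomial K := (Matrix.scalar (Fin n) (Polynomial.C x) - H).det -
      (Matrix.scalar (Fin n) (Polynomial.C 0) - H).det - Polynomial.C (x ^ n) with hg
    have hge : ∀ t : K, Polynomial.eval t g =
        (Matrix.scalar (Fin n) x - H.map (Polynomial.eval t)).det -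
        (Matrix.scalar (Fin n) 0 - H.map (Polynomial.eval t)).det - x ^ n := by
      intro t
      have h1 : ∀ y : K, (Matrix.scalar (Fin n) (Polynomial.C y) - H).map (Polynomial.eval t) =
          Matrix.scalar (Fin n) y - H.map (Polynomial.eval t) := by
        intro y
        ext a b
        by_cases hab : a = b
        · subst hab; simp
        · simp [hab]
      rw [hg, Polynomial.eval_sub, Polynomial.eval_sub, eval_det_map, eval_det_map, h1, h1,
        Polynomial.eval_C]
    have hg0 : g = 0 := by
      apply Polynomial.eq_zero_of_infinite_isRoot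
      apply Set.Infinite.mono (s := {t : K | t ≠ 0})
      · intro t ht
        change Polynomial.eval t g = 0
        rw [hge, key x t ht, sub_self]
      · exact (Set.finite_singleton (0 : K)).infinite_compl
    have h1 := hge 0
    rw [hg0, Polynomial.eval_zero] at h1
    exact sub_eq_zero.mp h1.symm
  -- the matrix at zero
  set N := H.map (Polynomial.eval 0) with hN
  have hNF : N = up B B C f := by
    ext a b
    rw [up, dual, Matrix.toBlocks_fromBlocks₁₂, Matrix.map_apply, ← hF, hN, Matrix.map_apply, hFH,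
      Polynomial.coeff_mul_X, Polynomial.coeff_zero_eq_eval_zero]
  refine ⟨-(Matrix.scalar (Fin n) 0 - N).det, ?_⟩
  rw [← hNF]
  apply Polynomial.funext
  intro x
  rw [Matrix.eval_charpoly, Polynomial.eval_sub, Polynomial.eval_pow, Polynomial.eval_X,
    Polynomial.eval_C, ← key0 x]
  ring

end Pool.Agent.H16NC
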