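import Mathlib
import Pool.Agent.H16NC.Str

/-!
Nilpotency of the corner block.
-/

set_option autoImplicit false

namespace Pool.Agent.H16NC

open Matrix Pool.Agent.R176.NC Pool.Agent.TH82.NC
open Pool.Agent.Results.MP_5d2531_al.BlockTriangular (IsNuCentral coef)

variable {K : Type*} [Field K] {σ : Type*}

lemma lab {p n x y : ℕ} (h : (if y < p then 0 else if y < p + n then 1 else 2) <
    (if x < p then 0 else if x < p + n then 1 else 2)) :
    (y < p ∧ p ≤ x) ∨ (y < p + n ∧ p + n ≤ x) := by
  split_ifs at h <;> omega

/-- The window of size `n` which starts at the boundary `p`. -/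
theorem low_zero {n : ℕ} (P : ℕ → Prop) (hper : ∀ q, P (q + n) ↔ P q) (f : FreeAlgebra K σ)
    (X Z : σ → Matrix (Fin n) (Fin n) K)
    (hX : ∀ i (k l : Fin n) q, P q → (l : ℕ) < q → q ≤ (k : ℕ) → X i k l = 0)
    (p : ℕ) (hp : P p) (hpn : p < n) (s : ℕ) (hsn : s < n) (hps : P (p + s)) (hV : Van f n s)
    (k l : Fin n) (hl : (l : ℕ) < p) (hk : p ≤ (k : ℕ)) : up X X Z f k l = 0 := by
  have hkn := k.2
  have hln := l.2
  let β : Fin n ⊕ Fin n → ℕ := fun x =>
    if (finSumFinEquiv x : ℕ) < p then 0 else if (finSumFinEquiv x : ℕ) < p + n then 1 else 2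
  have hβ : ∀ x, β x = if (finSumFinEquiv x : ℕ) < p then 0
    else if (finSumFinEquiv x : ℕ) < p + n then 1 else 2 := fun x => rfl
  let e : Fin n → Fin n ⊕ Fin n := fun k => finSumFinEquiv.symm ⟨p + k, by omega⟩
  have hev : ∀ k, (finSumFinEquiv (e k) : ℕ) = p + k := by
    intro k
    simp [e]
  have hei : Function.Injective e := by
    intro x y h
    have h1 := hev x
    rw [h, hev y] at h1
    exact Fin.ext (by omega)
  have he : ∀ x, β x = 1 ↔ ∃ j, e j = x := by
    intro x
    constructor
    · intro h
      have h12 : ¬ (finSumFinEquiv x : ℕ) < p ∧ (finSumFinEquiv x : ℕ) < p + n := by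
        rw [hβ] at h
        by_cases h1 : (finSumFinEquiv x : ℕ) < p
        · rw [if_pos h1] at h
          exact absurd h zero_ne_one
        · rw [if_neg h1] at h
          refine ⟨h1, ?_⟩
          by_contra h2
          rw [if_neg h2] at h
          omega
      obtain ⟨h1, h2⟩ := h12
      refine ⟨⟨(finSumFinEquiv x : ℕ) - p, by omega⟩, ?_⟩
      apply finSumFinEquiv.injective
      apply Fin.ext
      rw [hev]
      simp only
      omega
    · rintro ⟨j, rfl⟩
      have hj := j.2
      rw [hβ, hev, if_neg (by omega), if_pos (by omega)]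
  obtain ⟨-, h2⟩ := win' β 1 e hei he (fun i => fromBlocks (X i) (Z i) 0 (X i)) (by
    intro i x y hxy
    rw [hβ, hβ] at hxy
    replace hxy := lab hxy
    rcases x with x | x <;> rcases y with y | y
    · have hx := x.2
      have hy := y.2
      simp only [finSumFinEquiv_apply_left, Fin.val_castAdd] at hxy
      rw [fromBlocks_apply₁₁]
      exact hX i x y p hp (by omega) (by omega)
    · have hx := x.2
      simp only [finSumFinEquiv_apply_left, finSumFinEquiv_apply_right, Fin.val_castAdd,
        Fin.val_natAdd] at hxy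
      exfalso
      omega
    · rfl
    · simp only [finSumFinEquiv_apply_right, Fin.val_natAdd] at hxy
      rw [fromBlocks_apply₂₂]
      exact hX i x y p hp (by omega) (by omega)) f
  rw [hV _ (by
    intro i x y hy hx
    rw [Matrix.submatrix_apply]
    have h3 := hev x
    have h4 := hev y
    generalize e x = x' at h3 ⊢
    generalize e y = y' at h4 ⊢
    rcases x' with x' | x' <;> rcases y' with y' | y'
    · simp only [finSumFinEquiv_apply_left, Fin.val_castAdd] at h3 h4
      rw [fromBlocks_apply₁₁]
      exact hX i x' y' (p + s) hps (by omega) (by omega)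
    · simp only [finSumFinEquiv_apply_left, finSumFinEquiv_apply_right, Fin.val_castAdd,
        Fin.val_natAdd] at h3 h4
      have := x'.2
      omega
    · rfl
    · simp only [finSumFinEquiv_apply_right, Fin.val_natAdd] at h3 h4
      rw [fromBlocks_apply₂₂]
      have h5 : P (p + s - n) := by
        rw [← hper, Nat.sub_add_cancel (by omega)]
        exact hps
      exact hX i x' y' _ h5 (by omega) (by omega))] at h2
  have h5 : Sum.inl k = e ⟨k - p, by omega⟩ := by
    apply finSumFinEquiv.injective
    apply Fin.ext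
    rw [hev]
    simp only [finSumFinEquiv_apply_left, Fin.val_castAdd]
    omega
  have h6 : Sum.inr l = e ⟨n + l - p, by omega⟩ := by
    apply finSumFinEquiv.injective
    apply Fin.ext
    rw [hev]
    simp only [finSumFinEquiv_apply_right, Fin.val_natAdd]
    omega
  change FreeAlgebra.lift K (fun i => fromBlocks (X i) (Z i) 0 (X i)) f (Sum.inl k) (Sum.inr l) = 0
  rw [h5, h6]
  exact congrFun (congrFun h2 _) _

/-- The base matrices. -/
def bX {a m : ℕ} {R : Type*} [Zero R] (Y : σ → Matrix (Fin a) (Fin a) R)
    (M : σ → Matrix (Fin m) (Fin m) R)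
    (B : σ → Matrix (Fin a) (Fin m) R) (i : σ) : Matrix (Fin (a + m)) (Fin (a + m)) R :=
  (fromBlocks (Y i) (B i) 0 (M i)).submatrix finSumFinEquiv.symm finSumFinEquiv.symm

/-- The direction. -/
def bZ {a m : ℕ} {R : Type*} [Zero R] (C : σ → Matrix (Fin m) (Fin a) R) (i : σ) :
    Matrix (Fin (a + m)) (Fin (a + m)) R :=
  (fromBlocks 0 0 (C i) 0).submatrix finSumFinEquiv.symm finSumFinEquiv.symm

theorem up_corner {a m : ℕ} (Y : σ → Matrix (Fin a) (Fin a) K) (M : σ → Matrix (Fin m) (Fin m) K)
    (B : σ → Matrix (Fin a) (Fin m) K) (C : σ → Matrix (Fin m) (Fin a) K) (f : FreeAlgebra K σ)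
    (p q : Fin a) : up (bX Y M B) (bX Y M B) (bZ C) f (Fin.castAdd m p) (Fin.castAdd m q) =
      cr Y M B C f p q := by
  let β : Fin (a + m) ⊕ Fin (a + m) → ℕ :=
    Sum.elim (fun _ => 0) (fun x => if (x : ℕ) < a then 0 else 1)
  let e : Fin a ⊕ (Fin m ⊕ Fin a) → Fin (a + m) ⊕ Fin (a + m) :=
    Sum.elim (fun p => Sum.inl (Fin.castAdd m p))
      (Sum.elim (fun q => Sum.inl (Fin.natAdd a q)) (fun p => Sum.inr (Fin.castAdd m p)))
  have hei : Function.Injective e := by
    intro x y h
    rcases x with x | x | x <;> rcases y with y | y | y <;>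
      simp only [e, Sum.elim_inl, Sum.elim_inr, Sum.inl.injEq, Sum.inr.injEq, reduceCtorEq] at h
    · rw [Fin.castAdd_inj] at h; rw [h]
    · have := congrArg Fin.val h
      rw [Fin.val_castAdd, Fin.val_natAdd] at this
      have := x.2
      omega
    · have := congrArg Fin.val h
      rw [Fin.val_castAdd, Fin.val_natAdd] at this
      have := y.2
      omega
    · rw [Fin.natAdd_inj] at h; rw [h]
    · rw [Fin.castAdd_inj] at h; rw [h]
  have he : ∀ x, β x = 0 ↔ ∃ j, e j = x := by
    intro x
    constructor
    · intro h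
      rcases x with x | x
      · induction x using Fin.addCases with
        | left x => exact ⟨Sum.inl x, rfl⟩
        | right x => exact ⟨Sum.inr (Sum.inl x), rfl⟩
      · induction x using Fin.addCases with
        | left x => exact ⟨Sum.inr (Sum.inr x), rfl⟩
        | right x =>
          exfalso
          simp only [β, Sum.elim_inr, Fin.val_natAdd] at h
          rw [if_neg (by omega)] at h
          exact absurd h one_ne_zero
    · rintro ⟨j, rfl⟩
      rcases j with j | j | j
      · rfl
      · rfl
      · simp only [β, e, Sum.elim_inr, Fin.val_castAdd]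
        rw [if_pos j.2]
  obtain ⟨-, h2⟩ := win' β 0 e hei he
    (fun i => fromBlocks (bX Y M B i) (bZ C i) 0 (bX Y M B i)) (by
      intro i x y hxy
      rcases x with x | x
      · exact absurd hxy (by simp [β])
      · rcases y with y | y
        · rfl
        · rw [fromBlocks_apply₂₂]
          induction x using Fin.addCases with
          | left x =>
            exfalso
            simp only [β, Sum.elim_inr, Fin.val_castAdd] at hxy
            rw [if_pos x.2] at hxy
            omega
          | right x =>
            induction y using Fin.addCases with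
            | left y => simp [bX]
            | right y =>
              exfalso
              simp only [β, Sum.elim_inr, Fin.val_natAdd] at hxy
              rw [if_neg (by omega), if_neg (by omega)] at hxy
              omega) f
  have h3 : (fun i => (fromBlocks (bX Y M B i) (bZ C i) 0 (bX Y M B i)).submatrix e e) =
      fun i => fromBlocks (Y i) (Matrix.fromCols (B i) 0) 0 (fromBlocks (M i) (C i) 0 (Y i)) := by
    funext i
    ext x y
    rcases x with x | x | x <;> rcases y with y | y | y <;> simp [e, bX, bZ]
  rw [h3, lift_up] at h2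
  have h4 := congrFun (congrFun h2 (Sum.inl p)) (Sum.inr (Sum.inr q))
  exact h4

/-- Submatrices of an array. -/
def mn (H : ℕ → ℕ → K) (s q : ℕ) : Matrix (Fin q) (Fin q) K :=
  Matrix.of fun k l => H (s + k) (s + l)

theorem mn_split (H : ℕ → ℕ → K) (q r : ℕ)
    (h : ∀ k l, l < q → q ≤ k → k < q + r → H k l = 0) :
    (mn H 0 (q + r)).charpoly = (mn H 0 q).charpoly * (mn H q r).charpoly := by
  have h1 : (mn H 0 (q + r)).submatrix finSumFinEquiv finSumFinEquiv =
      fromBlocks (mn H 0 q) (Matrix.of fun (k : Fin q) (l : Fin r) => H k (q + l)) 0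
        (mn H q r) := by
    ext x y
    rcases x with x | x <;> rcases y with y | y
    · simp [mn]
    · simp [mn]
    · simp only [mn, Matrix.submatrix_apply, Matrix.of_apply, finSumFinEquiv_apply_left,
        finSumFinEquiv_apply_right, Fin.val_castAdd, Fin.val_natAdd, fromBlocks_apply₂₁,
        Matrix.zero_apply]
      exact h _ _ (by omega) (by omega) (by omega)
    · simp [mn]
  rw [← Matrix.charpoly_fromBlocks_zero₂₁, ← h1]
  exact (Matrix.charpoly_reindex finSumFinEquiv.symm (mn H 0 (q + r))).symm

/-- `X ^ n - 1` has a chain of divisors whose degrees are the boundaries between `0` and `n`. -/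
def Chain (K : Type*) [Field K] (n : ℕ) (P : ℕ → Prop) : Prop :=
  ∃ D : ℕ → Polynomial K,
    (∀ q, P q → q ≤ n → (D q).natDegree = q ∧ D q ∣ Polynomial.X ^ n - 1) ∧
    ∀ q r, P q → P r → q ≤ r → r ≤ n → D q ∣ D r

end Pool.Agent.H16NC
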