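import Mathlib
import Pool.Agent.H16NC.Str2

/-!
Nilpotency of the corner block.
-/

set_option autoImplicit false

namespace Pool.Agent.H16NC

open Matrix Pool.Agent.R176.NC Pool.Agent.TH82.NC
open Pool.Agent.Results.MP_5d2531_al.BlockTriangular (IsNuCentral coef)

variable {K : Type*} [Field K] {σ : Type*}

theorem exists_root {n a : ℕ} (hn : n.Prime) (ha : 0 < a) (han : a < n) (c d : K) (hc : c ≠ 0)
    (h : d ^ n = c ^ a) : ∃ e : K, e ≠ 0 ∧ e ^ n = c := by
  have hco : Nat.Coprime n a := Nat.coprime_of_lt_prime ha.ne' han hn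
  have hd : d ≠ 0 := by
    rintro rfl
    rw [zero_pow hn.ne_zero] at h
    exact pow_ne_zero a hc h.symm
  have hb := Nat.gcd_eq_gcd_ab n a
  rw [hco] at hb
  refine ⟨c ^ (Nat.gcdA n a) * d ^ (Nat.gcdB n a),
    mul_ne_zero (zpow_ne_zero _ hc) (zpow_ne_zero _ hd), ?_⟩
  have e1 : (c ^ (Nat.gcdA n a)) ^ n = c ^ ((n : ℤ) * Nat.gcdA n a) := by
    rw [← zpow_natCast, ← _root_.zpow_mul, mul_comm]
  have e2 : (d ^ (Nat.gcdB n a)) ^ n = c ^ ((a : ℤ) * Nat.gcdB n a) := by
    rw [← zpow_natCast, ← _root_.zpow_mul, mul_comm, _root_.zpow_mul, zpow_natCast, h,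
      _root_.zpow_mul, zpow_natCast]
  rw [mul_pow, e1, e2, ← zpow_add₀ hc, ← hb, Nat.cast_one, zpow_one]

theorem corner_nil [Infinite K] {a m : ℕ} (hn : (a + m).Prime)
    (hnK : ((a + m : ℕ) : K) ≠ 0)
    (f : FreeAlgebra K σ) (hcen : IsNuCentral (a + m) (a + m) f) (P : ℕ → Prop)
    (hper : ∀ q, P (q + (a + m)) ↔ P q) (hP0 : P 0) (hPa : P a) (ha : 0 < a) (hm : 0 < m)
    (hmin : ∀ q, 0 < q → q < a → ¬ P q)
    (hsink : ∀ p, P p → ∃ s, 0 < s ∧ s < a + m ∧ P (p + s) ∧ Van f (a + m) s)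
    (hNF : ¬ Chain K (a + m) P) (Y : σ → Matrix (Fin a) (Fin a) K)
    (M : σ → Matrix (Fin m) (Fin m) K)
    (hM : ∀ i (k l : Fin m) q, P (a + q) → (l : ℕ) < q → q ≤ (k : ℕ) → M i k l = 0)
    (B : σ → Matrix (Fin a) (Fin m) K) (C : σ → Matrix (Fin m) (Fin a) K) :
    (cr Y M B C f) ^ (a + m) = 0 := by
  classical
  set n := a + m with hnd
  set X : σ → Matrix (Fin (a + m)) (Fin (a + m)) K := bX Y M B with hXd
  have hX : ∀ i (k l : Fin (a + m)) q, P q → (l : ℕ) < q → q ≤ (k : ℕ) → X i k l = 0 := by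
    intro i k l q hq hl hk
    induction k using Fin.addCases with
    | left k =>
      rw [Fin.val_castAdd] at hk
      exact absurd hq (hmin q (by omega) (by omega))
    | right k =>
      rw [Fin.val_natAdd] at hk
      induction l using Fin.addCases with
      | left l => simp [hXd, bX]
      | right l =>
        rw [Fin.val_natAdd] at hl
        have h1 := hM i k l (q - a) (by rw [Nat.add_sub_cancel' (by omega)]; exact hq) (by omega)
          (by omega)
        simpa [hXd, bX] using h1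
  set H := up X X (bZ C) f with hH
  have hf0 : FreeAlgebra.lift K X f = 0 := by
    obtain ⟨s, hs0, hsn, hs, hV⟩ := hsink 0 hP0
    rw [zero_add] at hs
    exact hV X (fun i k l h1 h2 => hX i k l s hs h1 h2)
  obtain ⟨c, hc⟩ := charpoly_up hn.ne_zero f (charpoly_eq n hn hnK f hcen) X (bZ C) hf0
  set Hn : ℕ → ℕ → K := fun k l => if h : k < n ∧ l < n then H ⟨k, h.1⟩ ⟨l, h.2⟩ else 0 with hHn
  have hHn1 : ∀ k l : Fin n, Hn k l = H k l := by
    intro k l
    rw [hHn]
    simp only
    rw [dif_pos ⟨k.2, l.2⟩]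
  have hz : ∀ q, P q → ∀ k l, l < q → q ≤ k → k < n → Hn k l = 0 := by
    intro q hq k l hl hk hkn
    obtain ⟨s, hs0, hsn, hs, hV⟩ := hsink q hq
    have h1 := low_zero P hper f X (bZ C) hX q hq (by omega) s hsn hs hV ⟨k, hkn⟩
      ⟨l, by omega⟩ hl hk
    rw [← hH] at h1
    rw [← h1]
    exact hHn1 ⟨k, hkn⟩ ⟨l, by omega⟩
  have hsplit : ∀ q r, P q → q + r ≤ n →
      (mn Hn 0 (q + r)).charpoly = (mn Hn 0 q).charpoly * (mn Hn q r).charpoly :=
    fun q r hq hqr => mn_split Hn q r (fun k l h1 h2 h3 => hz q hq k l h1 h2 (by omega))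
  have hnn : mn Hn 0 n = H := by
    ext k l
    rw [mn, Matrix.of_apply, zero_add, zero_add, hHn1]
  have hFa : mn Hn 0 a = cr Y M B C f := by
    ext p q
    rw [mn, Matrix.of_apply, zero_add, zero_add, ← up_corner]
    exact hHn1 (Fin.castAdd m p) (Fin.castAdd m q)
  rw [← hFa]
  set F := mn Hn 0 a with hF
  have hdvd : ∀ q, P q → q ≤ n → (mn Hn 0 q).charpoly ∣ Polynomial.X ^ n - Polynomial.C c := by
    intro q hq hqn
    have h1 := hsplit q (n - q) hq (by omega)
    rw [Nat.add_sub_cancel' hqn, hnn, hc] at h1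
    exact ⟨_, h1⟩
  have hFn : F ^ n = algebraMap K _ c := by
    obtain ⟨w, hw⟩ := hdvd a hPa (by omega)
    have h1 := congrArg (Polynomial.aeval F) hw
    rw [map_mul, Matrix.aeval_self_charpoly, zero_mul, map_sub, map_pow, Polynomial.aeval_X,
      Polynomial.aeval_C] at h1
    exact sub_eq_zero.mp h1
  by_cases hc0 : c = 0
  · rw [hFn, hc0, map_zero]
  · exfalso
    have hdet : F.det ^ n = c ^ a := by
      rw [← Matrix.det_pow, hFn, Algebra.algebraMap_eq_smul_one, Matrix.det_smul, Matrix.det_one,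
        mul_one, Fintype.card_fin]
    obtain ⟨e, he0, he⟩ := exists_root hn ha (by omega) c F.det hc0 hdet
    apply hNF
    refine ⟨fun q => ((mn Hn 0 q).charpoly).comp (Polynomial.C e * Polynomial.X), ?_, ?_⟩
    · intro q hq hqn
      constructor
      · rw [Polynomial.natDegree_comp, Polynomial.natDegree_C_mul_X e he0, mul_one,
          Matrix.charpoly_natDegree_eq_dim, Fintype.card_fin]
      · obtain ⟨w, hw⟩ := hdvd q hq hqn
        have h1 : (Polynomial.X ^ n - Polynomial.C c : Polynomial K).comp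
            (Polynomial.C e * Polynomial.X) = Polynomial.C (e ^ n) * (Polynomial.X ^ n - 1) := by
          rw [← he]
          simp only [Polynomial.sub_comp, Polynomial.pow_comp, Polynomial.X_comp,
            Polynomial.C_comp, mul_pow, map_pow]
          ring
        have h2 : ((mn Hn 0 q).charpoly).comp (Polynomial.C e * Polynomial.X) ∣
            Polynomial.C (e ^ n) * (Polynomial.X ^ n - 1) := by
          rw [← h1, hw, Polynomial.mul_comp]
          exact Dvd.intro _ rfl
        have h3 : IsUnit (Polynomial.C (e ^ n) : Polynomial K) :=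
          Polynomial.isUnit_C.mpr (IsUnit.mk0 _ (pow_ne_zero _ he0))
        exact (h3.dvd_mul_left).mp h2
    · intro q r hq hr hqr hrn
      have h1 := hsplit q (r - q) hq (by omega)
      rw [Nat.add_sub_cancel' hqr] at h1
      simp only
      rw [h1, Polynomial.mul_comp]
      exact Dvd.intro _ rfl

end Pool.Agent.H16NC
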