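import Mathlib
import Pool.Agent.H16NC.Heis

/-!
The polynomial version of the vanishing theorem for Heisenberg equivariant operators.
-/

set_option autoImplicit false

namespace Pool.Agent.H16NC

open Matrix Polynomial

section Top

variable {L : Type*} [Field L] {A : Type*} [CommRing A] [Algebra L A] {ι : Type*} [Fintype ι]
  [DecidableEq ι]

theorem pow_top (M : Matrix ι ι A[X]) (N : ℕ) (h : ∀ i j, (M i j).natDegree ≤ N) (k : ℕ) :
    (∀ i j, ((M ^ k) i j).natDegree ≤ k * N) ∧
      (M ^ k).map (fun p => p.coeff (k * N)) = (M.map (fun p => p.coeff N)) ^ k := by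
  induction k with
  | zero =>
    constructor
    · intro i j
      rw [pow_zero, Matrix.one_apply]
      split_ifs <;> simp
    · ext i j
      rw [pow_zero, pow_zero, Matrix.map_apply, Matrix.one_apply, Matrix.one_apply]
      split_ifs <;> simp
  | succ k ih =>
    constructor
    · intro i j
      rw [pow_succ, mul_apply]
      refine Polynomial.natDegree_sum_le_of_forall_le _ _ fun l _ => ?_
      refine Polynomial.natDegree_mul_le.trans ?_
      rw [add_mul, one_mul]
      exact add_le_add (ih.1 i l) (h l j)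
    · rw [pow_succ, pow_succ, ← ih.2]
      ext i j
      rw [Matrix.map_apply, mul_apply, mul_apply, Polynomial.finsetSum_coeff]
      refine Finset.sum_congr rfl fun l _ => ?_
      rw [Matrix.map_apply, Matrix.map_apply, add_mul, one_mul]
      exact Polynomial.coeff_mul_add_eq_of_natDegree_le (ih.1 i l) (h l j)

theorem exists_top (T : Matrix ι ι L →ₗ[L] Matrix ι ι A[X]) (hT : T ≠ 0) :
    ∃ N, (∀ D i j, (T D i j).natDegree ≤ N) ∧ ∃ D i j, (T D i j).coeff N ≠ 0 := by
  classical
  have hex : ∃ N, ∀ D i j, (T D i j).natDegree ≤ N := by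
    refine ⟨∑ p : ι, ∑ q : ι, ∑ i : ι, ∑ j : ι, (T (Matrix.single p q 1) i j).natDegree, ?_⟩
    intro D i j
    have h1 : T D = ∑ p : ι, ∑ q : ι, D p q • T (Matrix.single p q 1) := by
      conv_lhs => rw [Matrix.matrix_eq_sum_single D]
      simp only [map_sum]
      refine Finset.sum_congr rfl fun p _ => Finset.sum_congr rfl fun q _ => ?_
      have h1 : Matrix.single p q (D p q) = D p q • Matrix.single p q (1 : L) := by
        rw [Matrix.smul_single, smul_eq_mul, mul_one]
      rw [h1, map_smul]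
    rw [h1]
    simp only [Matrix.sum_apply, Matrix.smul_apply]
    refine Polynomial.natDegree_sum_le_of_forall_le _ _ fun p _ =>
      Polynomial.natDegree_sum_le_of_forall_le _ _ fun q _ => ?_
    refine (Polynomial.natDegree_smul_le _ _).trans ?_
    calc (T (Matrix.single p q 1) i j).natDegree
        ≤ ∑ j' : ι, (T (Matrix.single p q 1) i j').natDegree :=
          Finset.single_le_sum (f := fun j' => (T (Matrix.single p q 1) i j').natDegree)
            (fun _ _ => Nat.zero_le _) (Finset.mem_univ j)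
      _ ≤ ∑ i' : ι, ∑ j' : ι, (T (Matrix.single p q 1) i' j').natDegree :=
          Finset.single_le_sum
            (f := fun i' => ∑ j' : ι, (T (Matrix.single p q 1) i' j').natDegree)
            (fun _ _ => Nat.zero_le _) (Finset.mem_univ i)
      _ ≤ ∑ q' : ι, ∑ i' : ι, ∑ j' : ι, (T (Matrix.single p q' 1) i' j').natDegree :=
          Finset.single_le_sum
            (f := fun q' => ∑ i' : ι, ∑ j' : ι, (T (Matrix.single p q' 1) i' j').natDegree)
            (fun _ _ => Nat.zero_le _) (Finset.mem_univ q)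
      _ ≤ _ :=
          Finset.single_le_sum
            (f := fun p' => ∑ q' : ι, ∑ i' : ι, ∑ j' : ι,
              (T (Matrix.single p' q' 1) i' j').natDegree)
            (fun _ _ => Nat.zero_le _) (Finset.mem_univ p)
  refine ⟨Nat.find hex, Nat.find_spec hex, ?_⟩
  by_contra hcon
  push Not at hcon
  rcases Nat.eq_zero_or_pos (Nat.find hex) with h0 | h0
  · apply hT
    refine LinearMap.ext fun D => ?_
    ext1 i j
    have h1 := Nat.find_spec hex D i j
    rw [h0] at h1
    have h2 := hcon D i j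
    rw [h0] at h2
    rw [Polynomial.eq_C_of_natDegree_le_zero h1, h2, map_zero]
    rfl
  · refine Nat.find_min hex (m := Nat.find hex - 1) (by omega) fun D i j => ?_
    have h1 := Nat.find_spec hex D i j
    have h2 := hcon D i j
    by_contra h3
    have h4 : (T D i j).natDegree = Nat.find hex := by omega
    rw [← h4, Polynomial.coeff_natDegree, Polynomial.leadingCoeff_eq_zero] at h2
    rw [h2, Polynomial.natDegree_zero] at h4
    omega

end Top

section Poly

variable {L : Type*} [Field L] {a : ℕ} [NeZero a] (ψ : AddChar (ZMod a) L)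

theorem heis_poly [IsAlgClosed L] (hψ : ψ.IsPrimitive) (haL : (a : L) ≠ 0)
    (hψ1 : ∀ x, ψ x = 1 → x = 0)
    (T : Matrix (ZMod a) (ZMod a) L →ₗ[L] Matrix (ZMod a) (ZMod a) L[X][X])
    (hU : ∀ (n : ZMod a × ZMod a) (k l : ℕ),
      ψ (-(l : ZMod a)) • ((T (W ψ n)).map (fun p => (p.coeff l).coeff k) * W ψ (1, 0)) =
        ψ n.2 • (W ψ (1, 0) * (T (W ψ n)).map (fun p => (p.coeff l).coeff k)))
    (hV : ∀ (n : ZMod a × ZMod a) (k l : ℕ),
      ψ (k : ZMod a) • ((T (W ψ n)).map (fun p => (p.coeff l).coeff k) * W ψ (0, 1)) =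
        ψ (-n.1) • (W ψ (0, 1) * (T (W ψ n)).map (fun p => (p.coeff l).coeff k)))
    (N : ℕ) (hnil : ∀ x y : ZMod a → L, (T (Matrix.vecMulVec x y)) ^ N = 0) : T = 0 := by
  by_contra hT
  obtain ⟨l0, hl0, hl1⟩ := exists_top T hT
  let T1 : Matrix (ZMod a) (ZMod a) L →ₗ[L] Matrix (ZMod a) (ZMod a) L[X] :=
    (((Polynomial.lcoeff L[X] l0).restrictScalars L).mapMatrix).comp T
  have hT1 : ∀ D, T1 D = (T D).map (fun p => p.coeff l0) := fun D => rfl
  have hT10 : T1 ≠ 0 := by
    intro h0
    obtain ⟨D, i, j, h⟩ := hl1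
    apply h
    have h2 := congrFun (congrFun (LinearMap.congr_fun h0 D) i) j
    rw [hT1] at h2
    exact h2
  obtain ⟨k0, hk0, hk1⟩ := exists_top T1 hT10
  let S : Matrix (ZMod a) (ZMod a) L →ₗ[L] Matrix (ZMod a) (ZMod a) L :=
    ((Polynomial.lcoeff L k0).mapMatrix).comp T1
  have hS : ∀ D, S D = (T1 D).map (fun p => p.coeff k0) := fun D => rfl
  have hS2 : ∀ D, S D = (T D).map (fun p => (p.coeff l0).coeff k0) := fun D => rfl
  have hS0 : S ≠ 0 := by
    intro h0
    obtain ⟨D, i, j, h⟩ := hk1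
    apply h
    have h2 := congrFun (congrFun (LinearMap.congr_fun h0 D) i) j
    rw [hS] at h2
    exact h2
  apply hS0
  refine heis ψ hψ haL hψ1 S ((k0 : ZMod a), (l0 : ZMod a))
    (fun n => S (W ψ n) 0 (n + ((k0 : ZMod a), (l0 : ZMod a))).2) ?_ N ?_
  · intro n
    have hne : ∀ x, ψ x ≠ 0 := fun x => (AddChar.val_isUnit ψ x).ne_zero
    refine eig ψ hψ1 (S (W ψ n)) (n + ((k0 : ZMod a), (l0 : ZMod a))) ?_ ?_
    · have h1 := hU n k0 l0
      rw [← hS2] at h1
      have h2 : W ψ (1, 0) * S (W ψ n) = ψ (-n.2) • (ψ n.2 • (W ψ (1, 0) * S (W ψ n))) := by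
        rw [smul_smul, ← AddChar.map_add_eq_mul, neg_add_cancel, AddChar.map_zero_eq_one, one_smul]
      rw [h2, ← h1, smul_smul, ← AddChar.map_add_eq_mul]
      congr 2
      simp only [Prod.snd_add]
      ring
    · have h1 := hV n k0 l0
      rw [← hS2] at h1
      have h2 : W ψ (0, 1) * S (W ψ n) = ψ n.1 • (ψ (-n.1) • (W ψ (0, 1) * S (W ψ n))) := by
        rw [smul_smul, ← AddChar.map_add_eq_mul, add_neg_cancel, AddChar.map_zero_eq_one, one_smul]
      rw [h2, ← h1, smul_smul, ← AddChar.map_add_eq_mul]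
      congr 2
  · intro x y
    rw [hS, hT1]
    have h1 := (pow_top (T (Matrix.vecMulVec x y)) l0 (fun i j => hl0 _ i j) N).2
    rw [hnil] at h1
    have h2 := (pow_top (T1 (Matrix.vecMulVec x y)) k0 (fun i j => hk0 _ i j) N).2
    rw [hT1, ← h1] at h2
    rw [← h2]
    ext i j
    simp

end Poly

end Pool.Agent.H16NC
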