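import Mathlib
import Pool.Agent.H16NC.Cor

/-!
The corner block for off-diagonal blocks of rank one.
-/

set_option autoImplicit false

namespace Pool.Agent.H16NC

open Matrix Pool.Agent.TH82.NC Pool.Agent.H552R3.PC

section Reindex

variable {K : Type*} [Field K] {σ : Type*} {ι ι' κ : Type*} [Fintype ι] [DecidableEq ι]
  [Fintype ι'] [DecidableEq ι'] [Fintype κ] [DecidableEq κ]

theorem lift_sub (e : ι' ≃ ι) (Y : σ → Matrix ι ι K) (f : FreeAlgebra K σ) :
    FreeAlgebra.lift K (fun i => (Y i).submatrix e e) f =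
      (FreeAlgebra.lift K Y f).submatrix e e := by
  induction f using FreeAlgebra.induction with
  | grade0 r =>
    rw [AlgHom.commutes, AlgHom.commutes]
    ext p q
    rw [Matrix.submatrix_apply, algebraMap_matrix_apply, algebraMap_matrix_apply]
    simp only [e.injective.eq_iff]
  | grade1 y => simp only [FreeAlgebra.lift_ι_apply]
  | mul f g hf hg => rw [map_mul, map_mul, hf, hg, Matrix.submatrix_mul_equiv]
  | add f g hf hg => rw [map_add, map_add, hf, hg, Matrix.submatrix_add]; rfl

theorem up_sub_left (e : ι' ≃ ι) (A : σ → Matrix ι ι K) (A' : σ → Matrix κ κ K)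
    (b : σ → Matrix ι κ K) (f : FreeAlgebra K σ) :
    up (fun i => (A i).submatrix e e) A' (fun i => (b i).submatrix e id) f =
      (up A A' b f).submatrix e id := by
  induction f using FreeAlgebra.induction with
  | grade0 r => rw [up_algebraMap, up_algebraMap]; rfl
  | grade1 y => rw [up_ι, up_ι]
  | mul f g hf hg =>
    rw [up_mul, up_mul, hf, hg, lift_sub, Matrix.submatrix_mul_equiv, Matrix.submatrix_add]
    rfl
  | add f g hf hg => rw [up_add, up_add, hf, hg, Matrix.submatrix_add]; rfl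

theorem up_sub_right (e : ι' ≃ ι) (A : σ → Matrix κ κ K) (A' : σ → Matrix ι ι K)
    (b : σ → Matrix κ ι K) (f : FreeAlgebra K σ) :
    up A (fun i => (A' i).submatrix e e) (fun i => (b i).submatrix id e) f =
      (up A A' b f).submatrix id e := by
  induction f using FreeAlgebra.induction with
  | grade0 r => rw [up_algebraMap, up_algebraMap]; rfl
  | grade1 y => rw [up_ι, up_ι]
  | mul f g hf hg =>
    rw [up_mul, up_mul, hf, hg, lift_sub, Matrix.submatrix_mul_equiv, Matrix.submatrix_add]
    rfl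
  | add f g hf hg => rw [up_add, up_add, hf, hg, Matrix.submatrix_add]; rfl

theorem cr_sub (e : ι' ≃ ι) (Y : σ → Matrix ι ι K) (M : σ → Matrix κ κ K)
    (B : σ → Matrix ι κ K) (C : σ → Matrix κ ι K) (f : FreeAlgebra K σ) :
    cr (fun i => (Y i).submatrix e e) M (fun i => (B i).submatrix e id)
      (fun i => (C i).submatrix id e) f = (cr Y M B C f).submatrix e e := by
  induction f using FreeAlgebra.induction with
  | grade0 r => rw [cr, cr, crn_algebraMap, crn_algebraMap]; rfl
  | grade1 y => rw [cr, cr, crn_ι, crn_ι]; rfl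
  | mul f g hf hg =>
    rw [cr_mul, cr_mul, hf, hg, lift_sub, lift_sub, up_sub_left, up_sub_right,
      Matrix.submatrix_mul_equiv, Matrix.submatrix_mul_equiv, Matrix.submatrix_add,
      Matrix.submatrix_add]
    rfl
  | add f g hf hg => rw [cr_add, cr_add, hf, hg, Matrix.submatrix_add]; rfl

end Reindex

section T0

variable {K : Type*} [Field K] {σ : Type*} {ι κ : Type*} [Fintype ι] [DecidableEq ι] [Fintype κ]
  [DecidableEq κ]

/-- The corner block for off-diagonal blocks of rank one. -/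
noncomputable def T0 {R : Type*} [CommRing R] [Algebra K R] (M : σ → Matrix κ κ K)
    (ξ η : σ → κ → K) (f : FreeAlgebra K σ) (Y : σ → Matrix ι ι R) (x y : ι → R) :
    Matrix ι ι R :=
  cr Y (fun i => (M i).map (algebraMap K R))
    (fun i => Matrix.vecMulVec x (fun c => algebraMap K R (ξ i c)))
    (fun i => Matrix.vecMulVec (fun c => algebraMap K R (η i c)) y) f

variable {R R' : Type*} [CommRing R] [Algebra K R] [CommRing R'] [Algebra K R']
  (M : σ → Matrix κ κ K) (ξ η : σ → κ → K) (f : FreeAlgebra K σ)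

theorem T0_map (φ : R →ₐ[K] R') (Y : σ → Matrix ι ι R) (x y : ι → R) :
    (T0 M ξ η f Y x y).map φ = T0 M ξ η f (fun i => (Y i).map φ) (fun p => φ (x p))
      (fun p => φ (y p)) := by
  rw [T0, cr_map, T0]
  congr 1
  · funext i
    ext p q
    simp
  · funext i
    ext p q
    simp [Matrix.vecMulVec_apply]
  · funext i
    ext p q
    simp [Matrix.vecMulVec_apply]

theorem T0_lin (Y : σ → Matrix ι ι R) (x y : ι → R) :
    T0 M ξ η f Y x y = ∑ p, ∑ q, (x p * y q) • T0 M ξ η f Y (Pi.single p 1) (Pi.single q 1) := by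
  rw [T0]
  unfold T0
  rw [← cr_lin]
  congr 1
  · funext i
    ext p q
    rw [Matrix.sum_apply, Finset.sum_eq_single p]
    · simp [Matrix.vecMulVec_apply]
    · intro b _ hb
      rw [Matrix.smul_apply, Matrix.vecMulVec_apply, Pi.single_eq_of_ne (Ne.symm hb), zero_mul,
        smul_zero]
    · intro h; exact absurd (Finset.mem_univ _) h
  · funext i
    ext p q
    rw [Matrix.sum_apply, Finset.sum_eq_single q]
    · simp [Matrix.vecMulVec_apply, mul_comm]
    · intro b _ hb
      rw [Matrix.smul_apply, Matrix.vecMulVec_apply, Pi.single_eq_of_ne (Ne.symm hb), mul_zero,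
        smul_zero]
    · intro h; exact absurd (Finset.mem_univ _) h

theorem T0_conj (g g' : Matrix ι ι R) (hg : g' * g = 1) (hg' : g * g' = 1)
    (Y : σ → Matrix ι ι R) (x y : ι → R) :
    T0 M ξ η f (fun i => g * Y i * g') (Matrix.mulVec g x) (Matrix.vecMul y g') =
      g * T0 M ξ η f Y x y * g' := by
  rw [T0, T0, ← cr_conj _ _ _ _ g g' hg hg']
  congr 1
  · funext i
    rw [Matrix.mul_vecMulVec]
  · funext i
    rw [Matrix.vecMulVec_mul]

/-- Transfer of nilpotency to all commutative algebras. -/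
theorem T0_nil [Infinite K] (N : ℕ)
    (h : ∀ (Y : σ → Matrix ι ι K) (x y : ι → K), (T0 M ξ η f Y x y) ^ N = 0)
    (Y : σ → Matrix ι ι R) (x y : ι → R) : (T0 M ξ η f Y x y) ^ N = 0 := by
  let G := MvPolynomial (σ × ι × ι ⊕ ι ⊕ ι) K
  let Yg : σ → Matrix ι ι G := fun i => Matrix.of fun p q => MvPolynomial.X (Sum.inl (i, p, q))
  let xg : ι → G := fun p => MvPolynomial.X (Sum.inr (Sum.inl p))
  let yg : ι → G := fun p => MvPolynomial.X (Sum.inr (Sum.inr p))
  have hmap1 : ∀ (φ : G →ₐ[K] K),
      φ.mapMatrix ((T0 M ξ η f Yg xg yg) ^ N) =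
        (T0 M ξ η f (fun i => (Yg i).map φ) (fun p => φ (xg p)) (fun p => φ (yg p))) ^ N := by
    intro φ
    rw [map_pow, AlgHom.mapMatrix_apply, T0_map]
  have hmap : ∀ (φ : G →ₐ[K] R),
      φ.mapMatrix ((T0 M ξ η f Yg xg yg) ^ N) =
        (T0 M ξ η f (fun i => (Yg i).map φ) (fun p => φ (xg p)) (fun p => φ (yg p))) ^ N := by
    intro φ
    rw [map_pow, AlgHom.mapMatrix_apply, T0_map]
  have hG : (T0 M ξ η f Yg xg yg) ^ N = 0 := by
    ext1 p q
    apply MvPolynomial.funext
    intro v
    have e := congrFun (congrFun (hmap1 (MvPolynomial.aeval v : G →ₐ[K] K)) p) q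
    rw [h] at e
    rw [Matrix.zero_apply, map_zero]
    rw [AlgHom.mapMatrix_apply, Matrix.map_apply, MvPolynomial.aeval_eq_eval] at e
    exact e
  have e := hmap (MvPolynomial.aeval
    (Sum.elim (fun p => Y p.1 p.2.1 p.2.2) (Sum.elim x y)) : G →ₐ[K] R)
  rw [hG, map_zero] at e
  have e1 : (fun i => (Yg i).map (MvPolynomial.aeval
    (Sum.elim (fun p => Y p.1 p.2.1 p.2.2) (Sum.elim x y)) : G →ₐ[K] R)) = Y := by
    funext i
    ext p q
    simp [Yg]
  have e2 : (fun p => (MvPolynomial.aeval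
    (Sum.elim (fun p => Y p.1 p.2.1 p.2.2) (Sum.elim x y)) : G →ₐ[K] R) (xg p)) = x := by
    funext p
    simp [xg]
  have e3 : (fun p => (MvPolynomial.aeval
    (Sum.elim (fun p => Y p.1 p.2.1 p.2.2) (Sum.elim x y)) : G →ₐ[K] R) (yg p)) = y := by
    funext p
    simp [yg]
  rw [e1, e2, e3] at e
  exact e.symm

end T0

end Pool.Agent.H16NC
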