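import Mathlib
import Pool.Agent.H16NC.T0
import Pool.Agent.H16NC.HeisPoly

/-!
If the corner blocks for off-diagonal blocks of rank one are nilpotent then they are zero.
-/

set_option autoImplicit false

namespace Pool.Agent.H16NC

open Matrix Polynomial Pool.Agent.TH82.NC Pool.Agent.H552R3.PC

section Scale

variable {K L : Type*} [Field K] [Field L] [Algebra K L]

/-- Scaling of the outer variable. -/
noncomputable def scO (θ : L) : L[X][X] →ₐ[L] L[X][X] :=
  (Polynomial.aeval (C (C θ) * X : L[X][X]) : L[X][X] →ₐ[L[X]] L[X][X]).restrictScalars L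

/-- Scaling of the inner variable. -/
noncomputable def scI (θ : L) : L[X][X] →ₐ[L] L[X][X] :=
  Polynomial.mapAlgHom (Polynomial.aeval (C θ * X : L[X]) : L[X] →ₐ[L] L[X])

theorem scO_coeff (θ : L) (p : L[X][X]) (k l : ℕ) :
    ((scO θ p).coeff l).coeff k = θ ^ l * (p.coeff l).coeff k := by
  have h1 : scO θ p = p.comp (C (C θ) * X) := rfl
  rw [h1, Polynomial.comp_C_mul_X_coeff, ← C_pow, mul_comm, Polynomial.coeff_C_mul]

theorem scI_coeff (θ : L) (p : L[X][X]) (k l : ℕ) :
    ((scI θ p).coeff l).coeff k = θ ^ k * (p.coeff l).coeff k := by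
  have h1 : (scI θ p).coeff l = (p.coeff l).comp (C θ * X) := by
    rw [scI, Polynomial.coe_mapAlgHom, Polynomial.coeff_map]
    rfl
  rw [h1, Polynomial.comp_C_mul_X_coeff, mul_comm]

theorem scO_C (θ : L) (p : L[X]) : scO θ (C p) = C p := by
  have h1 : scO θ (C p) = (C p : L[X][X]).comp (C (C θ) * X) := rfl
  rw [h1, Polynomial.C_comp]

theorem scO_X (θ : L) : scO θ (X : L[X][X]) = C (C θ) * X := by
  have h1 : scO θ X = (X : L[X][X]).comp (C (C θ) * X) := rfl
  rw [h1, Polynomial.X_comp]

theorem scI_X (θ : L) : scI θ (X : L[X][X]) = X := by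
  rw [scI, Polynomial.coe_mapAlgHom, Polynomial.map_X]

theorem scI_C (θ : L) (p : L[X]) : scI θ (C p) = C (p.comp (C θ * X)) := by
  rw [scI, Polynomial.coe_mapAlgHom, Polynomial.map_C]
  rfl

variable {ι : Type*} [Fintype ι] [DecidableEq ι]

theorem cf_mul (M : Matrix ι ι L[X][X]) (g : Matrix ι ι L) (k l : ℕ) :
    (M * g.map (algebraMap L L[X][X])).map (fun p => (p.coeff l).coeff k) =
      M.map (fun p => (p.coeff l).coeff k) * g := by
  ext i j
  rw [Matrix.map_apply, mul_apply, mul_apply, Polynomial.finsetSum_coeff,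
    Polynomial.finsetSum_coeff]
  refine Finset.sum_congr rfl fun x _ => ?_
  rw [Matrix.map_apply, Matrix.map_apply]
  have h1 : algebraMap L L[X][X] (g x j) = C (C (g x j)) := rfl
  rw [h1, Polynomial.coeff_mul_C, Polynomial.coeff_mul_C]

theorem cf_mul' (M : Matrix ι ι L[X][X]) (g : Matrix ι ι L) (k l : ℕ) :
    (g.map (algebraMap L L[X][X]) * M).map (fun p => (p.coeff l).coeff k) =
      g * M.map (fun p => (p.coeff l).coeff k) := by
  ext i j
  rw [Matrix.map_apply, mul_apply, mul_apply, Polynomial.finsetSum_coeff,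
    Polynomial.finsetSum_coeff]
  refine Finset.sum_congr rfl fun x _ => ?_
  rw [Matrix.map_apply, Matrix.map_apply]
  have h1 : algebraMap L L[X][X] (g i x) = C (C (g i x)) := rfl
  rw [h1, Polynomial.coeff_C_mul, Polynomial.coeff_C_mul]

theorem cf_smul (M : Matrix ι ι L[X][X]) (θ : L) (k l : ℕ) :
    (θ • M).map (fun p => (p.coeff l).coeff k) =
      θ • M.map (fun p => (p.coeff l).coeff k) := by
  ext i j
  rw [Matrix.map_apply, Matrix.smul_apply, Matrix.smul_apply, Matrix.map_apply,
    Polynomial.coeff_smul, Polynomial.coeff_smul]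

end Scale

section Lin

variable {L : Type*} [Field L] {ι : Type*} [Fintype ι] [DecidableEq ι]

theorem lin_ext {V : Type*} [AddCommGroup V] [Module L V] (S S' : Matrix ι ι L →ₗ[L] V)
    (h : ∀ x y : ι → L, S (Matrix.vecMulVec x y) = S' (Matrix.vecMulVec x y)) : S = S' := by
  refine LinearMap.ext fun D => ?_
  conv_lhs => rw [Matrix.matrix_eq_sum_single D]
  conv_rhs => rw [Matrix.matrix_eq_sum_single D]
  simp only [map_sum]
  refine Finset.sum_congr rfl fun p _ => Finset.sum_congr rfl fun q _ => ?_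
  have h1 : Matrix.single p q (D p q) = Matrix.vecMulVec (Pi.single p (D p q)) (Pi.single q 1) := by
    ext i j
    rw [Matrix.vecMulVec_apply, Matrix.single_apply, Pi.single_apply, Pi.single_apply]
    by_cases h1 : p = i <;> by_cases h2 : q = j <;> simp [h1, h2, eq_comm]
  rw [h1, h]

end Lin

section TT

variable {K : Type*} [Field K] {σ : Type*} {ι κ : Type*} [Fintype ι] [DecidableEq ι] [Fintype κ]
  [DecidableEq κ] {L : Type*} [Field L] [Algebra K L] {R : Type*} [CommRing R] [Algebra K R]
  [Algebra L R] [IsScalarTower K L R]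
  (M : σ → Matrix κ κ K) (ξ η : σ → κ → K) (f : FreeAlgebra K σ)

/-- The linear operator. -/
noncomputable def TT (Y : σ → Matrix ι ι R) : Matrix ι ι L →ₗ[L] Matrix ι ι R where
  toFun D := ∑ p, ∑ q, D p q • T0 M ξ η f Y (Pi.single p 1) (Pi.single q 1)
  map_add' D D' := by
    simp only [Matrix.add_apply, add_smul, Finset.sum_add_distrib]
  map_smul' c D := by
    simp only [Matrix.smul_apply, smul_eq_mul, mul_smul, Finset.smul_sum, RingHom.id_apply]

theorem TT_apply (Y : σ → Matrix ι ι R) (D : Matrix ι ι L) :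
    TT M ξ η f Y D = ∑ p, ∑ q, D p q • T0 M ξ η f Y (Pi.single p 1) (Pi.single q 1) := rfl

theorem TT_vec (Y : σ → Matrix ι ι R) (x y : ι → L) : TT M ξ η f Y (Matrix.vecMulVec x y) =
    T0 M ξ η f Y (fun p => algebraMap L R (x p)) (fun p => algebraMap L R (y p)) := by
  rw [TT_apply, T0_lin]
  refine Finset.sum_congr rfl fun p _ => Finset.sum_congr rfl fun q _ => ?_
  rw [Matrix.vecMulVec_apply, ← map_mul, algebraMap_smul]

theorem TT_conj (g g' : Matrix ι ι L) (hg : g' * g = 1) (hg' : g * g' = 1)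
    (Y : σ → Matrix ι ι R) (D : Matrix ι ι L) :
    TT M ξ η f (fun i => g.map (algebraMap L R) * Y i * g'.map (algebraMap L R)) (g * D * g') =
      g.map (algebraMap L R) * TT M ξ η f Y D * g'.map (algebraMap L R) := by
  set G := g.map (algebraMap L R) with hG
  set G' := g'.map (algebraMap L R) with hG'
  have h1 : G' * G = 1 := by
    rw [hG, hG', ← Matrix.map_mul, hg, Matrix.map_one _ (map_zero _) (map_one _)]
  have h2 : G * G' = 1 := by
    rw [hG, hG', ← Matrix.map_mul, hg', Matrix.map_one _ (map_zero _) (map_one _)]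
  let S : Matrix ι ι L →ₗ[L] Matrix ι ι R := (TT M ξ η f (fun i => G * Y i * G')).comp
    ((LinearMap.mulRight L g').comp (LinearMap.mulLeft L g))
  let S' : Matrix ι ι L →ₗ[L] Matrix ι ι R :=
    ((LinearMap.mulRight L G').comp (LinearMap.mulLeft L G)).comp (TT M ξ η f Y)
  have hS : S = S' := by
    apply lin_ext
    intro x y
    change TT M ξ η f (fun i => G * Y i * G') (g * Matrix.vecMulVec x y * g') =
      G * TT M ξ η f Y (Matrix.vecMulVec x y) * G'
    rw [Matrix.mul_vecMulVec, Matrix.vecMulVec_mul, TT_vec, TT_vec,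
      ← T0_conj M ξ η f G G' h1 h2]
    congr 1
    · funext p
      simp only [Matrix.mulVec, dotProduct, map_sum, map_mul, hG, Matrix.map_apply]
    · funext p
      simp only [Matrix.vecMul, dotProduct, map_sum, map_mul, hG', Matrix.map_apply]
  exact LinearMap.congr_fun hS D

theorem TT_map (φ : R →ₐ[L] R) (Y : σ → Matrix ι ι R) (D : Matrix ι ι L) :
    (TT M ξ η f Y D).map φ = TT M ξ η f (fun i => (Y i).map φ) D := by
  rw [TT_apply, TT_apply]
  have h1 : ∀ p q, (T0 M ξ η f Y (Pi.single p 1) (Pi.single q 1)).map φ =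
      T0 M ξ η f (fun i => (Y i).map φ) (Pi.single p 1) (Pi.single q 1) := by
    intro p q
    have h2 := T0_map M ξ η f (φ.restrictScalars K) Y (Pi.single p 1) (Pi.single q 1)
    have h3 : ∀ p : ι, (fun p' => (φ.restrictScalars K) ((Pi.single p 1 : ι → R) p')) =
        Pi.single p 1 := by
      intro p
      funext p'
      rw [Pi.single_apply]
      split_ifs <;> simp
    rw [h3, h3] at h2
    exact h2
  ext i j
  rw [Matrix.map_apply, Matrix.sum_apply, Matrix.sum_apply, map_sum]
  refine Finset.sum_congr rfl fun p _ => ?_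
  rw [Matrix.sum_apply, Matrix.sum_apply, map_sum]
  refine Finset.sum_congr rfl fun q _ => ?_
  rw [Matrix.smul_apply, Matrix.smul_apply, map_smul, ← h1, Matrix.map_apply]

end TT

section Main

variable {K : Type*} [Field K] {σ : Type*} {κ : Type*} [Fintype κ] [DecidableEq κ]
  {a : ℕ} [NeZero a]

theorem exists_coeff {L : Type*} [Field L] (ψ : AddChar (ZMod a) L) (hψ : ψ.IsPrimitive)
    (haL : (a : L) ≠ 0) (D : Matrix (ZMod a) (ZMod a) L) :
    ∃ c : ZMod a × ZMod a → L, ∑ n, c n • W ψ n = D := by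
  have h0 : ∀ i j, Matrix.single i j (1 : L) ∈ Submodule.span L (Set.range (W ψ)) := by
    intro i j
    have h1 : Matrix.single i j (1 : L) =
        (a : L)⁻¹ • ∑ k : ZMod a, ψ (-(k * i)) • W ψ (k, j - i) := by
      rw [← unit_eq ψ hψ, smul_smul, inv_mul_cancel₀ haL, one_smul]
    rw [h1]
    exact Submodule.smul_mem _ _ (Submodule.sum_mem _ fun k _ => Submodule.smul_mem _ _
      (Submodule.subset_span ⟨_, rfl⟩))
  have h1 : D ∈ Submodule.span L (Set.range (W ψ)) := by
    rw [Matrix.matrix_eq_sum_single D]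
    refine Submodule.sum_mem _ fun i _ => Submodule.sum_mem _ fun j _ => ?_
    have h2 : Matrix.single i j (D i j) = D i j • Matrix.single i j (1 : L) := by
      rw [Matrix.smul_single, smul_eq_mul, mul_one]
    rw [h2]
    exact Submodule.smul_mem _ _ (h0 i j)
  exact (Submodule.mem_span_range_iff_exists_fun L).mp h1

/-- The graded matrices. -/
noncomputable def Yp {L : Type*} [Field L] (ψ : AddChar (ZMod a) L)
    (c : σ → ZMod a × ZMod a → L) (i : σ) : Matrix (ZMod a) (ZMod a) L[X][X] :=
  ∑ n, (C (C (c i n) * X ^ n.1.val) * X ^ n.2.val : L[X][X]) •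
    (W ψ n).map (algebraMap L L[X][X])

theorem Yp_conj {L : Type*} [Field L] (ψ : AddChar (ZMod a) L)
    (c : σ → ZMod a × ZMod a → L) (i : σ) (φ : L[X][X] →ₐ[L] L[X][X])
    (g g' : Matrix (ZMod a) (ZMod a) L) (χ : ZMod a × ZMod a → L)
    (h1 : ∀ n, φ (C (C (c i n) * X ^ n.1.val) * X ^ n.2.val : L[X][X]) =
      χ n • (C (C (c i n) * X ^ n.1.val) * X ^ n.2.val : L[X][X]))
    (h2 : ∀ n, g * W ψ n * g' = χ n • W ψ n) :
    (Yp ψ c i).map φ = g.map (algebraMap L L[X][X]) * Yp ψ c i * g'.map (algebraMap L L[X][X]) := by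
  have e1 : (Yp ψ c i).map φ = ∑ n, φ (C (C (c i n) * X ^ n.1.val) * X ^ n.2.val : L[X][X]) •
      (W ψ n).map (algebraMap L L[X][X]) := by
    refine Matrix.ext fun p q => ?_
    rw [Matrix.map_apply, Yp, Matrix.sum_apply, Matrix.sum_apply, map_sum]
    refine Finset.sum_congr rfl fun n _ => ?_
    rw [Matrix.smul_apply, Matrix.smul_apply, smul_eq_mul, smul_eq_mul, map_mul, Matrix.map_apply,
      AlgHom.commutes]
  rw [e1, Yp, Finset.mul_sum, Finset.sum_mul]
  refine Finset.sum_congr rfl fun n _ => ?_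
  rw [h1, Matrix.mul_smul, Matrix.smul_mul, ← Matrix.map_mul, ← Matrix.map_mul, h2]
  refine Matrix.ext fun p q => ?_
  have hm : algebraMap L L[X][X] (χ n * W ψ n p q) =
    algebraMap L L[X][X] (χ n) * algebraMap L L[X][X] (W ψ n p q) := map_mul _ _ _
  rw [Matrix.smul_apply, Matrix.smul_apply, Matrix.map_apply, Matrix.map_apply, Matrix.smul_apply,
    smul_eq_mul (χ n), hm, Algebra.smul_def, smul_eq_mul, smul_eq_mul]
  ring

theorem T0_zero_L [Infinite K] {L : Type*} [Field L] [IsAlgClosed L] [Algebra K L]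
    (ψ : AddChar (ZMod a) L) (hψ : ψ.IsPrimitive)
    (haL : (a : L) ≠ 0) (hψ1 : ∀ x, ψ x = 1 → x = 0)
    (M : σ → Matrix κ κ K) (ξ η : σ → κ → K) (f : FreeAlgebra K σ) (N : ℕ)
    (h : ∀ (Y : σ → Matrix (ZMod a) (ZMod a) K) (x y : ZMod a → K),
      (T0 M ξ η f Y x y) ^ N = 0) (Y : σ → Matrix (ZMod a) (ZMod a) L) (x y : ZMod a → L) :
    T0 M ξ η f Y x y = 0 := by
  choose c hc using fun i => exists_coeff ψ hψ haL (Y i)
  set T := TT (L := L) M ξ η f (Yp ψ c) with hT
  have hcomm : ∀ (φ : L[X][X] →ₐ[L] L[X][X]) (g g' : Matrix (ZMod a) (ZMod a) L)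
      (hg : g' * g = 1) (hg' : g * g' = 1) (χ χ' : ZMod a × ZMod a → L)
      (h1 : ∀ i n, φ (C (C (c i n) * X ^ n.1.val) * X ^ n.2.val : L[X][X]) =
        χ n • (C (C (c i n) * X ^ n.1.val) * X ^ n.2.val : L[X][X]))
      (h2 : ∀ n, g * W ψ n * g' = χ n • W ψ n) (h3 : ∀ n, g' * W ψ n * g = χ' n • W ψ n)
      (n : ZMod a × ZMod a),
      (T (W ψ n)).map φ * g.map (algebraMap L L[X][X]) =
        χ' n • (g.map (algebraMap L L[X][X]) * T (W ψ n)) := by
    intro φ g g' hg hg' χ χ' h1 h2 h3 n
    have e1 : (fun i => (Yp ψ c i).map φ) = fun i => g.map (algebraMap L L[X][X]) * Yp ψ c i *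
        g'.map (algebraMap L L[X][X]) := by
      funext i
      exact Yp_conj ψ c i φ g g' χ (h1 i) h2
    have e2 : W ψ n = g * (g' * W ψ n * g) * g' := by
      calc W ψ n = (g * g') * W ψ n * (g * g') := by rw [hg', Matrix.one_mul, Matrix.mul_one]
        _ = _ := by simp only [Matrix.mul_assoc]
    have e3 : (T (W ψ n)).map φ = g.map (algebraMap L L[X][X]) * T (g' * W ψ n * g) *
        g'.map (algebraMap L L[X][X]) := by
      rw [hT, TT_map, e1, ← TT_conj M ξ η f g g' hg hg', ← e2]
    have e4 : g'.map (algebraMap L L[X][X]) * g.map (algebraMap L L[X][X]) = 1 := by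
      rw [← Matrix.map_mul, hg, Matrix.map_one _ (map_zero _) (map_one _)]
    rw [e3, h3, map_smul, Matrix.mul_assoc, e4, Matrix.mul_one, Matrix.mul_smul]
  have hpow : ∀ (z : ZMod a) (k : ℕ), ψ z ^ k = ψ (k * z) := by
    intro z k
    rw [← AddChar.map_nsmul_eq_pow, nsmul_eq_mul]
  have hzero : T = 0 := by
    refine heis_poly ψ hψ haL hψ1 T ?_ ?_ N ?_
    · intro n k l
      have h1 := hcomm (scO (ψ (-1))) (W ψ (1, 0)) (W ψ (-1, 0))
        (by rw [W_mul]; simp; exact W_zero ψ) (by rw [W_mul]; simp; exact W_zero ψ)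
        (fun n => ψ (-n.2)) (fun n => ψ n.2)
        (by
          intro i n
          rw [map_mul, map_pow, scO_C, scO_X, mul_pow, ← C_pow, ← C_pow, hpow,
            ZMod.natCast_zmod_val, mul_neg_one, Algebra.smul_def]
          have : algebraMap L L[X][X] (ψ (-n.2)) = C (C (ψ (-n.2))) := rfl
          rw [this]
          ring)
        (by
          intro n
          rw [W_mul, Matrix.smul_mul, W_mul, smul_smul, ← AddChar.map_add_eq_mul]
          congr 2
          · simp
          · ext <;> simp)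
        (by
          intro n
          rw [W_mul, Matrix.smul_mul, W_mul, smul_smul, ← AddChar.map_add_eq_mul]
          congr 2
          · simp
          · ext <;> simp) n
      have h2 := congrArg (fun Q : Matrix (ZMod a) (ZMod a) L[X][X] =>
        Q.map (fun p => (p.coeff l).coeff k)) h1
      simp only [cf_mul, cf_smul, cf_mul'] at h2
      rw [← h2, ← Matrix.smul_mul]
      congr 1
      ext p q
      rw [Matrix.smul_apply, Matrix.map_apply, Matrix.map_apply, Matrix.map_apply, scO_coeff,
        smul_eq_mul, hpow, mul_neg_one]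
    · intro n k l
      have h1 := hcomm (scI (ψ 1)) (W ψ (0, 1)) (W ψ (0, -1))
        (by rw [W_mul]; simp; exact W_zero ψ) (by rw [W_mul]; simp; exact W_zero ψ)
        (fun n => ψ n.1) (fun n => ψ (-n.1))
        (by
          intro i n
          rw [map_mul, map_pow, scI_C, scI_X, Polynomial.mul_comp, Polynomial.C_comp,
            Polynomial.pow_comp, Polynomial.X_comp, mul_pow, ← C_pow, hpow,
            ZMod.natCast_zmod_val, mul_one, Algebra.smul_def]
          have : algebraMap L L[X][X] (ψ n.1) = C (C (ψ n.1)) := rfl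
          rw [this]
          simp only [map_mul]
          ring)
        (by
          intro n
          rw [W_mul, Matrix.smul_mul, W_mul, smul_smul, ← AddChar.map_add_eq_mul]
          congr 2
          · simp
          · ext <;> simp)
        (by
          intro n
          rw [W_mul, Matrix.smul_mul, W_mul, smul_smul, ← AddChar.map_add_eq_mul]
          congr 2
          · simp
          · ext <;> simp) n
      have h2 := congrArg (fun Q : Matrix (ZMod a) (ZMod a) L[X][X] =>
        Q.map (fun p => (p.coeff l).coeff k)) h1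
      simp only [cf_mul, cf_smul, cf_mul'] at h2
      rw [← h2, ← Matrix.smul_mul]
      congr 1
      ext p q
      rw [Matrix.smul_apply, Matrix.map_apply, Matrix.map_apply, Matrix.map_apply, scI_coeff,
        smul_eq_mul, hpow, mul_one]
    · intro x y
      rw [hT, TT_vec]
      exact T0_nil M ξ η f N h _ _ _
  have h1 : T0 M ξ η f (Yp ψ c) (fun p => algebraMap L L[X][X] (x p))
      (fun p => algebraMap L L[X][X] (y p)) = 0 := by
    rw [← TT_vec, ← hT, hzero, LinearMap.zero_apply]
  let φ1 : L[X][X] →ₐ[L] L := (Polynomial.aeval (1 : L) : L[X] →ₐ[L] L).comp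
    ((Polynomial.aeval (1 : L[X]) : L[X][X] →ₐ[L[X]] L[X]).restrictScalars L)
  have h2 := T0_map M ξ η f (φ1.restrictScalars K) (Yp ψ c)
    (fun p => algebraMap L L[X][X] (x p)) (fun p => algebraMap L L[X][X] (y p))
  rw [h1, Matrix.map_zero _ (map_zero _)] at h2
  have h3 : (fun i => (Yp ψ c i).map (φ1.restrictScalars K)) = Y := by
    funext i
    rw [← hc i]
    refine Matrix.ext fun p q => ?_
    rw [Matrix.map_apply, Yp, Matrix.sum_apply, Matrix.sum_apply, map_sum]
    refine Finset.sum_congr rfl fun n _ => ?_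
    rw [Matrix.smul_apply, Matrix.smul_apply, smul_eq_mul, smul_eq_mul, map_mul, Matrix.map_apply]
    congr 1
    · simp [φ1]
    · change φ1 (algebraMap L L[X][X] (W ψ n p q)) = W ψ n p q
      rw [AlgHom.commutes]
      rfl
  have h4 : ∀ z : ZMod a → L, (fun p => (φ1.restrictScalars K) (algebraMap L L[X][X] (z p))) =
      z := by
    intro z
    funext p
    change φ1 (algebraMap L L[X][X] (z p)) = z p
    rw [AlgHom.commutes]
    rfl
  rw [h3, h4, h4] at h2
  exact h2.symm

end Main

end Pool.Agent.H16NC
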