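import Mathlib
import Pool.Agent.H16NC.Tz
import Pool.Agent.H16NC.Str3

/-!
Vanishing of the corner block, and of `f` at the block triangular matrices with diagonal blocks
`Y, M, Y`.
-/

set_option autoImplicit false

namespace Pool.Agent.H16NC

open Matrix Pool.Agent.R176.NC Pool.Agent.TH82.NC
open Pool.Agent.Results.MP_5d2531_al.BlockTriangular (IsNuCentral coef)

variable {K : Type*} [Field K] {σ : Type*}

theorem exists_char {L : Type*} [Field L] [IsAlgClosed L] {a : ℕ} [NeZero a] (haL : (a : L) ≠ 0) :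
    ∃ ψ : AddChar (ZMod a) L, ψ.IsPrimitive ∧ ∀ x, ψ x = 1 → x = 0 := by
  have : NeZero (a : L) := ⟨haL⟩
  obtain ⟨ζ, hζ⟩ := IsAlgClosed.exists_root (Polynomial.cyclotomic a L)
    (Polynomial.degree_cyclotomic_pos a L (Nat.pos_of_ne_zero (NeZero.ne a))).ne'
  rw [Polynomial.isRoot_cyclotomic_iff] at hζ
  have h1 : ∀ x, AddChar.zmodChar a ((IsPrimitiveRoot.iff_def ζ a).mp hζ).left x = 1 → x = 0 := by
    intro x hx
    rw [AddChar.zmodChar_apply, ← pow_zero ζ] at hx
    exact (ZMod.val_eq_zero x).mp (IsPrimitiveRoot.pow_inj hζ (ZMod.val_lt x) (NeZero.pos _) hx)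
  exact ⟨_, AddChar.zmodChar_primitive_of_primitive_root a hζ, h1⟩

theorem T0_zero [Infinite K] {κ : Type*} [Fintype κ] [DecidableEq κ] {a : ℕ} [NeZero a]
    (haK : (a : K) ≠ 0)
    (M : σ → Matrix κ κ K) (ξ η : σ → κ → K) (f : FreeAlgebra K σ) (N : ℕ)
    (h : ∀ (Y : σ → Matrix (ZMod a) (ZMod a) K) (x y : ZMod a → K),
      (T0 M ξ η f Y x y) ^ N = 0) (Y : σ → Matrix (ZMod a) (ZMod a) K) (x y : ZMod a → K) :
    T0 M ξ η f Y x y = 0 := by
  have haL : (a : AlgebraicClosure K) ≠ 0 := by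
    intro h0
    apply haK
    apply (algebraMap K (AlgebraicClosure K)).injective
    rw [map_natCast, h0, map_zero]
  obtain ⟨ψ, hψ, hψ1⟩ := exists_char haL
  have h1 := T0_zero_L ψ hψ haL hψ1 M ξ η f N h
    (fun i => (Y i).map (Algebra.ofId K (AlgebraicClosure K)))
    (fun p => Algebra.ofId K (AlgebraicClosure K) (x p))
    (fun p => Algebra.ofId K (AlgebraicClosure K) (y p))
  rw [← T0_map] at h1
  refine Matrix.ext fun p q => ?_
  have h2 := congrFun (congrFun h1 p) q
  rw [Matrix.map_apply, Matrix.zero_apply] at h2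
  rw [Matrix.zero_apply]
  exact (algebraMap K (AlgebraicClosure K)).injective (h2.trans (map_zero _).symm)

theorem cr_zero_aux [Infinite K] {κ : Type*} [Fintype κ] [DecidableEq κ] {a : ℕ} [NeZero a]
    (M : σ → Matrix κ κ K) (f : FreeAlgebra K σ)
    (h : ∀ (ξ η : σ → κ → K) (Y : σ → Matrix (ZMod a) (ZMod a) K) (x y : ZMod a → K),
      T0 M ξ η f Y x y = 0) (Y : σ → Matrix (ZMod a) (ZMod a) K)
    (B : σ → Matrix (ZMod a) κ K) (C : σ → Matrix κ (ZMod a) K) : cr Y M B C f = 0 := by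
  have hB : B = fun i => ∑ p : ZMod a, (1 : K) • Matrix.vecMulVec (Pi.single p 1) (B i p) := by
    funext i
    refine Matrix.ext fun p c => ?_
    rw [Matrix.sum_apply, Finset.sum_eq_single p]
    · simp [Matrix.vecMulVec_apply]
    · intro b _ hb
      rw [Matrix.smul_apply, Matrix.vecMulVec_apply, Pi.single_eq_of_ne (Ne.symm hb), zero_mul,
        smul_zero]
    · intro h; exact absurd (Finset.mem_univ _) h
  have hC : C = fun i => ∑ q : ZMod a, (1 : K) •
      Matrix.vecMulVec (fun c => C i c q) (Pi.single q 1) := by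
    funext i
    refine Matrix.ext fun c q => ?_
    rw [Matrix.sum_apply, Finset.sum_eq_single q]
    · simp [Matrix.vecMulVec_apply]
    · intro b _ hb
      rw [Matrix.smul_apply, Matrix.vecMulVec_apply, Pi.single_eq_of_ne (Ne.symm hb), mul_zero,
        smul_zero]
    · intro h; exact absurd (Finset.mem_univ _) h
  rw [hB, hC, cr_lin Y M Finset.univ Finset.univ (fun _ => (1 : K)) (fun _ => (1 : K))
    (fun p i => Matrix.vecMulVec (Pi.single p 1) (B i p))
    (fun q i => Matrix.vecMulVec (fun c => C i c q) (Pi.single q 1)) f]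
  refine Finset.sum_eq_zero fun p _ => Finset.sum_eq_zero fun q _ => ?_
  have h1 := h (fun i => B i p) (fun i c => C i c q) Y (Pi.single p 1) (Pi.single q 1)
  have h2 : T0 M (fun i => B i p) (fun i c => C i c q) f Y (Pi.single p 1) (Pi.single q 1) =
      cr Y M (fun i => Matrix.vecMulVec (Pi.single p 1) (B i p))
        (fun i => Matrix.vecMulVec (fun c => C i c q) (Pi.single q 1)) f := by
    unfold T0
    congr 1
  rw [← h2, h1, smul_zero]

theorem cr_zero [Infinite K] {κ : Type*} [Fintype κ] [DecidableEq κ] {a : ℕ} (ha : 0 < a)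
    (haK : (a : K) ≠ 0) (M : σ → Matrix κ κ K) (f : FreeAlgebra K σ) (N : ℕ)
    (h : ∀ (Y : σ → Matrix (Fin a) (Fin a) K) (B : σ → Matrix (Fin a) κ K)
      (C : σ → Matrix κ (Fin a) K), (cr Y M B C f) ^ N = 0)
    (Y : σ → Matrix (Fin a) (Fin a) K) (B : σ → Matrix (Fin a) κ K)
    (C : σ → Matrix κ (Fin a) K) : cr Y M B C f = 0 := by
  have : NeZero a := ⟨ha.ne'⟩
  set e : Fin a ≃ ZMod a := (ZMod.finEquiv a).toEquiv with he
  have h1 : ∀ (Y : σ → Matrix (ZMod a) (ZMod a) K) (B : σ → Matrix (ZMod a) κ K)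
      (C : σ → Matrix κ (ZMod a) K), (cr Y M B C f) ^ N = 0 := by
    intro Y B C
    have h2 := h (fun i => (Y i).submatrix e e) (fun i => (B i).submatrix e id)
      (fun i => (C i).submatrix id e)
    rw [cr_sub] at h2
    have h3 : (cr Y M B C f).submatrix e e = Matrix.reindexAlgEquiv K K e.symm (cr Y M B C f) := by
      rw [Matrix.coe_reindexAlgEquiv, Matrix.reindex_apply, Equiv.symm_symm]
    rw [h3, ← map_pow] at h2
    exact (map_eq_zero_iff _ (Matrix.reindexAlgEquiv K K e.symm).injective).mp h2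
  have h2 := cr_zero_aux M f (fun ξ η Y x y => T0_zero haK M ξ η f N
    (fun Y x y => h1 _ _ _) Y x y)
    (fun i => (Y i).submatrix e.symm e.symm) (fun i => (B i).submatrix e.symm id)
    (fun i => (C i).submatrix id e.symm)
  rw [cr_sub] at h2
  have h3 : (cr Y M B C f).submatrix e.symm e.symm =
      Matrix.reindexAlgEquiv K K e (cr Y M B C f) := by
    rw [Matrix.coe_reindexAlgEquiv, Matrix.reindex_apply]
  rw [h3] at h2
  exact (map_eq_zero_iff _ (Matrix.reindexAlgEquiv K K e).injective).mp h2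

end Pool.Agent.H16NC
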