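import Mathlib
import Pool.Agent.H16NC.Fin1

/-!
Vanishing of `f` at the block triangular matrices with diagonal blocks `Y, M, Y`.
-/

set_option autoImplicit false

namespace Pool.Agent.H16NC

open Matrix Pool.Agent.R176.NC Pool.Agent.TH82.NC
open Pool.Agent.Results.MP_5d2531_al.BlockTriangular (IsNuCentral coef)

variable {K : Type*} [Field K] {σ : Type*}

theorem van_blocks {n s t : ℕ} (hst : s + t = n) (f : FreeAlgebra K σ) (hV : Van f n s)
    (A : σ → Matrix (Fin s) (Fin s) K) (A' : σ → Matrix (Fin t) (Fin t) K)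
    (B : σ → Matrix (Fin s) (Fin t) K) :
    FreeAlgebra.lift K (fun i => fromBlocks (A i) (B i) 0 (A' i)) f = 0 := by
  subst hst
  have h1 := hV (fun i => (fromBlocks (A i) (B i) 0 (A' i)).submatrix finSumFinEquiv.symm
    finSumFinEquiv.symm) (by
      intro i k l hl hk
      induction k using Fin.addCases with
      | left k =>
        rw [Fin.val_castAdd] at hk
        have := k.2
        omega
      | right k =>
        induction l using Fin.addCases with
        | left l => simp
        | right l =>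
          rw [Fin.val_natAdd] at hl
          omega)
  rw [lift_sub] at h1
  refine Matrix.ext fun p q => ?_
  have h2 := congrFun (congrFun h1 (finSumFinEquiv p)) (finSumFinEquiv q)
  rw [Matrix.submatrix_apply, Equiv.symm_apply_apply, Equiv.symm_apply_apply] at h2
  exact h2

theorem van_small [Infinite K] {n : ℕ} (hn : n.Prime) (hn2 : n ≠ 2) (hnK : (n : K) ≠ 0)
    (f : FreeAlgebra K σ) (hcen : IsNuCentral n n f) (a : ℕ) (ha : 0 < a) (han : a < n)
    (Y : σ → Matrix (Fin a) (Fin a) K) : FreeAlgebra.lift K Y f = 0 := by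
  rcases van_or hn hn2 hnK f hcen a ha han with h | h
  · have h1 := van_blocks (t := n - a) (by omega) f h Y (fun _ => 0) (fun _ => 0)
    rw [lift_up] at h1
    have h2 := congrArg Matrix.toBlocks₁₁ h1
    rw [toBlocks_fromBlocks₁₁] at h2
    exact h2
  · have h1 := van_blocks (t := a) (by omega) f h (fun _ => 0) Y (fun _ => 0)
    rw [lift_up] at h1
    have h2 := congrArg Matrix.toBlocks₂₂ h1
    rw [toBlocks_fromBlocks₂₂] at h2
    exact h2

/-- The derivative vanishes if `f` vanishes. -/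
theorem up_same [Infinite K] {a : ℕ} (f : FreeAlgebra K σ)
    (h : ∀ Y : σ → Matrix (Fin a) (Fin a) K, FreeAlgebra.lift K Y f = 0)
    (Y E : σ → Matrix (Fin a) (Fin a) K) : up Y Y E f = 0 := by
  have hF : FreeAlgebra.lift K (line Y E) f = 0 := by
    refine Matrix.ext fun p q => ?_
    apply Polynomial.funext
    intro t
    have h1 := congrFun (congrFun (eval_line Y E f t) p) q
    rw [h, Matrix.map_apply] at h1
    rw [h1]
    simp
  rw [up, dual, hF, Matrix.toBlocks_fromBlocks₁₂]
  refine Matrix.ext fun p q => ?_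
  simp

/-- Vanishing at the rotated matrices. -/
theorem van_rot {a m : ℕ} (f : FreeAlgebra K σ) (P : ℕ → Prop)
    (hper : ∀ q, P (q + (a + m)) ↔ P q) (hPa : P a)
    (hmin : ∀ q, 0 < q → q < a → ¬ P q)
    (hsink : ∀ p, P p → ∃ s, 0 < s ∧ s < a + m ∧ P (p + s) ∧ Van f (a + m) s)
    (Y : σ → Matrix (Fin a) (Fin a) K)
    (M : σ → Matrix (Fin m) (Fin m) K)
    (hM : ∀ i (k l : Fin m) q, P (a + q) → (l : ℕ) < q → q ≤ (k : ℕ) → M i k l = 0)
    (C : σ → Matrix (Fin m) (Fin a) K) :
    FreeAlgebra.lift K (fun i => fromBlocks (M i) (C i) 0 (Y i)) f = 0 := by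
  obtain ⟨s, hs0, hsn, hs, hV⟩ := hsink a hPa
  have h1 := hV (fun i => (fromBlocks (M i) (C i) 0 (Y i)).submatrix
    (finSumFinEquiv.trans (finCongr (add_comm m a))).symm
    (finSumFinEquiv.trans (finCongr (add_comm m a))).symm) (by
      intro i k l hl hk
      obtain ⟨k', rfl⟩ := (finSumFinEquiv.trans (finCongr (add_comm m a))).surjective k
      obtain ⟨l', rfl⟩ := (finSumFinEquiv.trans (finCongr (add_comm m a))).surjective l
      rw [Matrix.submatrix_apply, Equiv.symm_apply_apply, Equiv.symm_apply_apply]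
      rcases k' with k' | k' <;> rcases l' with l' | l'
      · simp at hl hk
        rw [fromBlocks_apply₁₁]
        exact hM i k' l' s hs hl hk
      · simp at hl hk
        have := k'.2
        omega
      · rfl
      · simp at hl hk
        exfalso
        have hk2 := k'.2
        refine hmin (s - m) (by omega) (by omega) ?_
        rw [← hper]
        have : s - m + (a + m) = a + s := by omega
        rw [this]
        exact hs)
  rw [lift_sub] at h1
  refine Matrix.ext fun p q => ?_
  have h2 := congrFun (congrFun h1 ((finSumFinEquiv.trans (finCongr (add_comm m a))) p))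
    ((finSumFinEquiv.trans (finCongr (add_comm m a))) q)
  rw [Matrix.submatrix_apply, Equiv.symm_apply_apply, Equiv.symm_apply_apply] at h2
  exact h2

theorem van_base {a m : ℕ} (f : FreeAlgebra K σ) (P : ℕ → Prop)
    (hP0 : P 0)
    (hmin : ∀ q, 0 < q → q < a → ¬ P q)
    (hsink : ∀ p, P p → ∃ s, 0 < s ∧ s < a + m ∧ P (p + s) ∧ Van f (a + m) s)
    (Y : σ → Matrix (Fin a) (Fin a) K)
    (M : σ → Matrix (Fin m) (Fin m) K)
    (hM : ∀ i (k l : Fin m) q, P (a + q) → (l : ℕ) < q → q ≤ (k : ℕ) → M i k l = 0)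
    (B : σ → Matrix (Fin a) (Fin m) K) :
    FreeAlgebra.lift K (fun i => fromBlocks (Y i) (B i) 0 (M i)) f = 0 := by
  obtain ⟨s, hs0, hsn, hs, hV⟩ := hsink 0 hP0
  rw [zero_add] at hs
  have h1 := hV (fun i => (fromBlocks (Y i) (B i) 0 (M i)).submatrix
    finSumFinEquiv.symm finSumFinEquiv.symm) (by
      intro i k l hl hk
      induction k using Fin.addCases with
      | left k =>
        rw [Fin.val_castAdd] at hk
        exact absurd hs (hmin s hs0 (by omega))
      | right k =>
        rw [Fin.val_natAdd] at hk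
        induction l using Fin.addCases with
        | left l => simp
        | right l =>
          rw [Fin.val_natAdd] at hl
          have h1 := hM i k l (s - a) (by rw [Nat.add_sub_cancel' (by omega)]; exact hs)
            (by omega) (by omega)
          simpa using h1)
  rw [lift_sub] at h1
  refine Matrix.ext fun p q => ?_
  have h2 := congrFun (congrFun h1 (finSumFinEquiv p)) (finSumFinEquiv q)
  rw [Matrix.submatrix_apply, Equiv.symm_apply_apply, Equiv.symm_apply_apply] at h2
  exact h2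

/-- The assembly. -/
theorem full_zero [Infinite K] {a m : ℕ} (hn : (a + m).Prime) (hn2 : a + m ≠ 2)
    (hnK : ((a + m : ℕ) : K) ≠ 0)
    (f : FreeAlgebra K σ) (hcen : IsNuCentral (a + m) (a + m) f) (P : ℕ → Prop)
    (hper : ∀ q, P (q + (a + m)) ↔ P q) (hP0 : P 0) (hPa : P a) (ha : 0 < a) (hm : 0 < m)
    (hmin : ∀ q, 0 < q → q < a → ¬ P q)
    (hsink : ∀ p, P p → ∃ s, 0 < s ∧ s < a + m ∧ P (p + s) ∧ Van f (a + m) s)
    (Y : σ → Matrix (Fin a) (Fin a) K)
    (M : σ → Matrix (Fin m) (Fin m) K)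
    (hM : ∀ i (k l : Fin m) q, P (a + q) → (l : ℕ) < q → q ≤ (k : ℕ) → M i k l = 0)
    (B : σ → Matrix (Fin a) (Fin m) K) (C : σ → Matrix (Fin m) (Fin a) K)
    (E : σ → Matrix (Fin a) (Fin a) K) (hcr : cr Y M B C f = 0) :
    FreeAlgebra.lift K (fun i => fromBlocks (Y i) (Matrix.fromCols (B i) (E i)) 0
      (fromBlocks (M i) (C i) 0 (Y i))) f = 0 := by
  have h1 := van_base f P hP0 hmin hsink Y M hM B
  rw [lift_up] at h1
  have h2 := congrArg Matrix.toBlocks₁₂ h1
  rw [toBlocks_fromBlocks₁₂] at h2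
  have h3 := congrArg Matrix.toBlocks₁₁ h1
  rw [toBlocks_fromBlocks₁₁] at h3
  rw [lift_up, up_eq, van_rot f P hper hPa hmin hsink Y M hM C, crn_E, h2, h3]
  have h4 : crn Y M B C (fun _ => 0) f = 0 := hcr
  rw [h4, up_same f (fun Y => van_small hn hn2 hnK f hcen a ha (by omega) Y), add_zero]
  have h5 : (Matrix.fromCols (toBlocks₁₂ (0 : Matrix (Fin a ⊕ Fin m) (Fin a ⊕ Fin m) K))
      (0 : Matrix (Fin a) (Fin a) K)) = 0 := by
    refine Matrix.ext fun p q => ?_
    rcases q with q | q <;> rfl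
  rw [h5]
  have h6 : toBlocks₁₁ (0 : Matrix (Fin a ⊕ Fin m) (Fin a ⊕ Fin m) K) = 0 := rfl
  rw [h6, fromBlocks_zero]

/-- The final form: matrices of size `n + a`. -/
theorem window_zero [Infinite K] {n a : ℕ} (hn : n.Prime) (hn2 : n ≠ 2) (hnK : (n : K) ≠ 0)
    (f : FreeAlgebra K σ) (hcen : IsNuCentral n n f) (P : ℕ → Prop)
    (hper : ∀ q, P (q + n) ↔ P q) (hP0 : P 0) (hPa : P a) (ha : 0 < a) (han : a < n)
    (hmin : ∀ q, 0 < q → q < a → ¬ P q)
    (hsink : ∀ p, P p → ∃ s, 0 < s ∧ s < n ∧ P (p + s) ∧ Van f n s)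
    (hcr : ∀ (m : ℕ) (_ : a + m = n) (Y : σ → Matrix (Fin a) (Fin a) K)
      (M : σ → Matrix (Fin m) (Fin m) K)
      (_ : ∀ i (k l : Fin m) q, P (a + q) → (l : ℕ) < q → q ≤ (k : ℕ) → M i k l = 0)
      (B : σ → Matrix (Fin a) (Fin m) K) (C : σ → Matrix (Fin m) (Fin a) K), cr Y M B C f = 0)
    (X : σ → Matrix (Fin (n + a)) (Fin (n + a)) K)
    (hX : ∀ i (k l : Fin (n + a)) q, P q → (l : ℕ) < q → q ≤ (k : ℕ) → X i k l = 0)
    (hXY : ∀ i (k l : Fin a), X i (Fin.natAdd n k) (Fin.natAdd n l) =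
      X i (Fin.castLE (by omega) k) (Fin.castLE (by omega) l)) :
    FreeAlgebra.lift K X f = 0 := by
  obtain ⟨m, rfl⟩ : ∃ m, n = a + m := ⟨n - a, by omega⟩
  let e : Fin a ⊕ (Fin m ⊕ Fin a) ≃ Fin (a + m + a) :=
    (Equiv.sumAssoc _ _ _).symm.trans ((Equiv.sumCongr finSumFinEquiv (Equiv.refl _)).trans
      finSumFinEquiv)
  have e1 : ∀ p : Fin a, e (Sum.inl p) = Fin.castAdd a (Fin.castAdd m p) := fun p => rfl
  have e2 : ∀ p : Fin m, e (Sum.inr (Sum.inl p)) = Fin.castAdd a (Fin.natAdd a p) := fun p => rfl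
  have e3 : ∀ p : Fin a, e (Sum.inr (Sum.inr p)) = Fin.natAdd (a + m) p := fun p => rfl
  have hPn : P (a + m) := by
    have := (hper 0).mpr hP0
    rwa [zero_add] at this
  set Y : σ → Matrix (Fin a) (Fin a) K := fun i => Matrix.of fun p q =>
    X i (e (Sum.inl p)) (e (Sum.inl q)) with hY
  set M : σ → Matrix (Fin m) (Fin m) K := fun i => Matrix.of fun p q =>
    X i (e (Sum.inr (Sum.inl p))) (e (Sum.inr (Sum.inl q))) with hMd
  set B : σ → Matrix (Fin a) (Fin m) K := fun i => Matrix.of fun p q =>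
    X i (e (Sum.inl p)) (e (Sum.inr (Sum.inl q))) with hB
  set C : σ → Matrix (Fin m) (Fin a) K := fun i => Matrix.of fun p q =>
    X i (e (Sum.inr (Sum.inl p))) (e (Sum.inr (Sum.inr q))) with hC
  set E : σ → Matrix (Fin a) (Fin a) K := fun i => Matrix.of fun p q =>
    X i (e (Sum.inl p)) (e (Sum.inr (Sum.inr q))) with hE
  have hM : ∀ i (k l : Fin m) q, P (a + q) → (l : ℕ) < q → q ≤ (k : ℕ) → M i k l = 0 := by
    intro i k l q hq hl hk
    rw [hMd]
    simp only [Matrix.of_apply, e2]
    refine hX i _ _ (a + q) hq ?_ ?_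
    · simp only [Fin.val_castAdd, Fin.val_natAdd]
      omega
    · simp only [Fin.val_castAdd, Fin.val_natAdd]
      omega
  have h1 := full_zero hn hn2 hnK f hcen P hper hP0 hPa ha (by omega) hmin hsink Y M hM B C E
    (hcr m rfl Y M hM B C)
  have h2 : (fun i => fromBlocks (Y i) (Matrix.fromCols (B i) (E i)) 0
      (fromBlocks (M i) (C i) 0 (Y i))) = fun i => (X i).submatrix e e := by
    funext i
    refine Matrix.ext fun p q => ?_
    rcases p with p | p | p <;> rcases q with q | q | q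
    · rfl
    · rfl
    · rfl
    · rw [Matrix.submatrix_apply, e1, e2]
      symm
      refine (hX i _ _ a hPa ?_ ?_).trans ?_
      · simp only [Fin.val_castAdd, Fin.is_lt]
      · simp only [Fin.val_castAdd, Fin.val_natAdd]
        omega
      · rfl
    · rfl
    · rfl
    · rw [Matrix.submatrix_apply, e1, e3]
      symm
      refine (hX i _ _ (a + m) hPn ?_ ?_).trans ?_
      · simp only [Fin.val_castAdd]
        omega
      · simp only [Fin.val_natAdd]
        omega
      · rfl
    · rw [Matrix.submatrix_apply, e2, e3]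
      symm
      refine (hX i _ _ (a + m) hPn ?_ ?_).trans ?_
      · simp only [Fin.val_castAdd, Fin.val_natAdd]
        omega
      · simp only [Fin.val_natAdd]
        omega
      · rfl
    · rw [Matrix.submatrix_apply, e3, e3]
      exact (hXY i p q).symm
  rw [h2, lift_sub] at h1
  refine Matrix.ext fun p q => ?_
  have h3 := congrFun (congrFun h1 (e.symm p)) (e.symm q)
  rw [Matrix.submatrix_apply, Equiv.apply_symm_apply, Equiv.apply_symm_apply] at h3
  exact h3

end Pool.Agent.H16NC
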