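import Mathlib
import Pool.Agent.H16NC.Fin2

/-!
The explicit case: one block of size `a`, all other blocks of size one.
-/

set_option autoImplicit false

namespace Pool.Agent.H16NC

open Matrix Pool.Agent.R176.NC Pool.Agent.TH82.NC
open Pool.Agent.Results.MP_5d2531_al.BlockTriangular (IsNuCentral coef)

variable {K : Type*} [Field K] {σ : Type*}

/-- The boundaries: the multiples of `n` and all places with residue at least `a`. -/
def PP (n a : ℕ) (q : ℕ) : Prop := q % n = 0 ∨ a ≤ q % n

theorem PP_per (n a q : ℕ) : PP n a (q + n) ↔ PP n a q := by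
  unfold PP
  rw [Nat.add_mod_right]

theorem PP_zero (n a : ℕ) : PP n a 0 := Or.inl (Nat.zero_mod n)

theorem PP_sink [Infinite K] {n : ℕ} (hn : n.Prime) (hn2 : n ≠ 2) (hnK : (n : K) ≠ 0)
    (f : FreeAlgebra K σ) (hcen : IsNuCentral n n f) (a : ℕ) (ha : 0 < a) (han : 2 * a < n)
    (p : ℕ) (hp : PP n a p) : ∃ s, 0 < s ∧ s < n ∧ PP n a (p + s) ∧ Van f n s := by
  have hn0 : 0 < n := hn.pos
  have hn1 : 1 < n := hn.one_lt
  have key : ∀ s, (p + s) % n = (p % n + s) % n := by
    intro s
    exact (Nat.mod_add_mod p n s).symm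
  have hr : p % n < n := Nat.mod_lt _ hn0
  unfold PP at hp ⊢
  simp only [key]
  set r := p % n with hrd
  rcases hp with h | h
  · rw [h]
    simp only [zero_add]
    rcases van_or hn hn2 hnK f hcen a ha (by omega) with hV | hV
    · exact ⟨a, ha, by omega, by rw [Nat.mod_eq_of_lt (by omega)]; right; exact le_rfl, hV⟩
    · exact ⟨n - a, by omega, by omega, by rw [Nat.mod_eq_of_lt (by omega)]; right; omega, hV⟩
  · rcases eq_or_lt_of_le h with h1 | h1
    · rw [← h1]
      rcases van_or hn hn2 hnK f hcen a ha (by omega) with hV | hV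
      · exact ⟨a, ha, by omega, by rw [Nat.mod_eq_of_lt (by omega)]; right; omega, hV⟩
      · exact ⟨n - a, by omega, by omega, by
          rw [Nat.add_sub_cancel' (by omega), Nat.mod_self]; left; rfl, hV⟩
    · rcases van_or hn hn2 hnK f hcen 1 one_pos (by omega) with hV | hV
      · refine ⟨1, one_pos, by omega, ?_, hV⟩
        rcases eq_or_lt_of_le (Nat.succ_le_of_lt hr) with h2 | h2
        · have : r + 1 = n := h2
          rw [this, Nat.mod_self]; left; rfl
        · rw [Nat.mod_eq_of_lt h2]; right; omega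
      · refine ⟨n - 1, by omega, by omega, ?_, hV⟩
        have : r + (n - 1) = (r - 1) + n := by omega
        rw [this, Nat.add_mod_right, Nat.mod_eq_of_lt (by omega)]
        right; omega

/-- Two linear factors. -/
theorem no_chain {n : ℕ} (hn : n.Prime) (hnK : (n : K) ≠ 0)
    (hK : ¬ ∃ ζ : K, IsPrimitiveRoot ζ n) (P : ℕ → Prop) (q r : ℕ) (hqr : q < r)
    (hq : P q) (hq1 : P (q + 1)) (hr : P r) (hr1 : P (r + 1)) (hrn : r + 1 ≤ n) :
    ¬ Chain K n P := by
  rintro ⟨D, hD, hdvd⟩
  have hroot : ∀ l : Polynomial K, l.natDegree = 1 → l ∣ Polynomial.X ^ n - 1 →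
      Polynomial.IsRoot l 1 := by
    intro l hl hl1
    obtain ⟨x, hx⟩ := Polynomial.exists_root_of_degree_eq_one
      (Polynomial.degree_eq_iff_natDegree_eq_of_pos one_pos |>.mpr hl)
    have h1 : x ^ n = 1 := by
      obtain ⟨w, hw⟩ := hl1
      have h2 := congrArg (Polynomial.eval x) hw
      rw [Polynomial.eval_mul, hx.eq_zero, zero_mul] at h2
      simp only [Polynomial.eval_sub, Polynomial.eval_pow, Polynomial.eval_X,
        Polynomial.eval_one] at h2
      exact sub_eq_zero.mp h2
    by_cases h2 : x = 1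
    · rw [h2] at hx
      exact hx
    · exfalso
      apply hK
      refine ⟨x, ?_⟩
      have h6 : orderOf x = n := orderOf_eq_prime h1 h2 (hp := ⟨hn⟩)
      rw [← h6]
      exact IsPrimitiveRoot.orderOf x
  have hne : ∀ p, P p → p ≤ n → D p ≠ 0 := by
    intro p hp hpn h0
    have h1 := (hD p hp hpn).2
    rw [h0, zero_dvd_iff] at h1
    have h2 := congrArg (Polynomial.eval 0) h1
    simp only [Polynomial.eval_sub, Polynomial.eval_pow, Polynomial.eval_X,
        Polynomial.eval_one, Polynomial.eval_zero] at h2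
    rw [zero_pow hn.ne_zero, zero_sub] at h2
    exact one_ne_zero (neg_eq_zero.mp h2)
  have hlin : ∀ p, P p → P (p + 1) → p + 1 ≤ n → ∃ l : Polynomial K, l.natDegree = 1 ∧
      D (p + 1) = D p * l := by
    intro p hp hp1 hpn
    obtain ⟨l, hl⟩ := hdvd p (p + 1) hp hp1 (Nat.le_succ p) hpn
    refine ⟨l, ?_, hl⟩
    have h1 := (hD (p + 1) hp1 hpn).1
    have h2 := (hD p hp (by omega)).1
    have hl0 : l ≠ 0 := by
      rintro rfl
      rw [mul_zero] at hl
      exact hne _ hp1 hpn hl
    rw [hl, Polynomial.natDegree_mul (hne _ hp (by omega)) hl0, h2] at h1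
    omega
  obtain ⟨l1, hl1, e1⟩ := hlin q hq hq1 (by omega)
  obtain ⟨l2, hl2, e2⟩ := hlin r hr hr1 hrn
  obtain ⟨w, hw⟩ := hdvd (q + 1) r hq1 hr (by omega) (by omega)
  obtain ⟨v, hv⟩ := (hD (r + 1) hr1 hrn).2
  have hall : Polynomial.X ^ n - 1 = l1 * l2 * (D q * w * v) := by
    rw [hv, e2, hw, e1]
    ring
  have h1 := hroot l1 hl1 ⟨l2 * (D q * w * v), by rw [hall]; ring⟩
  have h2 := hroot l2 hl2 ⟨l1 * (D q * w * v), by rw [hall]; ring⟩
  have h3 := congrArg (fun p => Polynomial.eval 1 (Polynomial.derivative p)) hall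
  simp only [Polynomial.derivative_sub, Polynomial.derivative_X_pow, Polynomial.derivative_one,
    Polynomial.derivative_mul, Polynomial.eval_sub, Polynomial.eval_add, Polynomial.eval_mul,
    Polynomial.eval_pow, Polynomial.eval_X, Polynomial.eval_C, Polynomial.eval_zero,
    h1.eq_zero, h2.eq_zero] at h3
  apply hnK
  simpa using h3

end Pool.Agent.H16NC
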