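import Mathlib
import Pool.Agent.H16NC.Str3

/-!
The characteristic polynomial of the corner block divides `X ^ n - ψ ^ n`, where `ψ` is the diagonal
entry of the derivative at a block of size one.
-/

set_option autoImplicit false

namespace Pool.Agent.H16NC

open Matrix Pool.Agent.R176.NC Pool.Agent.TH82.NC
open Pool.Agent.Results.MP_5d2531_al.BlockTriangular (IsNuCentral coef)

variable {K : Type*} [Field K] {σ : Type*}

theorem up_corner' {a m : ℕ} (Y : σ → Matrix (Fin a) (Fin a) K) (M : σ → Matrix (Fin m) (Fin m) K)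
    (B : σ → Matrix (Fin a) (Fin m) K) (C : σ → Matrix (Fin m) (Fin a) K) (f : FreeAlgebra K σ)
    (p q : Fin m) : up (bX Y M B) (bX Y M B) (bZ C) f (Fin.natAdd a p) (Fin.natAdd a q) =
      cr M Y C B f p q := by
  let β : Fin (a + m) ⊕ Fin (a + m) → ℕ :=
    Sum.elim (fun x => if (x : ℕ) < a then 0 else 1) (fun _ => 1)
  let e : Fin m ⊕ (Fin a ⊕ Fin m) → Fin (a + m) ⊕ Fin (a + m) :=
    Sum.elim (fun p => Sum.inl (Fin.natAdd a p))
      (Sum.elim (fun q => Sum.inr (Fin.castAdd m q)) (fun p => Sum.inr (Fin.natAdd a p)))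
  have hei : Function.Injective e := by
    intro x y h
    rcases x with x | x | x <;> rcases y with y | y | y <;>
      simp only [e, Sum.elim_inl, Sum.elim_inr, Sum.inl.injEq, Sum.inr.injEq, reduceCtorEq] at h
    · rw [Fin.natAdd_inj] at h; rw [h]
    · rw [Fin.castAdd_inj] at h; rw [h]
    · have := congrArg Fin.val h
      rw [Fin.val_castAdd, Fin.val_natAdd] at this
      have := x.2
      omega
    · have := congrArg Fin.val h
      rw [Fin.val_castAdd, Fin.val_natAdd] at this
      have := y.2
      omega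
    · rw [Fin.natAdd_inj] at h; rw [h]
  have he : ∀ x, β x = 1 ↔ ∃ j, e j = x := by
    intro x
    constructor
    · intro h
      rcases x with x | x
      · induction x using Fin.addCases with
        | left x =>
          exfalso
          simp only [β, Sum.elim_inl, Fin.val_castAdd] at h
          rw [if_pos x.2] at h
          exact absurd h zero_ne_one
        | right x => exact ⟨Sum.inl x, rfl⟩
      · induction x using Fin.addCases with
        | left x => exact ⟨Sum.inr (Sum.inl x), rfl⟩
        | right x => exact ⟨Sum.inr (Sum.inr x), rfl⟩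
    · rintro ⟨j, rfl⟩
      rcases j with j | j | j
      · simp only [β, e, Sum.elim_inl, Fin.val_natAdd]
        rw [if_neg (by omega)]
      · rfl
      · rfl
  obtain ⟨-, h2⟩ := win' β 1 e hei he
    (fun i => fromBlocks (bX Y M B i) (bZ C i) 0 (bX Y M B i)) (by
      intro i x y hxy
      rcases y with y | y
      · rcases x with x | x
        · rw [fromBlocks_apply₁₁]
          induction x using Fin.addCases with
          | left x =>
            exfalso
            simp only [β, Sum.elim_inl, Fin.val_castAdd] at hxy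
            rw [if_pos x.2] at hxy
            omega
          | right x =>
            induction y using Fin.addCases with
            | left y => simp [bX]
            | right y =>
              exfalso
              simp only [β, Sum.elim_inl, Fin.val_natAdd] at hxy
              rw [if_neg (by omega), if_neg (by omega)] at hxy
              omega
        · rfl
      · exfalso
        rcases x with x | x
        · simp only [β, Sum.elim_inl, Sum.elim_inr] at hxy
          split_ifs at hxy <;> omega
        · simp only [β, Sum.elim_inr] at hxy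
          omega) f
  have h3 : (fun i => (fromBlocks (bX Y M B i) (bZ C i) 0 (bX Y M B i)).submatrix e e) =
      fun i => fromBlocks (M i) (Matrix.fromCols (C i) 0) 0 (fromBlocks (Y i) (B i) 0 (M i)) := by
    funext i
    ext x y
    rcases x with x | x | x <;> rcases y with y | y | y <;> simp [e, bX, bZ]
  rw [h3, lift_up] at h2
  have h4 := congrFun (congrFun h2 (Sum.inl p)) (Sum.inr (Sum.inr q))
  exact h4

theorem mn_one (H : ℕ → ℕ → K) (s : ℕ) :
    (mn H s 1).charpoly = Polynomial.X - Polynomial.C (H s s) := by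
  rw [Matrix.charpoly, Matrix.det_fin_one, Matrix.charmatrix_apply_eq, mn, Matrix.of_apply]
  rfl

theorem corner_dvd [Infinite K] {a m : ℕ} (hn : (a + m).Prime)
    (hnK : ((a + m : ℕ) : K) ≠ 0)
    (f : FreeAlgebra K σ) (hcen : IsNuCentral (a + m) (a + m) f) (P : ℕ → Prop)
    (hper : ∀ q, P (q + (a + m)) ↔ P q) (hP0 : P 0) (hPa : P a)
    (hmin : ∀ q, 0 < q → q < a → ¬ P q)
    (hsink : ∀ p, P p → ∃ s, 0 < s ∧ s < a + m ∧ P (p + s) ∧ Van f (a + m) s)
    (k0 : Fin m) (hk1 : P (a + k0)) (hk2 : P (a + k0 + 1)) (Y : σ → Matrix (Fin a) (Fin a) K)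
    (M : σ → Matrix (Fin m) (Fin m) K)
    (hM : ∀ i (k l : Fin m) q, P (a + q) → (l : ℕ) < q → q ≤ (k : ℕ) → M i k l = 0)
    (B : σ → Matrix (Fin a) (Fin m) K) (C : σ → Matrix (Fin m) (Fin a) K) :
    (cr Y M B C f).charpoly ∣
      Polynomial.X ^ (a + m) - Polynomial.C ((cr M Y C B f k0 k0) ^ (a + m)) := by
  classical
  set n := a + m with hnd
  set X : σ → Matrix (Fin (a + m)) (Fin (a + m)) K := bX Y M B with hXd
  have hX : ∀ i (k l : Fin (a + m)) q, P q → (l : ℕ) < q → q ≤ (k : ℕ) → X i k l = 0 := by
    intro i k l q hq hl hk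
    induction k using Fin.addCases with
    | left k =>
      rw [Fin.val_castAdd] at hk
      exact absurd hq (hmin q (by omega) (by omega))
    | right k =>
      rw [Fin.val_natAdd] at hk
      induction l using Fin.addCases with
      | left l => simp [hXd, bX]
      | right l =>
        rw [Fin.val_natAdd] at hl
        have h1 := hM i k l (q - a) (by rw [Nat.add_sub_cancel' (by omega)]; exact hq) (by omega)
          (by omega)
        simpa [hXd, bX] using h1
  set H := up X X (bZ C) f with hH
  have hf0 : FreeAlgebra.lift K X f = 0 := by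
    obtain ⟨s, hs0, hsn, hs, hV⟩ := hsink 0 hP0
    rw [zero_add] at hs
    exact hV X (fun i k l h1 h2 => hX i k l s hs h1 h2)
  obtain ⟨c, hc⟩ := charpoly_up hn.ne_zero f (charpoly_eq n hn hnK f hcen) X (bZ C) hf0
  set Hn : ℕ → ℕ → K := fun k l => if h : k < n ∧ l < n then H ⟨k, h.1⟩ ⟨l, h.2⟩ else 0 with hHn
  have hHn1 : ∀ k l : Fin n, Hn k l = H k l := by
    intro k l
    rw [hHn]
    simp only
    rw [dif_pos ⟨k.2, l.2⟩]
  have hz : ∀ q, P q → ∀ k l, l < q → q ≤ k → k < n → Hn k l = 0 := by
    intro q hq k l hl hk hkn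
    obtain ⟨s, hs0, hsn, hs, hV⟩ := hsink q hq
    have h1 := low_zero P hper f X (bZ C) hX q hq (by omega) s hsn hs hV ⟨k, hkn⟩
      ⟨l, by omega⟩ hl hk
    rw [← hH] at h1
    rw [← h1]
    exact hHn1 ⟨k, hkn⟩ ⟨l, by omega⟩
  have hsplit : ∀ q r, P q → q + r ≤ n →
      (mn Hn 0 (q + r)).charpoly = (mn Hn 0 q).charpoly * (mn Hn q r).charpoly :=
    fun q r hq hqr => mn_split Hn q r (fun k l h1 h2 h3 => hz q hq k l h1 h2 (by omega))
  have hnn : mn Hn 0 n = H := by
    ext k l
    rw [mn, Matrix.of_apply, zero_add, zero_add, hHn1]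
  have hFa : mn Hn 0 a = cr Y M B C f := by
    ext p q
    rw [mn, Matrix.of_apply, zero_add, zero_add, ← up_corner]
    exact hHn1 (Fin.castAdd m p) (Fin.castAdd m q)
  have hdvd : ∀ q, P q → q ≤ n → (mn Hn 0 q).charpoly ∣ Polynomial.X ^ n - Polynomial.C c := by
    intro q hq hqn
    have h1 := hsplit q (n - q) hq (by omega)
    rw [Nat.add_sub_cancel' hqn, hnn, hc] at h1
    exact ⟨_, h1⟩
  have hk0 := k0.2
  have hcc : c = (cr M Y C B f k0 k0) ^ n := by
    obtain ⟨w, hw⟩ := hdvd (a + k0 + 1) hk2 (by omega)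
    rw [hsplit (a + k0) 1 hk1 (by omega), mn_one] at hw
    have h1 := congrArg (Polynomial.eval (Hn (a + k0) (a + k0))) hw
    simp only [Polynomial.eval_sub, Polynomial.eval_pow, Polynomial.eval_X, Polynomial.eval_C,
      Polynomial.eval_mul, sub_self, mul_zero, zero_mul] at h1
    have h2 : Hn (a + k0) (a + k0) = cr M Y C B f k0 k0 := by
      rw [← up_corner']
      exact hHn1 (Fin.natAdd a k0) (Fin.natAdd a k0)
    rw [h2] at h1
    exact (sub_eq_zero.mp h1).symm
  rw [← hcc, ← hFa]
  exact hdvd a hPa (by omega)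

end Pool.Agent.H16NC
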