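import Mathlib
import Pool.Agent.H16NC.T0

/-!
The diagonal entry of the derivative at a block of size one, and the factorization of the
characteristic polynomial of the corner block.
-/

set_option autoImplicit false

namespace Pool.Agent.H16NC

open Matrix Pool.Agent.TH82.NC Pool.Agent.H552R3.PC

section Alg

open Polynomial

theorem monic_dvd_prod {A : Type*} [CommRing A] [IsDomain A] {κ : Type*} (F : Finset κ)
    (c : κ → A) (p : A[X]) (hp : p.Monic) (h : p ∣ ∏ z ∈ F, (X - C (c z))) :
    ∃ I ⊆ F, p = ∏ z ∈ I, (X - C (c z)) := by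
  classical
  induction F using Finset.induction_on generalizing p with
  | empty =>
    refine ⟨∅, subset_rfl, ?_⟩
    rw [Finset.prod_empty] at h ⊢
    exact hp.eq_one_of_isUnit (isUnit_of_dvd_one h)
  | insert z F hz ih =>
    rw [Finset.prod_insert hz] at h
    by_cases h1 : (X - C (c z)) ∣ p
    · obtain ⟨w, hw⟩ := h1
      have hwm : w.Monic := by
        rw [hw] at hp
        exact (monic_X_sub_C (c z)).of_mul_monic_left hp
      rw [hw] at h
      have h2 : w ∣ ∏ z ∈ F, (X - C (c z)) :=
        (mul_dvd_mul_iff_left (X_sub_C_ne_zero (c z))).mp h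
      obtain ⟨I, hI, hI2⟩ := ih w hwm h2
      refine ⟨insert z I, Finset.insert_subset_insert z hI, ?_⟩
      rw [Finset.prod_insert (fun h => hz (hI h)), hw, hI2]
    · obtain ⟨w, hw⟩ := h
      have hpr : Prime (X - C (c z)) := prime_X_sub_C (c z)
      have h2 : (X - C (c z)) ∣ p * w := by
        rw [← hw]
        exact Dvd.intro _ rfl
      obtain ⟨v, hv⟩ := (hpr.dvd_or_dvd h2).resolve_left h1
      rw [hv] at hw
      have h3 : ∏ z ∈ F, (X - C (c z)) = p * v := by
        apply mul_left_cancel₀ (X_sub_C_ne_zero (c z))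
        rw [hw]
        ring
      obtain ⟨I, hI, hI2⟩ := ih p hp ⟨v, h3⟩
      exact ⟨I, hI.trans (Finset.subset_insert z F), hI2⟩

theorem pow_sub_prod {L : Type*} [Field L] {D : Type*} [CommRing D] [IsDomain D] [Algebra L D]
    {n : ℕ} (hn : 0 < n) (ζ : L) (hζ : IsPrimitiveRoot ζ n) (x y : D) :
    x ^ n - y ^ n = ∏ z ∈ nthRootsFinset n (1 : L), (x - algebraMap L D z * y) := by
  classical
  have hinj : Function.Injective (algebraMap L D) := (algebraMap L D).injective
  have hζ' : IsPrimitiveRoot (algebraMap L D ζ) n := hζ.map_of_injective hinj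
  rw [hζ'.pow_sub_pow_eq_prod_sub_mul x y hn]
  symm
  refine Finset.prod_nbij (algebraMap L D) ?_ (hinj.injOn) ?_ (fun _ _ => rfl)
  · intro z hz
    rw [mem_nthRootsFinset hn] at hz ⊢
    rw [← map_pow, hz, map_one]
  · intro w hw
    rw [Finset.mem_coe, mem_nthRootsFinset hn] at hw
    haveI : NeZero n := ⟨hn.ne'⟩
    obtain ⟨i, _, hi⟩ := hζ'.eq_pow_of_pow_eq_one hw
    refine ⟨ζ ^ i, ?_, ?_⟩
    · rw [Finset.mem_coe, mem_nthRootsFinset hn, ← pow_mul, mul_comm, pow_mul, hζ.pow_eq_one,
        one_pow]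
    · rw [map_pow, hi]

end Alg

variable {K : Type*} [Field K] {σ : Type*} {ι ι' κ : Type*} [Fintype ι] [DecidableEq ι]
  [Fintype ι'] [DecidableEq ι'] [Fintype κ] [DecidableEq κ]

section Mid

theorem cr_sub_mid (e : ι' ≃ ι) (Y : σ → Matrix ι ι K) (M : σ → Matrix κ κ K)
    (B : σ → Matrix ι κ K) (C : σ → Matrix κ ι K) (f : FreeAlgebra K σ) :
    cr M (fun i => (Y i).submatrix e e) (fun i => (C i).submatrix id e)
      (fun i => (B i).submatrix e id) f = cr M Y C B f := by
  induction f using FreeAlgebra.induction with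
  | grade0 r => rw [cr, cr, crn_algebraMap, crn_algebraMap]
  | grade1 y => rw [cr, cr, crn_ι, crn_ι]
  | mul f g hf hg =>
    rw [cr_mul, cr_mul, hf, hg, up_sub_left, up_sub_right, Matrix.submatrix_mul_equiv,
      Matrix.submatrix_id_id]
  | add f g hf hg => rw [cr_add, cr_add, hf, hg]

variable {R : Type*} [CommRing R] [Algebra K R]

theorem cr_conj_mid (Y : σ → Matrix ι ι R) (M : σ → Matrix κ κ R)
    (B : σ → Matrix ι κ R) (C : σ → Matrix κ ι R) (g g' : Matrix ι ι R) (hg : g' * g = 1)
    (hg' : g * g' = 1) (f : FreeAlgebra K σ) :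
    cr M (fun i => g * Y i * g') (fun i => C i * g') (fun i => g * B i) f =
      cr M Y C B f := by
  induction f using FreeAlgebra.induction with
  | grade0 r => simp only [crn_algebraMap]
  | grade1 z => simp only [crn_ι]
  | mul f h hf hh =>
    rw [cr_mul, cr_mul, hf, hh, up_conj_left Y M g g' hg hg', up_conj_right M Y g g' hg hg']
    congr 2
    calc up M Y C f * g' * (g * up Y M B h) = up M Y C f * (g' * g) * up Y M B h := by
          simp only [Matrix.mul_assoc]
      _ = _ := by rw [hg, Matrix.mul_one]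
  | add f h hf hh => rw [cr_add, cr_add, hf, hh]

end Mid

section hh

/-- The diagonal entry. -/
noncomputable def hh {R : Type*} [CommRing R] [Algebra K R] (M : σ → Matrix κ κ K)
    (ξ η : σ → κ → K) (f : FreeAlgebra K σ) (k0 : κ) (Y : σ → Matrix ι ι R) (x y : ι → R) : R :=
  cr (fun i => (M i).map (algebraMap K R)) Y
    (fun i => Matrix.vecMulVec (fun c => algebraMap K R (η i c)) y)
    (fun i => Matrix.vecMulVec x (fun c => algebraMap K R (ξ i c))) f k0 k0

variable {R R' : Type*} [CommRing R] [Algebra K R] [CommRing R'] [Algebra K R']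
  (M : σ → Matrix κ κ K) (ξ η : σ → κ → K) (f : FreeAlgebra K σ) (k0 : κ)

theorem hh_map (φ : R →ₐ[K] R') (Y : σ → Matrix ι ι R) (x y : ι → R) :
    φ (hh M ξ η f k0 Y x y) = hh M ξ η f k0 (fun i => (Y i).map φ) (fun p => φ (x p))
      (fun p => φ (y p)) := by
  have h1 := congrFun (congrFun (cr_map (fun i => (M i).map (algebraMap K R)) Y
    (fun i => Matrix.vecMulVec (fun c => algebraMap K R (η i c)) y)
    (fun i => Matrix.vecMulVec x (fun c => algebraMap K R (ξ i c))) φ f) k0) k0
  rw [Matrix.map_apply] at h1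
  rw [hh, h1, hh]
  have e1 : (fun i => ((M i).map (algebraMap K R)).map φ) =
      fun i => (M i).map (algebraMap K R') := by
    funext i
    ext p q
    simp
  have e2 : (fun i => (Matrix.vecMulVec (fun c => algebraMap K R (η i c)) y).map φ) =
      fun i => Matrix.vecMulVec (fun c => algebraMap K R' (η i c)) (fun p => φ (y p)) := by
    funext i
    ext p q
    simp [Matrix.vecMulVec_apply]
  have e3 : (fun i => (Matrix.vecMulVec x (fun c => algebraMap K R (ξ i c))).map φ) =
      fun i => Matrix.vecMulVec (fun p => φ (x p)) (fun c => algebraMap K R' (ξ i c)) := by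
    funext i
    ext p q
    simp [Matrix.vecMulVec_apply]
  rw [e1, e2, e3]

theorem hh_lin (Y : σ → Matrix ι ι R) (x y : ι → R) :
    hh M ξ η f k0 Y x y =
      ∑ p, ∑ q, (x p * y q) • hh M ξ η f k0 Y (Pi.single p 1) (Pi.single q 1) := by
  have h1 := cr_lin (fun i => (M i).map (algebraMap K R)) Y Finset.univ Finset.univ y x
    (fun q i => Matrix.vecMulVec (fun c => algebraMap K R (η i c)) (Pi.single q 1))
    (fun p i => Matrix.vecMulVec (Pi.single p 1) (fun c => algebraMap K R (ξ i c))) f
  have h2 := congrFun (congrFun h1 k0) k0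
  simp only [Matrix.sum_apply, Matrix.smul_apply] at h2
  have h3 : hh M ξ η f k0 Y x y = cr (fun i => (M i).map (algebraMap K R)) Y
      (fun i => ∑ q, y q • Matrix.vecMulVec (fun c => algebraMap K R (η i c)) (Pi.single q 1))
      (fun i => ∑ p, x p • Matrix.vecMulVec (Pi.single p 1)
        (fun c => algebraMap K R (ξ i c))) f k0 k0 := by
    rw [hh]
    congr 1
    congr 1
    · funext i
      ext p q
      rw [Matrix.sum_apply, Finset.sum_eq_single q]
      · simp [Matrix.vecMulVec_apply, mul_comm]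
      · intro b _ hb
        rw [Matrix.smul_apply, Matrix.vecMulVec_apply, Pi.single_eq_of_ne (Ne.symm hb), mul_zero,
          smul_zero]
      · intro h; exact absurd (Finset.mem_univ _) h
    · funext i
      ext p q
      rw [Matrix.sum_apply, Finset.sum_eq_single p]
      · simp [Matrix.vecMulVec_apply]
      · intro b _ hb
        rw [Matrix.smul_apply, Matrix.vecMulVec_apply, Pi.single_eq_of_ne (Ne.symm hb), zero_mul,
          smul_zero]
      · intro h; exact absurd (Finset.mem_univ _) h
  rw [h3, h2, Finset.sum_comm]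
  refine Finset.sum_congr rfl fun p _ => Finset.sum_congr rfl fun q _ => ?_
  rw [mul_comm (y q)]
  rfl

theorem hh_conj (g g' : Matrix ι ι R) (hg : g' * g = 1) (hg' : g * g' = 1)
    (Y : σ → Matrix ι ι R) (x y : ι → R) :
    hh M ξ η f k0 (fun i => g * Y i * g') (Matrix.mulVec g x) (Matrix.vecMul y g') =
      hh M ξ η f k0 Y x y := by
  rw [hh, hh, ← cr_conj_mid Y _ _ _ g g' hg hg']
  congr 1
  congr 1
  · funext i
    rw [Matrix.vecMulVec_mul]
  · funext i
    rw [Matrix.mul_vecMulVec]

end hh

end Pool.Agent.H16NC
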