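import Mathlib
import Pool.Agent.H16NC.Gen2

/-!
The factorization of the characteristic polynomial of the corner block over all algebras.
-/

set_option autoImplicit false

namespace Pool.Agent.H16NC

open Matrix Pool.Agent.TH82.NC Pool.Agent.H552R3.PC

variable {K : Type*} [Field K] {σ : Type*} {ι κ : Type*} [Fintype ι] [DecidableEq ι]
  [Fintype κ] [DecidableEq κ]
  (M : σ → Matrix κ κ K) (ξ η : σ → κ → K) (f : FreeAlgebra K σ) (k0 : κ)

theorem dvd_all [Infinite K] (n : ℕ)
    (hK : ∀ (Y : σ → Matrix ι ι K) (x y : ι → K), (T0 M ξ η f Y x y).charpoly ∣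
      Polynomial.X ^ n - Polynomial.C ((hh M ξ η f k0 Y x y) ^ n))
    {R : Type*} [CommRing R] [Algebra K R] (Y : σ → Matrix ι ι R) (x y : ι → R) :
    (T0 M ξ η f Y x y).charpoly ∣
      Polynomial.X ^ n - Polynomial.C ((hh M ξ η f k0 Y x y) ^ n) := by
  let G := MvPolynomial (σ × ι × ι ⊕ ι ⊕ ι) K
  let Yg : σ → Matrix ι ι G := fun i => Matrix.of fun p q => MvPolynomial.X (Sum.inl (i, p, q))
  let xg : ι → G := fun p => MvPolynomial.X (Sum.inr (Sum.inl p))
  let yg : ι → G := fun p => MvPolynomial.X (Sum.inr (Sum.inr p))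
  have hmap1 : ∀ (φ : G →ₐ[K] K), (T0 M ξ η f Yg xg yg).charpoly.map φ.toRingHom =
      (T0 M ξ η f (fun i => (Yg i).map φ) (fun p => φ (xg p)) (fun p => φ (yg p))).charpoly := by
    intro φ
    rw [← Matrix.charpoly_map, ← T0_map]
    rfl
  have hmap2 : ∀ (φ : G →ₐ[K] K), (Polynomial.X ^ n -
      Polynomial.C ((hh M ξ η f k0 Yg xg yg) ^ n) : Polynomial G).map φ.toRingHom =
      Polynomial.X ^ n - Polynomial.C ((hh M ξ η f k0 (fun i => (Yg i).map φ)
        (fun p => φ (xg p)) (fun p => φ (yg p))) ^ n) := by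
    intro φ
    rw [← hh_map, Polynomial.map_sub, Polynomial.map_pow, Polynomial.map_X, Polynomial.map_C,
      ← map_pow]
    rfl
  have hmap1' : ∀ (φ : G →ₐ[K] R), (T0 M ξ η f Yg xg yg).charpoly.map φ.toRingHom =
      (T0 M ξ η f (fun i => (Yg i).map φ) (fun p => φ (xg p)) (fun p => φ (yg p))).charpoly := by
    intro φ
    rw [← Matrix.charpoly_map, ← T0_map]
    rfl
  have hmap2' : ∀ (φ : G →ₐ[K] R), (Polynomial.X ^ n -
      Polynomial.C ((hh M ξ η f k0 Yg xg yg) ^ n) : Polynomial G).map φ.toRingHom =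
      Polynomial.X ^ n - Polynomial.C ((hh M ξ η f k0 (fun i => (Yg i).map φ)
        (fun p => φ (xg p)) (fun p => φ (yg p))) ^ n) := by
    intro φ
    rw [← hh_map, Polynomial.map_sub, Polynomial.map_pow, Polynomial.map_X, Polynomial.map_C,
      ← map_pow]
    rfl
  have hG : (T0 M ξ η f Yg xg yg).charpoly ∣
      Polynomial.X ^ n - Polynomial.C ((hh M ξ η f k0 Yg xg yg) ^ n) := by
    rw [← Polynomial.modByMonic_eq_zero_iff_dvd (Matrix.charpoly_monic _)]
    ext1 k
    rw [Polynomial.coeff_zero]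
    apply MvPolynomial.funext
    intro v
    rw [map_zero]
    let φ : G →ₐ[K] K := MvPolynomial.aeval v
    have h1 := Polynomial.map_modByMonic φ.toRingHom
      (p := Polynomial.X ^ n - Polynomial.C ((hh M ξ η f k0 Yg xg yg) ^ n))
      (Matrix.charpoly_monic (T0 M ξ η f Yg xg yg))
    rw [hmap1, hmap2, (Polynomial.modByMonic_eq_zero_iff_dvd (Matrix.charpoly_monic _)).mpr
      (hK _ _ _)] at h1
    have h2 := congrArg (fun p => Polynomial.coeff p k) h1
    simp only [Polynomial.coeff_map, Polynomial.coeff_zero] at h2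
    have h3 : ∀ z : G, φ.toRingHom z = MvPolynomial.eval v z := by
      intro z
      change MvPolynomial.aeval v z = _
      rw [MvPolynomial.aeval_eq_eval]
    rw [h3] at h2
    exact h2
  let φ : G →ₐ[K] R := MvPolynomial.aeval
    (Sum.elim (fun p => Y p.1 p.2.1 p.2.2) (Sum.elim x y))
  have e := Polynomial.map_dvd φ.toRingHom hG
  rw [hmap1', hmap2'] at e
  have e1 : (fun i => (Yg i).map φ) = Y := by
    funext i
    ext1 p q
    exact MvPolynomial.aeval_X _ (Sum.inl (i, p, q))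
  have e2 : (fun p => φ (xg p)) = x := by
    funext p
    exact MvPolynomial.aeval_X _ (Sum.inr (Sum.inl p))
  have e3 : (fun p => φ (yg p)) = y := by
    funext p
    exact MvPolynomial.aeval_X _ (Sum.inr (Sum.inr p))
  rw [e1, e2, e3] at e
  exact e

theorem gen_factor [Infinite K] {L : Type*} [Field L] [IsAlgClosed L] [Algebra K L] (n : ℕ)
    (hn : 0 < n) (hnL : (n : L) ≠ 0)
    (hK : ∀ (Y : σ → Matrix ι ι K) (x y : ι → K), (T0 M ξ η f Y x y).charpoly ∣
      Polynomial.X ^ n - Polynomial.C ((hh M ξ η f k0 Y x y) ^ n)) :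
    ∃ I : Finset L, ∀ (Y : σ → Matrix ι ι (Polynomial (Polynomial L)))
      (x y : ι → Polynomial (Polynomial L)), (T0 M ξ η f Y x y).charpoly =
        ∏ i ∈ I, (Polynomial.X - Polynomial.C (algebraMap L (Polynomial (Polynomial L)) i *
          hh M ξ η f k0 Y x y)) := by
  classical
  let G := MvPolynomial (σ × ι × ι ⊕ ι ⊕ ι) L
  let Yg : σ → Matrix ι ι G := fun i => Matrix.of fun p q => MvPolynomial.X (Sum.inl (i, p, q))
  let xg : ι → G := fun p => MvPolynomial.X (Sum.inr (Sum.inl p))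
  let yg : ι → G := fun p => MvPolynomial.X (Sum.inr (Sum.inr p))
  have : NeZero (n : L) := ⟨hnL⟩
  obtain ⟨ζ, hζ⟩ := IsAlgClosed.exists_root (Polynomial.cyclotomic n L)
    (Polynomial.degree_cyclotomic_pos n L hn).ne'
  rw [Polynomial.isRoot_cyclotomic_iff] at hζ
  have h1 := dvd_all M ξ η f k0 n hK (R := G) Yg xg yg
  have h2 := pow_sub_prod (D := Polynomial G) hn ζ hζ Polynomial.X
    (Polynomial.C (hh M ξ η f k0 Yg xg yg))
  rw [map_pow, h2] at h1
  have h3 : ∏ z ∈ Polynomial.nthRootsFinset n (1 : L),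
      (Polynomial.X - algebraMap L (Polynomial G) z * Polynomial.C (hh M ξ η f k0 Yg xg yg)) =
      ∏ z ∈ Polynomial.nthRootsFinset n (1 : L),
      (Polynomial.X - Polynomial.C (algebraMap L G z * hh M ξ η f k0 Yg xg yg)) := by
    refine Finset.prod_congr rfl fun z _ => ?_
    rw [map_mul]
    rfl
  rw [h3] at h1
  obtain ⟨I, -, hI⟩ := monic_dvd_prod _ _ _ (Matrix.charpoly_monic _) h1
  refine ⟨I, fun Y x y => ?_⟩
  let φ : G →ₐ[L] Polynomial (Polynomial L) := MvPolynomial.aeval
    (Sum.elim (fun p => Y p.1 p.2.1 p.2.2) (Sum.elim x y))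
  have e1 : (fun i => (Yg i).map (φ.restrictScalars K)) = Y := by
    funext i
    ext1 p q
    exact MvPolynomial.aeval_X _ (Sum.inl (i, p, q))
  have e2 : (fun p => (φ.restrictScalars K) (xg p)) = x := by
    funext p
    exact MvPolynomial.aeval_X _ (Sum.inr (Sum.inl p))
  have e3 : (fun p => (φ.restrictScalars K) (yg p)) = y := by
    funext p
    exact MvPolynomial.aeval_X _ (Sum.inr (Sum.inr p))
  have h4 := congrArg (Polynomial.map (φ.restrictScalars K).toRingHom) hI
  rw [← Matrix.charpoly_map, Polynomial.map_prod] at h4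
  have h5 := T0_map M ξ η f (φ.restrictScalars K) Yg xg yg
  rw [e1, e2, e3] at h5
  have h6 := hh_map M ξ η f k0 (φ.restrictScalars K) Yg xg yg
  rw [e1, e2, e3] at h6
  rw [← h5, ← h6]
  refine Eq.trans ?_ (h4.trans ?_)
  · rfl
  · refine Finset.prod_congr rfl fun z _ => ?_
    rw [Polynomial.map_sub, Polynomial.map_X, Polynomial.map_C, map_mul]
    congr 3
    change φ (algebraMap L G z) = _
    rw [AlgHom.commutes]

end Pool.Agent.H16NC
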