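import Mathlib
import Pool.Agent.H16NC.Contra
import Pool.Agent.H16NC.HeisPoly

/-!
Top coefficients of the characteristic polynomial.
-/

set_option autoImplicit false

namespace Pool.Agent.H16NC

open Matrix Polynomial

section Top

variable {ι : Type*} [Fintype ι] [DecidableEq ι]

theorem exists_top' {L : Type*} [Field L] {A : Type*} [CommRing A] [Algebra L A]
    {τ : Type*} [Fintype τ] (T : Matrix ι ι L →ₗ[L] (τ → A[X])) (hT : T ≠ 0) :
    ∃ N, (∀ D t, (T D t).natDegree ≤ N) ∧ ∃ D t, (T D t).coeff N ≠ 0 := by
  classical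
  have hex : ∃ N, ∀ D t, (T D t).natDegree ≤ N := by
    refine ⟨∑ p : ι, ∑ q : ι, ∑ t : τ, (T (Matrix.single p q 1) t).natDegree, ?_⟩
    intro D t
    have h1 : T D = ∑ p : ι, ∑ q : ι, D p q • T (Matrix.single p q 1) := by
      conv_lhs => rw [Matrix.matrix_eq_sum_single D]
      simp only [map_sum]
      refine Finset.sum_congr rfl fun p _ => Finset.sum_congr rfl fun q _ => ?_
      have h1 : Matrix.single p q (D p q) = D p q • Matrix.single p q (1 : L) := by
        rw [Matrix.smul_single, smul_eq_mul, mul_one]
      rw [h1, map_smul]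
    rw [h1]
    simp only [Finset.sum_apply, Pi.smul_apply]
    refine Polynomial.natDegree_sum_le_of_forall_le _ _ fun p _ =>
      Polynomial.natDegree_sum_le_of_forall_le _ _ fun q _ => ?_
    refine (Polynomial.natDegree_smul_le _ _).trans ?_
    calc (T (Matrix.single p q 1) t).natDegree
        ≤ ∑ j' : τ, (T (Matrix.single p q 1) j').natDegree :=
          Finset.single_le_sum (f := fun j' => (T (Matrix.single p q 1) j').natDegree)
            (fun _ _ => Nat.zero_le _) (Finset.mem_univ t)
      _ ≤ ∑ q' : ι, ∑ j' : τ, (T (Matrix.single p q' 1) j').natDegree :=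
          Finset.single_le_sum
            (f := fun q' => ∑ j' : τ, (T (Matrix.single p q' 1) j').natDegree)
            (fun _ _ => Nat.zero_le _) (Finset.mem_univ q)
      _ ≤ _ :=
          Finset.single_le_sum
            (f := fun p' => ∑ q' : ι, ∑ j' : τ,
              (T (Matrix.single p' q' 1) j').natDegree)
            (fun _ _ => Nat.zero_le _) (Finset.mem_univ p)
  refine ⟨Nat.find hex, Nat.find_spec hex, ?_⟩
  by_contra hcon
  push Not at hcon
  rcases Nat.eq_zero_or_pos (Nat.find hex) with h0 | h0
  · apply hT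
    refine LinearMap.ext fun D => ?_
    funext t
    have h1 := Nat.find_spec hex D t
    rw [h0] at h1
    have h2 := hcon D t
    rw [h0] at h2
    rw [Polynomial.eq_C_of_natDegree_le_zero h1, h2, map_zero]
    rfl
  · refine Nat.find_min hex (m := Nat.find hex - 1) (by omega) fun D t => ?_
    have h1 := Nat.find_spec hex D t
    have h2 := hcon D t
    by_contra h3
    have h4 : (T D t).natDegree = Nat.find hex := by omega
    rw [← h4, Polynomial.coeff_natDegree, Polynomial.leadingCoeff_eq_zero] at h2
    rw [h2, Polynomial.natDegree_zero] at h4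
    omega

variable {A : Type*} [CommRing A]

theorem det_top (M : Matrix ι ι A[X]) (N : ℕ) (h : ∀ i j, (M i j).natDegree ≤ N) :
    M.det.coeff (Fintype.card ι * N) = (M.map (fun p => p.coeff N)).det := by
  rw [Matrix.det_apply', Matrix.det_apply', Polynomial.finsetSum_coeff]
  refine Finset.sum_congr rfl fun s _ => ?_
  have h1 := Polynomial.coeff_prod_of_natDegree_le (Finset.univ : Finset ι)
    (fun i => M (s i) i) N (fun i _ => h _ _)
  rw [Finset.card_univ] at h1
  have h2 : ((Equiv.Perm.sign s : ℤ) : A[X]) = C ((Equiv.Perm.sign s : ℤ) : A) := by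
    simp
  rw [h2, Polynomial.coeff_C_mul, h1]
  simp only [Matrix.map_apply]

theorem charpoly_top [IsDomain A] [Infinite A] (M : Matrix ι ι A[X]) (g : A[X]) (N : ℕ)
    (h : ∀ i j, (M i j).natDegree ≤ N) (hg : g.natDegree ≤ N) {κ : Type*} (I : Finset κ)
    (q : κ → A) (hch : M.charpoly = ∏ i ∈ I, (X - C (C (q i) * g))) :
    (M.map (fun p => p.coeff N)).charpoly = ∏ i ∈ I, (X - C (q i * g.coeff N)) := by
  classical
  have hcard : I.card = Fintype.card ι := by
    have h1 := congrArg Polynomial.natDegree hch
    rw [Matrix.charpoly_natDegree_eq_dim, Polynomial.natDegree_prod_of_monic _ _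
      (fun i _ => Polynomial.monic_X_sub_C _)] at h1
    simp only [Polynomial.natDegree_X_sub_C, Finset.sum_const, smul_eq_mul, mul_one] at h1
    exact h1.symm
  apply Polynomial.funext
  intro x
  have h1 := congrArg (Polynomial.eval (C x * X ^ N : A[X])) hch
  rw [Matrix.eval_charpoly, Polynomial.eval_prod] at h1
  have h2 : ∀ i j, ((Matrix.scalar ι (C x * X ^ N : A[X]) - M) i j).natDegree ≤ N := by
    intro i j
    rw [Matrix.sub_apply]
    refine (Polynomial.natDegree_sub_le _ _).trans (max_le ?_ (h i j))
    by_cases hij : i = j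
    · subst hij
      rw [Matrix.scalar_apply, Matrix.diagonal_apply_eq]
      exact Polynomial.natDegree_C_mul_X_pow_le x N
    · rw [Matrix.scalar_apply, Matrix.diagonal_apply_ne _ hij, Polynomial.natDegree_zero]
      exact Nat.zero_le _
  have h3 := det_top _ N h2
  rw [h1] at h3
  have h4 : (Matrix.scalar ι (C x * X ^ N : A[X]) - M).map (fun p => p.coeff N) =
      Matrix.scalar ι x - M.map (fun p => p.coeff N) := by
    ext i j
    rw [Matrix.map_apply, Matrix.sub_apply, Matrix.sub_apply, Polynomial.coeff_sub,
      Matrix.map_apply]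
    congr 1
    by_cases hij : i = j
    · subst hij
      rw [Matrix.scalar_apply, Matrix.diagonal_apply_eq, Matrix.scalar_apply,
        Matrix.diagonal_apply_eq, Polynomial.coeff_C_mul, Polynomial.coeff_X_pow, if_pos rfl,
        mul_one]
    · rw [Matrix.scalar_apply, Matrix.diagonal_apply_ne _ hij, Matrix.scalar_apply,
        Matrix.diagonal_apply_ne _ hij, Polynomial.coeff_zero]
  rw [h4] at h3
  rw [Matrix.eval_charpoly, ← h3, ← hcard, Polynomial.coeff_prod_of_natDegree_le]
  · rw [Polynomial.eval_prod]
    refine Finset.prod_congr rfl fun i _ => ?_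
    simp only [Polynomial.eval_sub, Polynomial.eval_X, Polynomial.eval_C, Polynomial.coeff_sub,
      Polynomial.coeff_C_mul, Polynomial.coeff_X_pow, if_true, mul_one]
  · intro i _
    simp only [Polynomial.eval_sub, Polynomial.eval_X, Polynomial.eval_C]
    refine (Polynomial.natDegree_sub_le _ _).trans (max_le ?_ ?_)
    · exact Polynomial.natDegree_C_mul_X_pow_le x N
    · exact (Polynomial.natDegree_C_mul_le _ _).trans hg

end Top

end Pool.Agent.H16NC
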