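import Mathlib
import Pool.Agent.H16NC.Top2
import Pool.Agent.H16NC.Tz

/-!
The pair of an operator and a functional.
-/

set_option autoImplicit false

namespace Pool.Agent.H16NC

open Matrix Polynomial

variable {L : Type*} [Field L] {a : ℕ} [NeZero a] (ψ : AddChar (ZMod a) L)

theorem trace_vec (x y : ZMod a → L) : (Matrix.vecMulVec x y).trace = x ⬝ᵥ y := by
  simp [Matrix.trace, dotProduct, Matrix.vecMulVec_apply]

theorem heis_pair [IsAlgClosed L] (hψ : ψ.IsPrimitive) (haL : (a : L) ≠ 0)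
    (hψ1 : ∀ x, ψ x = 1 → x = 0) (ha3 : 3 ≤ a)
    (T : Matrix (ZMod a) (ZMod a) L →ₗ[L] Matrix (ZMod a) (ZMod a) L[X][X])
    (h : Matrix (ZMod a) (ZMod a) L →ₗ[L] L[X][X])
    (hU : ∀ (n : ZMod a × ZMod a) (k l : ℕ),
      ψ (-(l : ZMod a)) • ((T (W ψ n)).map (fun p => (p.coeff l).coeff k) * W ψ (1, 0)) =
        ψ n.2 • (W ψ (1, 0) * (T (W ψ n)).map (fun p => (p.coeff l).coeff k)))
    (hV : ∀ (n : ZMod a × ZMod a) (k l : ℕ),
      ψ (k : ZMod a) • ((T (W ψ n)).map (fun p => (p.coeff l).coeff k) * W ψ (0, 1)) =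
        ψ (-n.1) • (W ψ (0, 1) * (T (W ψ n)).map (fun p => (p.coeff l).coeff k)))
    (hhU : ∀ (n : ZMod a × ZMod a) (k l : ℕ),
      ψ (-(l : ZMod a)) * ((h (W ψ n)).coeff l).coeff k =
        ψ n.2 * ((h (W ψ n)).coeff l).coeff k)
    (hhV : ∀ (n : ZMod a × ZMod a) (k l : ℕ),
      ψ (k : ZMod a) * ((h (W ψ n)).coeff l).coeff k =
        ψ (-n.1) * ((h (W ψ n)).coeff l).coeff k)
    {κ : Type*} (I : Finset κ) (q : κ → L) (hq : Set.InjOn q I)
    (hch : ∀ x y : ZMod a → L, (T (Matrix.vecMulVec x y)).charpoly =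
      ∏ i ∈ I, (X - C (C (C (q i)) * h (Matrix.vecMulVec x y)))) : h = 0 := by
  classical
  by_contra hh0
  have : Infinite L := IsAlgClosed.instInfinite
  -- the combined map
  let F : Matrix (ZMod a) (ZMod a) L →ₗ[L] ((ZMod a × ZMod a) ⊕ Unit → L[X][X]) :=
    { toFun := fun D => Sum.elim (fun p => T D p.1 p.2) (fun _ => h D)
      map_add' := by
        intro D D'
        funext t
        rcases t with t | t
        · simp only [map_add, Sum.elim_inl, Pi.add_apply, Matrix.add_apply]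
        · simp only [map_add, Sum.elim_inr, Pi.add_apply]
      map_smul' := by
        intro c D
        funext t
        rcases t with t | t
        · simp only [map_smul, Sum.elim_inl, Pi.smul_apply, Matrix.smul_apply, RingHom.id_apply]
        · simp only [map_smul, Sum.elim_inr, Pi.smul_apply, RingHom.id_apply] }
  have hFl : ∀ D i j, F D (Sum.inl (i, j)) = T D i j := fun _ _ _ => rfl
  have hFr : ∀ D, F D (Sum.inr ()) = h D := fun _ => rfl
  have hF0 : F ≠ 0 := by
    intro h0
    apply hh0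
    refine LinearMap.ext fun D => ?_
    have h1 := congrFun (LinearMap.congr_fun h0 D) (Sum.inr ())
    rw [hFr] at h1
    exact h1
  obtain ⟨l0, hl0, hl1⟩ := exists_top' F hF0
  let F1 : Matrix (ZMod a) (ZMod a) L →ₗ[L] ((ZMod a × ZMod a) ⊕ Unit → L[X]) :=
    (((Polynomial.lcoeff L[X] l0).restrictScalars L).compLeft _).comp F
  have hF1 : ∀ D t, F1 D t = (F D t).coeff l0 := fun _ _ => rfl
  have hF10 : F1 ≠ 0 := by
    intro h0
    obtain ⟨D, t, ht⟩ := hl1
    apply ht
    have h2 := congrFun (LinearMap.congr_fun h0 D) t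
    rw [hF1] at h2
    exact h2
  obtain ⟨k0, hk0, hk1⟩ := exists_top' F1 hF10
  let S : Matrix (ZMod a) (ZMod a) L →ₗ[L] Matrix (ZMod a) (ZMod a) L :=
    ((Polynomial.lcoeff L k0).mapMatrix).comp
      ((((Polynomial.lcoeff L[X] l0).restrictScalars L).mapMatrix).comp T)
  have hS : ∀ D, S D = (T D).map (fun p => (p.coeff l0).coeff k0) := fun D => rfl
  let η : Matrix (ZMod a) (ZMod a) L →ₗ[L] L :=
    (Polynomial.lcoeff L k0).comp (((Polynomial.lcoeff L[X] l0).restrictScalars L).comp h)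
  have hη : ∀ D, η D = ((h D).coeff l0).coeff k0 := fun D => rfl
  have hne : ∀ x, ψ x ≠ 0 := fun x => (AddChar.val_isUnit ψ x).ne_zero
  -- the characteristic polynomials
  have hchS : ∀ x y : ZMod a → L, (S (Matrix.vecMulVec x y)).charpoly =
      ∏ i ∈ I, (X - C (q i * η (Matrix.vecMulVec x y))) := by
    intro x y
    have h1 := charpoly_top (T (Matrix.vecMulVec x y)) (h (Matrix.vecMulVec x y)) l0
      (fun i j => hl0 _ (Sum.inl (i, j))) (hl0 _ (Sum.inr ())) I (fun i => C (q i)) (hch x y)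
    have h2 := charpoly_top _ _ k0
      (fun i j => hk0 (Matrix.vecMulVec x y) (Sum.inl (i, j)))
      (hk0 (Matrix.vecMulVec x y) (Sum.inr ())) I q h1
    exact h2
  have hSW : ∀ n, ∃ c : L, S (W ψ n) = c • W ψ (n + ((k0 : ZMod a), (l0 : ZMod a))) := by
    intro n
    refine ⟨S (W ψ n) 0 (n + ((k0 : ZMod a), (l0 : ZMod a))).2, ?_⟩
    refine eig ψ hψ1 (S (W ψ n)) (n + ((k0 : ZMod a), (l0 : ZMod a))) ?_ ?_
    · have h1 := hU n k0 l0
      rw [← hS] at h1
      have h2 : W ψ (1, 0) * S (W ψ n) = ψ (-n.2) • (ψ n.2 • (W ψ (1, 0) * S (W ψ n))) := by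
        rw [smul_smul, ← AddChar.map_add_eq_mul, neg_add_cancel, AddChar.map_zero_eq_one, one_smul]
      rw [h2, ← h1, smul_smul, ← AddChar.map_add_eq_mul]
      congr 2
      simp only [Prod.snd_add]
      ring
    · have h1 := hV n k0 l0
      rw [← hS] at h1
      have h2 : W ψ (0, 1) * S (W ψ n) = ψ n.1 • (ψ (-n.1) • (W ψ (0, 1) * S (W ψ n))) := by
        rw [smul_smul, ← AddChar.map_add_eq_mul, add_neg_cancel, AddChar.map_zero_eq_one, one_smul]
      rw [h2, ← h1, smul_smul, ← AddChar.map_add_eq_mul]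
      congr 2
  choose φ hφ using hSW
  have hηW : ∀ n, n + ((k0 : ZMod a), (l0 : ZMod a)) ≠ 0 → η (W ψ n) = 0 := by
    intro n hn
    by_contra hcon
    apply hn
    have h1 := hhU n k0 l0
    have h2 := hhV n k0 l0
    rw [← hη] at h1 h2
    have h3 := mul_right_cancel₀ hcon h1
    have h4 := mul_right_cancel₀ hcon h2
    have e1 : ψ (n.2 + (l0 : ZMod a)) = 1 := by
      rw [AddChar.map_add_eq_mul, ← h3, ← AddChar.map_add_eq_mul, neg_add_cancel,
        AddChar.map_zero_eq_one]
    have e2 : ψ (n.1 + (k0 : ZMod a)) = 1 := by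
      rw [AddChar.map_add_eq_mul, h4, ← AddChar.map_add_eq_mul, add_neg_cancel,
        AddChar.map_zero_eq_one]
    exact Prod.ext (hψ1 _ e2) (hψ1 _ e1)
  by_cases hη0 : η = 0
  · -- then `S` is zero
    have hS0 : S = 0 := by
      refine heis ψ hψ haL hψ1 S _ φ hφ I.card fun x y => ?_
      have h1 := hchS x y
      simp only [hη0, LinearMap.zero_apply, mul_zero, map_zero, sub_zero, Finset.prod_const] at h1
      have h4 := Matrix.aeval_self_charpoly (S (Matrix.vecMulVec x y))
      rw [h1, map_pow, Polynomial.aeval_X] at h4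
      exact h4
    obtain ⟨D, t, ht⟩ := hk1
    apply ht
    rcases t with t | t
    · have h2 := congrFun (congrFun (LinearMap.congr_fun hS0 D) t.1) t.2
      rw [hS] at h2
      exact h2
    · have h2 := LinearMap.congr_fun hη0 D
      rw [hη] at h2
      exact h2
  · set γ : ZMod a × ZMod a := ((k0 : ZMod a), (l0 : ZMod a)) with hγ
    set κ0 := η (W ψ (-γ)) with hκ0
    have hκne : κ0 ≠ 0 := by
      intro h0
      apply hη0
      refine LinearMap.ext fun D => ?_
      obtain ⟨c, hc⟩ := exists_coeff ψ hψ haL D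
      rw [← hc, map_sum, LinearMap.zero_apply]
      refine Finset.sum_eq_zero fun n _ => ?_
      rw [map_smul]
      by_cases hn : n + γ = 0
      · rw [eq_neg_of_add_eq_zero_left hn, ← hκ0, h0, smul_zero]
      · rw [hηW n hn, smul_zero]
    let S' : Matrix (ZMod a) (ZMod a) L →ₗ[L] Matrix (ZMod a) (ZMod a) L :=
      S.comp (LinearMap.mulLeft L (W ψ (-γ)))
    have hS' : ∀ D, S' D = S (W ψ (-γ) * D) := fun _ => rfl
    have hη' : ∀ D, η (W ψ (-γ) * D) = κ0 * (a : L)⁻¹ * D.trace := by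
      intro D
      obtain ⟨c, hc⟩ := exists_coeff ψ hψ haL D
      rw [← hc, Matrix.mul_sum, map_sum, Matrix.trace_sum, Finset.mul_sum]
      refine Finset.sum_congr rfl fun n _ => ?_
      rw [Matrix.mul_smul, map_smul, W_mul, map_smul, Matrix.trace_smul, smul_eq_mul, smul_eq_mul,
        smul_eq_mul]
      by_cases hn : n = 0
      · subst hn
        rw [add_zero, ← hκ0, W_zero, Matrix.trace_one, ZMod.card, Prod.fst_zero, zero_mul,
          AddChar.map_zero_eq_one]
        field_simp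
      · rw [hηW _ (by rw [neg_add_cancel_comm]; exact hn), trace_W ψ hψ n hn]
        ring
    refine contra ψ hψ haL ha3 S' (fun n => ψ (n.1 * (-γ).2) * φ (-γ + n)) ?_ I
      (fun i => q i * (κ0 * (a : L)⁻¹)) ?_ ?_
    · intro n
      rw [hS', W_mul, map_smul, hφ, smul_smul, neg_add_cancel_comm]
    · intro i hi j hj hij
      exact hq hi hj (mul_right_cancel₀ (mul_ne_zero hκne (inv_ne_zero haL)) hij)
    · intro x y
      have h1 := hchS (Matrix.mulVec (W ψ (-γ)) x) y
      rw [← Matrix.mul_vecMulVec, hη', trace_vec] at h1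
      rw [hS', h1]
      refine Finset.prod_congr rfl fun i _ => ?_
      rw [mul_assoc (q i)]

end Pool.Agent.H16NC
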