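import Mathlib
import Pool.Agent.H16NC.Gen3
import Pool.Agent.H16NC.Pair

/-!
Vanishing of the diagonal entry.
-/

set_option autoImplicit false

namespace Pool.Agent.H16NC

open Matrix Polynomial Pool.Agent.TH82.NC Pool.Agent.H552R3.PC

section HH

variable {K : Type*} [Field K] {σ : Type*} {ι κ : Type*} [Fintype ι] [DecidableEq ι] [Fintype κ]
  [DecidableEq κ] {L : Type*} [Field L] [Algebra K L] {R : Type*} [CommRing R] [Algebra K R]
  [Algebra L R] [IsScalarTower K L R]
  (M : σ → Matrix κ κ K) (ξ η : σ → κ → K) (f : FreeAlgebra K σ) (k0 : κ)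

/-- The linear functional. -/
noncomputable def HH (Y : σ → Matrix ι ι R) : Matrix ι ι L →ₗ[L] R where
  toFun D := ∑ p, ∑ q, D p q • hh M ξ η f k0 Y (Pi.single p 1) (Pi.single q 1)
  map_add' D D' := by
    simp only [Matrix.add_apply, add_smul, Finset.sum_add_distrib]
  map_smul' c D := by
    simp only [Matrix.smul_apply, smul_eq_mul, mul_smul, Finset.smul_sum, RingHom.id_apply]

theorem HH_apply (Y : σ → Matrix ι ι R) (D : Matrix ι ι L) :
    HH M ξ η f k0 Y D =
      ∑ p, ∑ q, D p q • hh M ξ η f k0 Y (Pi.single p 1) (Pi.single q 1) := rfl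

theorem HH_vec (Y : σ → Matrix ι ι R) (x y : ι → L) : HH M ξ η f k0 Y (Matrix.vecMulVec x y) =
    hh M ξ η f k0 Y (fun p => algebraMap L R (x p)) (fun p => algebraMap L R (y p)) := by
  rw [HH_apply, hh_lin]
  refine Finset.sum_congr rfl fun p _ => Finset.sum_congr rfl fun q _ => ?_
  rw [Matrix.vecMulVec_apply, ← map_mul, algebraMap_smul]

theorem HH_conj (g g' : Matrix ι ι L) (hg : g' * g = 1) (hg' : g * g' = 1)
    (Y : σ → Matrix ι ι R) (D : Matrix ι ι L) :
    HH M ξ η f k0 (fun i => g.map (algebraMap L R) * Y i * g'.map (algebraMap L R))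
      (g * D * g') = HH M ξ η f k0 Y D := by
  set G := g.map (algebraMap L R) with hG
  set G' := g'.map (algebraMap L R) with hG'
  have h1 : G' * G = 1 := by
    rw [hG, hG', ← Matrix.map_mul, hg, Matrix.map_one _ (map_zero _) (map_one _)]
  have h2 : G * G' = 1 := by
    rw [hG, hG', ← Matrix.map_mul, hg', Matrix.map_one _ (map_zero _) (map_one _)]
  let S : Matrix ι ι L →ₗ[L] R := (HH M ξ η f k0 (fun i => G * Y i * G')).comp
    ((LinearMap.mulRight L g').comp (LinearMap.mulLeft L g))
  have hS : S = HH M ξ η f k0 Y := by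
    apply lin_ext
    intro x y
    change HH M ξ η f k0 (fun i => G * Y i * G') (g * Matrix.vecMulVec x y * g') =
      HH M ξ η f k0 Y (Matrix.vecMulVec x y)
    rw [Matrix.mul_vecMulVec, Matrix.vecMulVec_mul, HH_vec, HH_vec,
      ← hh_conj M ξ η f k0 G G' h1 h2 Y (fun p => algebraMap L R (x p))
        (fun p => algebraMap L R (y p))]
    congr 1
    · funext p
      simp only [Matrix.mulVec, dotProduct, map_sum, map_mul, hG, Matrix.map_apply]
    · funext p
      simp only [Matrix.vecMul, dotProduct, map_sum, map_mul, hG', Matrix.map_apply]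
  exact LinearMap.congr_fun hS D

theorem HH_map (φ : R →ₐ[L] R) (Y : σ → Matrix ι ι R) (D : Matrix ι ι L) :
    φ (HH M ξ η f k0 Y D) = HH M ξ η f k0 (fun i => (Y i).map φ) D := by
  rw [HH_apply, HH_apply]
  have h1 : ∀ p q, φ (hh M ξ η f k0 Y (Pi.single p 1) (Pi.single q 1)) =
      hh M ξ η f k0 (fun i => (Y i).map φ) (Pi.single p 1) (Pi.single q 1) := by
    intro p q
    have h2 := hh_map M ξ η f k0 (φ.restrictScalars K) Y (Pi.single p 1) (Pi.single q 1)
    have h3 : ∀ p : ι, (fun p' => (φ.restrictScalars K) ((Pi.single p 1 : ι → R) p')) =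
        Pi.single p 1 := by
      intro p
      funext p'
      rw [Pi.single_apply]
      split_ifs <;> simp
    rw [h3, h3] at h2
    exact h2
  rw [map_sum]
  refine Finset.sum_congr rfl fun p _ => ?_
  rw [map_sum]
  refine Finset.sum_congr rfl fun q _ => ?_
  rw [map_smul, h1]

end HH

section Main

variable {K : Type*} [Field K] {σ : Type*} {κ : Type*} [Fintype κ] [DecidableEq κ]
  {a : ℕ} [NeZero a]

theorem hh_zero_L [Infinite K] {L : Type*} [Field L] [IsAlgClosed L] [Algebra K L]
    (ψ : AddChar (ZMod a) L) (hψ : ψ.IsPrimitive)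
    (haL : (a : L) ≠ 0) (hψ1 : ∀ x, ψ x = 1 → x = 0) (ha3 : 3 ≤ a)
    (M : σ → Matrix κ κ K) (ξ η : σ → κ → K) (f : FreeAlgebra K σ) (k0 : κ) (N : ℕ)
    (hN : 0 < N) (hNL : (N : L) ≠ 0)
    (h : ∀ (Y : σ → Matrix (ZMod a) (ZMod a) K) (x y : ZMod a → K),
      (T0 M ξ η f Y x y).charpoly ∣
        Polynomial.X ^ N - Polynomial.C ((hh M ξ η f k0 Y x y) ^ N))
    (Y : σ → Matrix (ZMod a) (ZMod a) L) (x y : ZMod a → L) :
    hh M ξ η f k0 Y x y = 0 := by
  choose c hc using fun i => exists_coeff ψ hψ haL (Y i)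
  obtain ⟨I, hI⟩ := gen_factor M ξ η f k0 N hN hNL h (L := L)
  set T := TT (L := L) M ξ η f (Yp ψ c) with hT
  set H := HH (L := L) M ξ η f k0 (Yp ψ c) with hH
  have hcomm : ∀ (φ : L[X][X] →ₐ[L] L[X][X]) (g g' : Matrix (ZMod a) (ZMod a) L)
      (hg : g' * g = 1) (hg' : g * g' = 1) (χ χ' : ZMod a × ZMod a → L)
      (h1 : ∀ i n, φ (C (C (c i n) * X ^ n.1.val) * X ^ n.2.val : L[X][X]) =
        χ n • (C (C (c i n) * X ^ n.1.val) * X ^ n.2.val : L[X][X]))
      (h2 : ∀ n, g * W ψ n * g' = χ n • W ψ n) (h3 : ∀ n, g' * W ψ n * g = χ' n • W ψ n)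
      (n : ZMod a × ZMod a),
      (T (W ψ n)).map φ * g.map (algebraMap L L[X][X]) =
        χ' n • (g.map (algebraMap L L[X][X]) * T (W ψ n)) ∧
      φ (H (W ψ n)) = χ' n • H (W ψ n) := by
    intro φ g g' hg hg' χ χ' h1 h2 h3 n
    have e1 : (fun i => (Yp ψ c i).map φ) = fun i => g.map (algebraMap L L[X][X]) * Yp ψ c i *
        g'.map (algebraMap L L[X][X]) := by
      funext i
      exact Yp_conj ψ c i φ g g' χ (h1 i) h2
    have e2 : W ψ n = g * (g' * W ψ n * g) * g' := by
      calc W ψ n = (g * g') * W ψ n * (g * g') := by rw [hg', Matrix.one_mul, Matrix.mul_one]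
        _ = _ := by simp only [Matrix.mul_assoc]
    have e3 : (T (W ψ n)).map φ = g.map (algebraMap L L[X][X]) * T (g' * W ψ n * g) *
        g'.map (algebraMap L L[X][X]) := by
      rw [hT, TT_map, e1, ← TT_conj M ξ η f g g' hg hg', ← e2]
    have e4 : g'.map (algebraMap L L[X][X]) * g.map (algebraMap L L[X][X]) = 1 := by
      rw [← Matrix.map_mul, hg, Matrix.map_one _ (map_zero _) (map_one _)]
    have e5 : φ (H (W ψ n)) = H (g' * W ψ n * g) := by
      rw [hH, HH_map, e1, ← HH_conj M ξ η f k0 g g' hg hg' (Yp ψ c) (g' * W ψ n * g), ← e2]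
    constructor
    · rw [e3, h3, map_smul, Matrix.mul_assoc, e4, Matrix.mul_one, Matrix.mul_smul]
    · rw [e5, h3, map_smul]
  have hpow : ∀ (z : ZMod a) (k : ℕ), ψ z ^ k = ψ (k * z) := by
    intro z k
    rw [← AddChar.map_nsmul_eq_pow, nsmul_eq_mul]
  have hO := fun n => hcomm (scO (ψ (-1))) (W ψ (1, 0)) (W ψ (-1, 0))
        (by rw [W_mul]; simp; exact W_zero ψ) (by rw [W_mul]; simp; exact W_zero ψ)
        (fun n => ψ (-n.2)) (fun n => ψ n.2)
        (by
          intro i n
          rw [map_mul, map_pow, scO_C, scO_X, mul_pow, ← C_pow, ← C_pow, hpow,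
            ZMod.natCast_zmod_val, mul_neg_one, Algebra.smul_def]
          have : algebraMap L L[X][X] (ψ (-n.2)) = C (C (ψ (-n.2))) := rfl
          rw [this]
          ring)
        (by
          intro n
          rw [W_mul, Matrix.smul_mul, W_mul, smul_smul, ← AddChar.map_add_eq_mul]
          congr 2
          · simp
          · ext <;> simp)
        (by
          intro n
          rw [W_mul, Matrix.smul_mul, W_mul, smul_smul, ← AddChar.map_add_eq_mul]
          congr 2
          · simp
          · ext <;> simp) n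
  have hIn := fun n => hcomm (scI (ψ 1)) (W ψ (0, 1)) (W ψ (0, -1))
        (by rw [W_mul]; simp; exact W_zero ψ) (by rw [W_mul]; simp; exact W_zero ψ)
        (fun n => ψ n.1) (fun n => ψ (-n.1))
        (by
          intro i n
          rw [map_mul, map_pow, scI_C, scI_X, Polynomial.mul_comp, Polynomial.C_comp,
            Polynomial.pow_comp, Polynomial.X_comp, mul_pow, ← C_pow, hpow,
            ZMod.natCast_zmod_val, mul_one, Algebra.smul_def]
          have : algebraMap L L[X][X] (ψ n.1) = C (C (ψ n.1)) := rfl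
          rw [this]
          simp only [map_mul]
          ring)
        (by
          intro n
          rw [W_mul, Matrix.smul_mul, W_mul, smul_smul, ← AddChar.map_add_eq_mul]
          congr 2
          · simp
          · ext <;> simp)
        (by
          intro n
          rw [W_mul, Matrix.smul_mul, W_mul, smul_smul, ← AddChar.map_add_eq_mul]
          congr 2
          · simp
          · ext <;> simp) n
  have hzero : H = 0 := by
    refine heis_pair ψ hψ haL hψ1 ha3 T H ?_ ?_ ?_ ?_ I id (fun _ _ _ _ h => h) ?_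
    · intro n k l
      have h2 := congrArg (fun Q : Matrix (ZMod a) (ZMod a) L[X][X] =>
        Q.map (fun p => (p.coeff l).coeff k)) (hO n).1
      simp only [cf_mul, cf_smul, cf_mul'] at h2
      rw [← h2, ← Matrix.smul_mul]
      congr 1
      ext p q
      rw [Matrix.smul_apply, Matrix.map_apply, Matrix.map_apply, Matrix.map_apply, scO_coeff,
        smul_eq_mul, hpow, mul_neg_one]
    · intro n k l
      have h2 := congrArg (fun Q : Matrix (ZMod a) (ZMod a) L[X][X] =>
        Q.map (fun p => (p.coeff l).coeff k)) (hIn n).1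
      simp only [cf_mul, cf_smul, cf_mul'] at h2
      rw [← h2, ← Matrix.smul_mul]
      congr 1
      ext p q
      rw [Matrix.smul_apply, Matrix.map_apply, Matrix.map_apply, Matrix.map_apply, scI_coeff,
        smul_eq_mul, hpow, mul_one]
    · intro n k l
      have h2 := congrArg (fun p : L[X][X] => (p.coeff l).coeff k) (hO n).2
      simp only [scO_coeff, Polynomial.coeff_smul, smul_eq_mul] at h2
      rw [← h2, hpow, mul_neg_one]
    · intro n k l
      have h2 := congrArg (fun p : L[X][X] => (p.coeff l).coeff k) (hIn n).2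
      simp only [scI_coeff, Polynomial.coeff_smul, smul_eq_mul] at h2
      rw [← h2, hpow, mul_one]
    · intro x y
      rw [hT, TT_vec, hH, HH_vec]
      exact hI _ _ _
  have h1 : hh M ξ η f k0 (Yp ψ c) (fun p => algebraMap L L[X][X] (x p))
      (fun p => algebraMap L L[X][X] (y p)) = 0 := by
    rw [← HH_vec, ← hH, hzero, LinearMap.zero_apply]
  let φ1 : L[X][X] →ₐ[L] L := (Polynomial.aeval (1 : L) : L[X] →ₐ[L] L).comp
    ((Polynomial.aeval (1 : L[X]) : L[X][X] →ₐ[L[X]] L[X]).restrictScalars L)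
  have h2 := hh_map M ξ η f k0 (φ1.restrictScalars K) (Yp ψ c)
    (fun p => algebraMap L L[X][X] (x p)) (fun p => algebraMap L L[X][X] (y p))
  rw [h1, map_zero] at h2
  have h3 : (fun i => (Yp ψ c i).map (φ1.restrictScalars K)) = Y := by
    funext i
    rw [← hc i]
    refine Matrix.ext fun p q => ?_
    rw [Matrix.map_apply, Yp, Matrix.sum_apply, Matrix.sum_apply, map_sum]
    refine Finset.sum_congr rfl fun n _ => ?_
    rw [Matrix.smul_apply, Matrix.smul_apply, smul_eq_mul, smul_eq_mul, map_mul, Matrix.map_apply]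
    congr 1
    · simp [φ1]
    · change φ1 (algebraMap L L[X][X] (W ψ n p q)) = W ψ n p q
      rw [AlgHom.commutes]
      rfl
  have h4 : ∀ z : ZMod a → L, (fun p => (φ1.restrictScalars K) (algebraMap L L[X][X] (z p))) =
      z := by
    intro z
    funext p
    change φ1 (algebraMap L L[X][X] (z p)) = z p
    rw [AlgHom.commutes]
    rfl
  rw [h3, h4, h4] at h2
  exact h2.symm

end Main

end Pool.Agent.H16NC
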