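import Mathlib
import Pool.Agent.H16NC.Gen4
import Pool.Agent.H16NC.Gen1
import Pool.Agent.H16NC.Cor1

/-!
Vanishing of the corner block if there is a block of size one.
-/

set_option autoImplicit false

namespace Pool.Agent.H16NC

open Matrix Pool.Agent.R176.NC Pool.Agent.TH82.NC
open Pool.Agent.Results.MP_5d2531_al.BlockTriangular (IsNuCentral coef)

variable {K : Type*} [Field K] {σ : Type*}

theorem T0_zero2 [Infinite K] {κ : Type*} [Fintype κ] [DecidableEq κ] {a : ℕ} [NeZero a]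
    (haK : (a : K) ≠ 0) (ha3 : 3 ≤ a)
    (M : σ → Matrix κ κ K) (ξ η : σ → κ → K) (f : FreeAlgebra K σ) (k0 : κ) (N : ℕ)
    (hN : 0 < N) (hNK : (N : K) ≠ 0)
    (h : ∀ (Y : σ → Matrix (ZMod a) (ZMod a) K) (x y : ZMod a → K),
      (T0 M ξ η f Y x y).charpoly ∣
        Polynomial.X ^ N - Polynomial.C ((hh M ξ η f k0 Y x y) ^ N))
    (Y : σ → Matrix (ZMod a) (ZMod a) K) (x y : ZMod a → K) :
    T0 M ξ η f Y x y = 0 := by
  have hinj := (algebraMap K (AlgebraicClosure K)).injective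
  have haL : (a : AlgebraicClosure K) ≠ 0 := by
    intro h0
    apply haK
    apply hinj
    rw [map_natCast, h0, map_zero]
  have hNL : (N : AlgebraicClosure K) ≠ 0 := by
    intro h0
    apply hNK
    apply hinj
    rw [map_natCast, h0, map_zero]
  obtain ⟨ψ, hψ, hψ1⟩ := exists_char haL
  refine T0_zero haK M ξ η f N (fun Y x y => ?_) Y x y
  have h1 := hh_zero_L ψ hψ haL hψ1 ha3 M ξ η f k0 N hN hNL h
    (fun i => (Y i).map (Algebra.ofId K (AlgebraicClosure K)))
    (fun p => Algebra.ofId K (AlgebraicClosure K) (x p))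
    (fun p => Algebra.ofId K (AlgebraicClosure K) (y p))
  rw [← hh_map] at h1
  have h2 : hh M ξ η f k0 Y x y = 0 := hinj (h1.trans (map_zero _).symm)
  obtain ⟨w, hw⟩ := h Y x y
  rw [h2, zero_pow hN.ne', map_zero, sub_zero] at hw
  have h3 := congrArg (Polynomial.aeval (T0 M ξ η f Y x y)) hw
  rw [map_mul, Matrix.aeval_self_charpoly, zero_mul, map_pow, Polynomial.aeval_X] at h3
  exact h3

theorem cr_zero2 [Infinite K] {κ : Type*} [Fintype κ] [DecidableEq κ] {a : ℕ} (ha3 : 3 ≤ a)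
    (haK : (a : K) ≠ 0) (M : σ → Matrix κ κ K) (f : FreeAlgebra K σ) (k0 : κ) (N : ℕ)
    (hN : 0 < N) (hNK : (N : K) ≠ 0)
    (h : ∀ (Y : σ → Matrix (Fin a) (Fin a) K) (B : σ → Matrix (Fin a) κ K)
      (C : σ → Matrix κ (Fin a) K), (cr Y M B C f).charpoly ∣
        Polynomial.X ^ N - Polynomial.C ((cr M Y C B f k0 k0) ^ N))
    (Y : σ → Matrix (Fin a) (Fin a) K) (B : σ → Matrix (Fin a) κ K)
    (C : σ → Matrix κ (Fin a) K) : cr Y M B C f = 0 := by
  have : NeZero a := ⟨by omega⟩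
  set e : Fin a ≃ ZMod a := (ZMod.finEquiv a).toEquiv with he
  have h1 : ∀ (Y : σ → Matrix (ZMod a) (ZMod a) K) (B : σ → Matrix (ZMod a) κ K)
      (C : σ → Matrix κ (ZMod a) K), (cr Y M B C f).charpoly ∣
        Polynomial.X ^ N - Polynomial.C ((cr M Y C B f k0 k0) ^ N) := by
    intro Y B C
    have h2 := h (fun i => (Y i).submatrix e e) (fun i => (B i).submatrix e id)
      (fun i => (C i).submatrix id e)
    rw [cr_sub, cr_sub_mid] at h2
    have h3 : ((cr Y M B C f).submatrix e e).charpoly = (cr Y M B C f).charpoly :=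
      Matrix.charpoly_reindex e.symm (cr Y M B C f)
    rw [h3] at h2
    exact h2
  have hmap : (fun i => (M i).map (algebraMap K K)) = M := by
    funext i
    ext p q
    simp
  have h2 := cr_zero_aux M f (fun ξ η Y x y => T0_zero2 haK ha3 M ξ η f k0 N hN hNK
    (fun Y x y => by
      have h3 := h1 Y (fun i => Matrix.vecMulVec x (fun c => algebraMap K K (ξ i c)))
        (fun i => Matrix.vecMulVec (fun c => algebraMap K K (η i c)) y)
      rw [T0, hh, hmap]
      exact h3) Y x y)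
    (fun i => (Y i).submatrix e.symm e.symm) (fun i => (B i).submatrix e.symm id)
    (fun i => (C i).submatrix id e.symm)
  rw [cr_sub] at h2
  have h3 : (cr Y M B C f).submatrix e.symm e.symm =
      Matrix.reindexAlgEquiv K K e (cr Y M B C f) := by
    rw [Matrix.coe_reindexAlgEquiv, Matrix.reindex_apply]
  rw [h3] at h2
  exact (map_eq_zero_iff _ (Matrix.reindexAlgEquiv K K e).injective).mp h2

theorem window_zero2 [Infinite K] {n a : ℕ} (hn : n.Prime) (hn2 : n ≠ 2) (hnK : (n : K) ≠ 0)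
    (f : FreeAlgebra K σ) (hcen : IsNuCentral n n f) (P : ℕ → Prop)
    (hper : ∀ q, P (q + n) ↔ P q) (hP0 : P 0) (hPa : P a) (ha3 : 3 ≤ a) (haK : (a : K) ≠ 0)
    (han : a < n)
    (hmin : ∀ q, 0 < q → q < a → ¬ P q)
    (hsink : ∀ p, P p → ∃ s, 0 < s ∧ s < n ∧ P (p + s) ∧ Van f n s)
    (k0 : ℕ) (hak : a ≤ k0) (hkn : k0 < n) (hk1 : P k0) (hk2 : P (k0 + 1))
    (X : σ → Matrix (Fin (n + a)) (Fin (n + a)) K)
    (hX : ∀ i (k l : Fin (n + a)) q, P q → (l : ℕ) < q → q ≤ (k : ℕ) → X i k l = 0)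
    (hXY : ∀ i (k l : Fin a), X i (Fin.natAdd n k) (Fin.natAdd n l) =
      X i (Fin.castLE (by omega) k) (Fin.castLE (by omega) l)) :
    FreeAlgebra.lift K X f = 0 := by
  refine window_zero hn hn2 hnK f hcen P hper hP0 hPa (by omega) han hmin hsink ?_ X hX hXY
  intro m hm Y M hM B C
  subst hm
  have hkm : k0 - a < m := by omega
  have e1 : a + (k0 - a) = k0 := by omega
  exact cr_zero2 ha3 haK M f ⟨k0 - a, hkm⟩ (a + m) (by omega) hnK
    (fun Y B C => corner_dvd hn hnK f hcen P hper hP0 hPa hmin hsink ⟨k0 - a, hkm⟩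
      (by simp only [e1]; exact hk1) (by simp only [e1]; exact hk2) Y M hM B C) Y B C

/-- The explicit case. -/
theorem explicit [Infinite K] {n a : ℕ} (hn : n.Prime) (hn2 : n ≠ 2) (hnK : (n : K) ≠ 0)
    (f : FreeAlgebra K σ) (hcen : IsNuCentral n n f) (ha3 : 3 ≤ a) (haK : (a : K) ≠ 0)
    (han : 2 * a < n) (X : σ → Matrix (Fin (n + a)) (Fin (n + a)) K)
    (hX : ∀ i (k l : Fin (n + a)), (l : ℕ) < (k : ℕ) → ¬ (k : ℕ) < a → ¬ n ≤ (l : ℕ) →
      X i k l = 0)
    (hXY : ∀ i (k l : Fin a), X i (Fin.natAdd n k) (Fin.natAdd n l) =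
      X i (Fin.castLE (by omega) k) (Fin.castLE (by omega) l)) :
    FreeAlgebra.lift K X f = 0 := by
  have hP1 : ∀ q, a ≤ q → q < n → PP n a q := fun q h1 h2 => by
    unfold PP
    rw [Nat.mod_eq_of_lt h2]
    exact Or.inr h1
  refine window_zero2 hn hn2 hnK f hcen (PP n a) (PP_per n a) (PP_zero n a)
    (hP1 a le_rfl (by omega)) ha3 haK (by omega) ?_ (PP_sink hn hn2 hnK f hcen a (by omega) han)
    a le_rfl (by omega) (hP1 a le_rfl (by omega)) (hP1 _ (by omega) (by omega)) X ?_ hXY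
  · intro q h0 h1 h2
    unfold PP at h2
    rw [Nat.mod_eq_of_lt (by omega)] at h2
    omega
  · intro i k l q hq hl hk
    have hk2 := k.2
    apply hX i k l (by omega)
    · intro h1
      unfold PP at hq
      rw [Nat.mod_eq_of_lt (by omega)] at hq
      omega
    · intro h1
      unfold PP at hq
      have h3 : q % n = q - n := by
        rw [Nat.mod_eq_sub_mod (by omega), Nat.mod_eq_of_lt (by omega)]
      rw [h3] at hq
      omega

end Pool.Agent.H16NC
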