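import Mathlib
import Pool.Agent.H16NC.Gen5

/-!
Smaller windows.
-/

set_option autoImplicit false

namespace Pool.Agent.H16NC

open Matrix Pool.Agent.R176.NC Pool.Agent.TH82.NC
open Pool.Agent.Results.MP_5d2531_al.BlockTriangular (IsNuCentral coef)

variable {K : Type*} [Field K] {σ : Type*}

theorem explicit_sub [Infinite K] {n a : ℕ} (hn : n.Prime) (hn2 : n ≠ 2) (hnK : (n : K) ≠ 0)
    (f : FreeAlgebra K σ) (hcen : IsNuCentral n n f) (ha3 : 3 ≤ a) (haK : (a : K) ≠ 0)
    (han : 2 * a < n) (b : ℕ) (hb : 0 < b) (hba : b ≤ a)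
    (X : σ → Matrix (Fin (n + b)) (Fin (n + b)) K)
    (hX : ∀ i (k l : Fin (n + b)), (l : ℕ) < (k : ℕ) → ¬ (k : ℕ) < b → ¬ n ≤ (l : ℕ) →
      X i k l = 0)
    (hXY : ∀ i (k l : Fin b), X i (Fin.natAdd n k) (Fin.natAdd n l) =
      X i (Fin.castLE (by omega) k) (Fin.castLE (by omega) l)) :
    FreeAlgebra.lift K X f = 0 := by
  classical
  let Z : σ → ℕ → ℕ → K := fun i k l => if h : k < n + b ∧ l < n + b then
    X i ⟨k, h.1⟩ ⟨l, h.2⟩ else 0
  have hZX : ∀ i (k l : Fin (n + b)), Z i k l = X i k l := by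
    intro i k l
    simp only [Z]
    rw [dif_pos ⟨k.2, l.2⟩]
  have hZ0 : ∀ i (k l : ℕ), l < k → ¬ k < b → ¬ n ≤ l → Z i k l = 0 := by
    intro i k l h1 h2 h3
    simp only [Z]
    split_ifs with h
    · exact hX i ⟨k, h.1⟩ ⟨l, h.2⟩ h1 h2 h3
    · rfl
  have hZY : ∀ i (k l : ℕ), k < b → l < b → Z i (n + k) (n + l) = Z i k l := by
    intro i k l hk hl
    have h1 := hXY i ⟨k, hk⟩ ⟨l, hl⟩
    simp only [Z]
    rw [dif_pos ⟨by omega, by omega⟩, dif_pos ⟨by omega, by omega⟩]
    exact h1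
  let W : σ → ℕ → ℕ → K := fun i k l => if n ≤ k ∧ n ≤ l then Z i (k - n) (l - n) else
    if k < n + b ∧ l < n + b then Z i k l else 0
  have hWin : ∀ i (k l : ℕ), k < n + b → l < n + b → W i k l = Z i k l := by
    intro i k l hk hl
    simp only [W]
    by_cases h1 : n ≤ k ∧ n ≤ l
    · rw [if_pos h1, ← hZY i (k - n) (l - n) (by omega) (by omega)]
      congr 1 <;> omega
    · rw [if_neg h1, if_pos ⟨hk, hl⟩]
  have hWsh : ∀ i (k l : ℕ), W i (n + k) (n + l) = Z i k l := by
    intro i k l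
    simp only [W]
    rw [if_pos ⟨by omega, by omega⟩]
    congr 1 <;> omega
  set X' : σ → Matrix (Fin (n + a)) (Fin (n + a)) K := fun i => Matrix.of fun k l => W i k l
    with hX'
  have h1 : FreeAlgebra.lift K X' f = 0 := by
    refine explicit hn hn2 hnK f hcen ha3 haK han X' ?_ ?_
    · intro i k l hlk hk hl
      simp only [hX', Matrix.of_apply, W]
      rw [if_neg (by omega)]
      split_ifs with h
      · exact hZ0 i k l hlk (by omega) hl
      · rfl
    · intro i k l
      have hk := k.2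
      have hl := l.2
      simp only [hX', Matrix.of_apply, Fin.val_natAdd, Fin.val_castLE]
      rw [hWsh, hWin i k l (by omega) (by omega)]
  let β : Fin (n + a) → ℕ := fun x => if (x : ℕ) < n + b then 0 else 1
  let e : Fin (n + b) → Fin (n + a) := Fin.castLE (by omega)
  have hei : Function.Injective e := Fin.castLE_injective _
  have he : ∀ x, β x = 0 ↔ ∃ j, e j = x := by
    intro x
    constructor
    · intro h
      have h2 : (x : ℕ) < n + b := by
        by_contra h3
        simp only [β] at h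
        rw [if_neg h3] at h
        exact absurd h one_ne_zero
      exact ⟨⟨x, h2⟩, by ext; rfl⟩
    · rintro ⟨j, rfl⟩
      simp only [β, e, Fin.val_castLE]
      rw [if_pos j.2]
  obtain ⟨-, h2⟩ := win' β 0 e hei he X' (by
    intro i k l hkl
    have h3 : (l : ℕ) < n + b ∧ ¬ (k : ℕ) < n + b := by
      simp only [β] at hkl
      split_ifs at hkl with h4 h5 h5
      · omega
      · exact ⟨h4, h5⟩
      · omega
      · omega
    simp only [hX', Matrix.of_apply, W]
    by_cases h4 : n ≤ (k : ℕ) ∧ n ≤ (l : ℕ)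
    · rw [if_pos h4]
      have := k.2
      exact hZ0 i _ _ (by omega) (by omega) (by omega)
    · rw [if_neg h4, if_neg (by omega)]) f
  have h3 : (fun i => (X' i).submatrix e e) = X := by
    funext i
    ext k l
    rw [Matrix.submatrix_apply]
    simp only [hX', Matrix.of_apply, e, Fin.val_castLE]
    rw [hWin i k l k.2 l.2, hZX]
  rw [h3] at h2
  rw [← h2, h1]
  rfl

theorem window_one [Infinite K] {n a : ℕ} (hn : n.Prime) (hn2 : n ≠ 2) (hnK : (n : K) ≠ 0)
    (f : FreeAlgebra K σ) (hcen : IsNuCentral n n f) (ha3 : 3 ≤ a) (haK : (a : K) ≠ 0)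
    (han : 2 * a < n) (A : σ → Matrix (Fin (n + 1)) (Fin (n + 1)) K)
    (hA : ∀ i a b, b < a → A i a b = 0)
    (hAA : ∀ i, A i 0 0 = A i (Fin.last n) (Fin.last n)) : FreeAlgebra.lift K A f = 0 := by
  refine explicit_sub hn hn2 hnK f hcen ha3 haK han 1 one_pos (by omega) A
    (fun i k l h1 _ _ => hA i k l h1) ?_
  intro i k l
  have e1 : Fin.natAdd n k = Fin.last n := by
    ext
    have := k.2
    rw [Fin.val_natAdd, Fin.val_last]
    omega
  have e2 : Fin.natAdd n l = Fin.last n := by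
    ext
    have := l.2
    rw [Fin.val_natAdd, Fin.val_last]
    omega
  have e3 : (Fin.castLE (by omega) k : Fin (n + 1)) = 0 := by
    ext
    have := k.2
    rw [Fin.val_castLE, Fin.val_zero]
    omega
  have e4 : (Fin.castLE (by omega) l : Fin (n + 1)) = 0 := by
    ext
    have := l.2
    rw [Fin.val_castLE, Fin.val_zero]
    omega
  rw [e1, e2, e3, e4]
  exact (hAA i).symm

end Pool.Agent.H16NC
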