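import Mathlib
import Pool.Agent.R176.NC.Dich

/-!
Periodic upper triangular arrays and matrices over the ring of power series.
-/

set_option autoImplicit false

namespace Pool.Agent.H16NC

open Matrix Pool.Agent.R176.NC

variable {K : Type*} [Field K] {σ : Type*}

/-- The arrays as elements of the incidence algebra. -/
def IX {n : ℕ} (P : σ → ℕ → ℕ → K) (hP : Per n P) (i : σ) : IncidenceAlgebra K ℕ where
  toFun := P i
  eq_zero_of_not_le' := fun a b h => hP.1 i a b (not_le.mp h)

/-- The value. -/
noncomputable def V {n : ℕ} (P : σ → ℕ → ℕ → K) (hP : Per n P) (f : FreeAlgebra K σ) :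
    IncidenceAlgebra K ℕ := FreeAlgebra.lift K (IX P hP) f

theorem IX_apply {n : ℕ} (P : σ → ℕ → ℕ → K) (hP : Per n P) (i : σ) (a b : ℕ) :
    IX P hP i a b = P i a b := rfl

/-- The matrices over the ring of power series. -/
noncomputable def PX (n : ℕ) (P : σ → ℕ → ℕ → K) (i : σ) : Matrix (Fin n) (Fin n) (PowerSeries K) :=
  Matrix.of fun k l => PowerSeries.mk fun s => P i k (l + n * s)

theorem V_alg {n : ℕ} (P : σ → ℕ → ℕ → K) (hP : Per n P) (c : K) (a b : ℕ) :
    V P hP (algebraMap K (FreeAlgebra K σ) c) a b = if a = b then c else 0 := by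
  rw [V, AlgHom.commutes, Algebra.algebraMap_eq_smul_one, IncidenceAlgebra.constSMul_apply,
    IncidenceAlgebra.one_apply, smul_eq_mul, mul_ite, mul_one, mul_zero]

theorem V_mul {n : ℕ} (P : σ → ℕ → ℕ → K) (hP : Per n P) (f g : FreeAlgebra K σ) (a b : ℕ) :
    V P hP (f * g) a b = ∑ x ∈ Finset.Icc a b, V P hP f a x * V P hP g x b := by
  rw [V, map_mul, IncidenceAlgebra.mul_apply]
  rfl

theorem V_add {n : ℕ} (P : σ → ℕ → ℕ → K) (hP : Per n P) (f g : FreeAlgebra K σ) (a b : ℕ) :
    V P hP (f + g) a b = V P hP f a b + V P hP g a b := by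
  rw [V, map_add]
  rfl

theorem V_ι {n : ℕ} (P : σ → ℕ → ℕ → K) (hP : Per n P) (i : σ) (a b : ℕ) :
    V P hP (FreeAlgebra.ι K i) a b = P i a b := by
  rw [V, FreeAlgebra.lift_ι_apply]
  rfl

theorem V_low {n : ℕ} (P : σ → ℕ → ℕ → K) (hP : Per n P) (f : FreeAlgebra K σ) (a b : ℕ)
    (h : b < a) : V P hP f a b = 0 :=
  IncidenceAlgebra.apply_eq_zero_of_not_le (not_le.mpr h) _

theorem V_per {n : ℕ} (P : σ → ℕ → ℕ → K) (hP : Per n P) (f : FreeAlgebra K σ) (a b : ℕ) :
    V P hP f (a + n) (b + n) = V P hP f a b := by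
  induction f using FreeAlgebra.induction generalizing a b with
  | grade0 c =>
    rw [V_alg, V_alg]
    simp only [Nat.add_right_cancel_iff]
  | grade1 i => rw [V_ι, V_ι, hP.2]
  | mul f g hf hg =>
    rw [V_mul, V_mul, ← Finset.map_add_right_Icc, Finset.sum_map]
    refine Finset.sum_congr rfl fun x _ => ?_
    rw [addRightEmbedding_apply, hf, hg]
  | add f g hf hg => rw [V_add, V_add, hf, hg]

theorem V_per' {n : ℕ} (P : σ → ℕ → ℕ → K) (hP : Per n P) (f : FreeAlgebra K σ) (a b t : ℕ) :
    V P hP f (a + n * t) (b + n * t) = V P hP f a b := by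
  induction t with
  | zero => simp
  | succ t ih => rw [Nat.mul_succ, ← add_assoc, ← add_assoc, V_per, ih]

/-- Windows. -/
theorem V_win {n : ℕ} (P : σ → ℕ → ℕ → K) (hP : Per n P) (N p : ℕ) (f : FreeAlgebra K σ)
    (x y : Fin N) :
    FreeAlgebra.lift K (fun i => (Matrix.of fun k l : Fin N => P i (p + k) (p + l) :
      Matrix (Fin N) (Fin N) K)) f x y = V P hP f (p + x) (p + y) := by
  induction f using FreeAlgebra.induction generalizing x y with
  | grade0 c =>
    rw [AlgHom.commutes, Matrix.algebraMap_matrix_apply, V_alg]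
    simp only [Nat.add_left_cancel_iff, Fin.val_inj, Algebra.algebraMap_self, RingHom.id_apply]
  | grade1 i =>
    rw [FreeAlgebra.lift_ι_apply, V_ι]
    rfl
  | mul f g hf hg =>
    rw [map_mul, mul_apply, V_mul]
    simp only [hf, hg]
    rw [Fin.sum_univ_eq_sum_range (fun z => V P hP f (p + x) (p + z) * V P hP g (p + z) (p + y)) N]
    have h1 : ∑ z ∈ Finset.range N, V P hP f (p + x) (p + z) * V P hP g (p + z) (p + y) =
        ∑ r ∈ (Finset.range N).map (addLeftEmbedding p),
          V P hP f (p + x) r * V P hP g r (p + y) := by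
      rw [Finset.sum_map]
      rfl
    rw [h1]
    symm
    apply Finset.sum_subset
    · intro r hr
      rw [Finset.mem_Icc] at hr
      rw [Finset.mem_map]
      have := y.2
      exact ⟨r - p, by rw [Finset.mem_range]; omega, by
        rw [addLeftEmbedding_apply]; omega⟩
    · intro r _ hr
      rw [Finset.mem_Icc, not_and_or, not_le, not_le] at hr
      rcases hr with h | h
      · rw [V_low P hP f _ _ h, zero_mul]
      · rw [V_low P hP g _ _ h, mul_zero]
  | add f g hf hg => rw [map_add, Matrix.add_apply, hf, hg, V_add]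

theorem sum_blocks {M : Type*} [AddCommMonoid M] (n s : ℕ) (h : ℕ → M) :
    ∑ i ∈ Finset.range s, ∑ m : Fin n, h (m + n * i) = ∑ x ∈ Finset.range (n * s), h x := by
  induction s with
  | zero => simp
  | succ s ih =>
    rw [Finset.sum_range_succ, ih, Nat.mul_succ, Finset.sum_range_add,
      Fin.sum_univ_eq_sum_range (fun m => h (m + n * s)) n]
    congr 1
    refine Finset.sum_congr rfl fun x _ => ?_
    rw [add_comm]

theorem dict {n : ℕ} (P : σ → ℕ → ℕ → K) (hP : Per n P) (f : FreeAlgebra K σ) (k l : Fin n)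
    (s : ℕ) : PowerSeries.coeff s (FreeAlgebra.lift K (PX n P) f k l) =
      V P hP f k (l + n * s) := by
  induction f using FreeAlgebra.induction generalizing k l s with
  | grade0 c =>
    rw [AlgHom.commutes, Matrix.algebraMap_matrix_apply, V_alg]
    have hk := k.2
    by_cases h1 : k = l
    · rw [if_pos h1]
      by_cases h2 : s = 0
      · subst h1 h2
        simp [PowerSeries.algebraMap_apply]
      · rw [if_neg]
        · simp [PowerSeries.algebraMap_apply, PowerSeries.coeff_C, h2]
        · intro h3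
          have := Nat.mul_pos (n.pos_of_ne_zero (by omega)) (Nat.pos_of_ne_zero h2)
          rw [h1] at h3
          omega
    · rw [if_neg h1, map_zero, if_neg]
      intro h3
      apply h1
      ext
      rcases Nat.eq_zero_or_pos s with h2 | h2
      · subst h2
        omega
      · have := Nat.le_mul_of_pos_right n h2
        omega
  | grade1 i =>
    rw [FreeAlgebra.lift_ι_apply, V_ι, PX, Matrix.of_apply, PowerSeries.coeff_mk]
  | mul f g hf hg =>
    rw [map_mul, mul_apply, map_sum, V_mul]
    simp only [PowerSeries.coeff_mul, hf, hg]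
    have h1 : ∀ m : Fin n, ∑ p ∈ Finset.HasAntidiagonal.antidiagonal s,
        V P hP f k (m + n * p.1) * V P hP g m (l + n * p.2) =
        ∑ i ∈ Finset.range (s + 1),
          V P hP f k (m + n * i) * V P hP g (m + n * i) (l + n * s) := by
      intro m
      rw [Finset.Nat.sum_antidiagonal_eq_sum_range_succ
        (fun i j => V P hP f k (m + n * i) * V P hP g m (l + n * j))]
      refine Finset.sum_congr rfl fun i hi => ?_
      rw [Finset.mem_range, Nat.lt_succ_iff] at hi
      rw [← V_per' P hP g m (l + n * (s - i)) i]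
      congr 2
      rw [add_assoc, ← Nat.mul_add, Nat.sub_add_cancel hi]
    simp only [h1]
    rw [Finset.sum_comm, sum_blocks n (s + 1)
      (fun r => V P hP f k r * V P hP g r (l + n * s))]
    symm
    apply Finset.sum_subset
    · intro r hr
      rw [Finset.mem_Icc] at hr
      rw [Finset.mem_range, Nat.mul_succ]
      have := l.2
      omega
    · intro r _ hr
      rw [Finset.mem_Icc, not_and_or, not_le, not_le] at hr
      rcases hr with h | h
      · rw [V_low P hP f _ _ h, zero_mul]
      · rw [V_low P hP g _ _ h, mul_zero]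
  | add f g hf hg => rw [map_add, Matrix.add_apply, map_add, hf, hg, V_add]

end Pool.Agent.H16NC
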