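import Mathlib
import Pool.Agent.H16NC.It1
import Pool.Agent.R176.NC.Up

/-!
The leading term along the Iwahori filtration.
-/

set_option autoImplicit false

namespace Pool.Agent.H16NC

open Matrix Pool.Agent.R176.NC

variable {K : Type*} [Field K] {σ : Type*}

theorem lift_map' {ι : Type*} [Fintype ι] [DecidableEq ι] {R R' : Type*} [CommRing R]
    [Algebra K R] [CommRing R'] [Algebra K R'] (φ : R →ₐ[K] R') (Y : σ → Matrix ι ι R)
    (f : FreeAlgebra K σ) : (FreeAlgebra.lift K Y f).map φ =
      FreeAlgebra.lift K (fun i => (Y i).map φ) f := by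
  have h : (φ.mapMatrix (m := ι)).comp (FreeAlgebra.lift K Y) =
      FreeAlgebra.lift K (fun i => (Y i).map φ) := by
    apply FreeAlgebra.hom_ext
    funext i
    simp
  rw [← h]
  rfl

/-- Transfer of a coefficient of the characteristic polynomial to all commutative algebras. -/
theorem coeff_all [Infinite K] {n : ℕ} (f : FreeAlgebra K σ) (i : ℕ)
    (h : ∀ X : σ → Matrix (Fin n) (Fin n) K, (FreeAlgebra.lift K X f).charpoly.coeff i = 0)
    {R : Type*} [CommRing R] [Algebra K R] (X : σ → Matrix (Fin n) (Fin n) R) :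
    (FreeAlgebra.lift K X f).charpoly.coeff i = 0 := by
  let G := MvPolynomial (σ × Fin n × Fin n) K
  let Xg : σ → Matrix (Fin n) (Fin n) G := fun i => Matrix.of fun p q => MvPolynomial.X (i, p, q)
  have hG : (FreeAlgebra.lift K Xg f).charpoly.coeff i = 0 := by
    apply MvPolynomial.funext
    intro v
    let φ : G →ₐ[K] K := MvPolynomial.aeval v
    have h1 := h (fun i => (Xg i).map φ)
    rw [← lift_map'] at h1
    have h2 : ((FreeAlgebra.lift K Xg f).map φ).charpoly =
        (FreeAlgebra.lift K Xg f).charpoly.map φ.toRingHom :=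
      Matrix.charpoly_map _ φ.toRingHom
    rw [h2, Polynomial.coeff_map] at h1
    rw [map_zero]
    have h3 : ∀ z : G, φ.toRingHom z = MvPolynomial.eval v z := by
      intro z
      change MvPolynomial.aeval v z = _
      rw [MvPolynomial.aeval_eq_eval]
    rw [h3] at h1
    exact h1
  let φ : G →ₐ[K] R := MvPolynomial.aeval (fun p => X p.1 p.2.1 p.2.2)
  have e1 : (fun i => (Xg i).map φ) = X := by
    funext i
    ext1 p q
    exact MvPolynomial.aeval_X _ (i, p, q)
  have h2 : ((FreeAlgebra.lift K Xg f).map φ).charpoly =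
      (FreeAlgebra.lift K Xg f).charpoly.map φ.toRingHom :=
    Matrix.charpoly_map _ φ.toRingHom
  rw [lift_map', e1] at h2
  rw [h2, Polynomial.coeff_map, hG, map_zero]

theorem charpoly_smul_comp {R : Type*} [CommRing R] {n : ℕ} (a : R)
    (G : Matrix (Fin n) (Fin n) R) :
    ((a • G).charpoly).comp (Polynomial.C a * Polynomial.X) = Polynomial.C (a ^ n) * G.charpoly := by
  have h1 : ((a • G).charpoly).comp (Polynomial.C a * Polynomial.X) =
      (((a • G).charmatrix).map
        (Polynomial.compRingHom (Polynomial.C a * Polynomial.X))).det := by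
    exact RingHom.map_det (Polynomial.compRingHom (Polynomial.C a * Polynomial.X))
      ((a • G).charmatrix)
  have h2 : ((a • G).charmatrix).map (Polynomial.compRingHom (Polynomial.C a * Polynomial.X)) =
      Polynomial.C a • G.charmatrix := by
    ext1 i j
    rw [Matrix.map_apply, Matrix.smul_apply, smul_eq_mul]
    by_cases h : i = j
    · subst h
      rw [charmatrix_apply_eq, charmatrix_apply_eq, map_sub]
      simp [Polynomial.coe_compRingHom]
      ring
    · rw [charmatrix_apply_ne _ _ _ h, charmatrix_apply_ne _ _ _ h, map_neg]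
      simp [Polynomial.coe_compRingHom]
  rw [h1, h2, Matrix.det_smul, Fintype.card_fin, ← Polynomial.C_pow]
  rfl

theorem form_of_coeff {R : Type*} [CommRing R] [Nontrivial R] {n : ℕ} (p : Polynomial R)
    (hp : p.Monic) (hn : p.natDegree = n) (hn0 : 0 < n) (h : ∀ i, 0 < i → i < n → p.coeff i = 0) :
    p = Polynomial.X ^ n + Polynomial.C (p.coeff 0) := by
  ext i
  rw [Polynomial.coeff_add, Polynomial.coeff_X_pow, Polynomial.coeff_C]
  rcases Nat.lt_trichotomy i n with h1 | h1 | h1
  · rcases Nat.eq_zero_or_pos i with h2 | h2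
    · subst h2
      rw [if_neg (by omega), if_pos rfl, zero_add]
    · rw [h i h2 h1, if_neg (by omega), if_neg (by omega), add_zero]
  · subst h1
    rw [if_pos rfl, if_neg (by omega), add_zero, ← hn]
    exact hp.coeff_natDegree
  · rw [if_neg (by omega), if_neg (by omega), add_zero]
    exact Polynomial.coeff_eq_zero_of_natDegree_lt (by omega)

/-- The leading term. -/
theorem leading [Infinite K] {n : ℕ} (hodd : Odd n) (f : FreeAlgebra K σ)
    (hch : ∀ X : σ → Matrix (Fin n) (Fin n) K,
      ∃ c : K, (FreeAlgebra.lift K X f).charpoly = Polynomial.X ^ n - Polynomial.C c)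
    (P : σ → ℕ → ℕ → K) (hP : Per n P) (j : ℕ)
    (hV : ∀ a b, b < a + n * j → V P hP f a b = 0) :
    ∏ a : Fin n, (Polynomial.X - Polynomial.C (V P hP f a (a + n * j))) =
      Polynomial.X ^ n - Polynomial.C (∏ a : Fin n, V P hP f a (a + n * j)) := by
  classical
  have hn0 : 0 < n := hodd.pos
  set F := FreeAlgebra.lift K (PX n P) f with hF
  have hdvd : ∀ k l : Fin n, ∃ g : PowerSeries K, F k l = PowerSeries.X ^ j * g := by
    intro k l
    have h1 : (PowerSeries.X : PowerSeries K) ^ j ∣ F k l := by
      rw [PowerSeries.X_pow_dvd_iff]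
      intro s hs
      rw [hF, dict P hP f k l s]
      apply hV
      have h2 : n * (s + 1) ≤ n * j := Nat.mul_le_mul_left n hs
      rw [Nat.mul_succ] at h2
      have := l.2
      omega
    exact h1
  choose G hG using hdvd
  have hG0 : ∀ k l, PowerSeries.constantCoeff (G k l) = V P hP f k (l + n * j) := by
    intro k l
    rw [← dict P hP f k l j, ← hF, hG, PowerSeries.coeff_X_pow_mul', if_pos le_rfl, Nat.sub_self,
      PowerSeries.coeff_zero_eq_constantCoeff_apply]
  set Gm : Matrix (Fin n) (Fin n) (PowerSeries K) := Matrix.of G with hGm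
  have hFG : F = (PowerSeries.X : PowerSeries K) ^ j • Gm := by
    ext1 k l
    rw [Matrix.smul_apply, hGm, Matrix.of_apply, smul_eq_mul, hG]
  have hcF : ∀ i, 0 < i → i < n → F.charpoly.coeff i = 0 := by
    intro i hi hin
    refine coeff_all f i (fun X => ?_) (PX n P)
    obtain ⟨c, hc⟩ := hch X
    rw [hc, Polynomial.coeff_sub, Polynomial.coeff_X_pow, Polynomial.coeff_C, if_neg (by omega),
      if_neg (by omega), sub_zero]
  have hpF := form_of_coeff F.charpoly (Matrix.charpoly_monic F)
    (by rw [Matrix.charpoly_natDegree_eq_dim, Fintype.card_fin]) hn0 hcF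
  have hcomp := charpoly_smul_comp ((PowerSeries.X : PowerSeries K) ^ j) Gm
  rw [← hFG, hpF] at hcomp
  have hXne : ((PowerSeries.X : PowerSeries K) ^ j) ^ n ≠ 0 :=
    pow_ne_zero _ (pow_ne_zero _ PowerSeries.X_ne_zero)
  have hcG : ∀ i, 0 < i → i < n → Gm.charpoly.coeff i = 0 := by
    intro i hi hin
    have h1 := congrArg (fun p => Polynomial.coeff p i) hcomp
    simp only [Polynomial.add_comp, Polynomial.pow_comp, Polynomial.X_comp, Polynomial.C_comp,
      mul_pow, ← Polynomial.C_pow, Polynomial.coeff_add, Polynomial.coeff_C_mul,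
      Polynomial.coeff_X_pow, Polynomial.coeff_C] at h1
    rw [if_neg (by omega), if_neg (by omega), mul_zero, zero_add] at h1
    exact (mul_eq_zero.mp h1.symm).resolve_left hXne
  set G0 : Matrix (Fin n) (Fin n) K := Gm.map PowerSeries.constantCoeff with hG0d
  have hG0a : ∀ k l, G0 k l = V P hP f k (l + n * j) := by
    intro k l
    rw [hG0d, Matrix.map_apply, hGm, Matrix.of_apply, hG0]
  have hc0 : G0.charpoly = Gm.charpoly.map PowerSeries.constantCoeff := Matrix.charpoly_map _ _
  have htri : G0.charpoly = ∏ a : Fin n,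
      (Polynomial.X - Polynomial.C (V P hP f a (a + n * j))) := by
    rw [Matrix.charpoly_of_isUpperTriangular]
    · simp only [hG0a]
    · intro a b hab
      rw [hG0a]
      apply hV
      have : (b : ℕ) < a := hab
      omega
  have hform := form_of_coeff G0.charpoly (Matrix.charpoly_monic G0)
    (by rw [Matrix.charpoly_natDegree_eq_dim, Fintype.card_fin]) hn0 (by
      intro i hi hin
      rw [hc0, Polynomial.coeff_map, hcG i hi hin, map_zero])
  rw [← htri, hform, sub_eq_add_neg, ← Polynomial.C_neg]
  congr 2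
  rw [htri, Polynomial.coeff_zero_eq_eval_zero, Polynomial.eval_prod]
  simp only [Polynomial.eval_sub, Polynomial.eval_X, Polynomial.eval_C, zero_sub]
  rw [Finset.prod_neg, Finset.card_univ, Fintype.card_fin, hodd.neg_one_pow, neg_one_mul]

end Pool.Agent.H16NC
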