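import Mathlib
import Pool.Agent.H16NC.It2

/-!
The order of vanishing along the Iwahori filtration.
-/

set_option autoImplicit false

namespace Pool.Agent.H16NC

open Matrix Pool.Agent.R176.NC

variable {K : Type*} [Field K] {σ : Type*}

/-- `f` vanishes on all windows of size `k` of periodic upper triangular arrays. -/
def Vans (f : FreeAlgebra K σ) (n k : ℕ) : Prop :=
  ∀ P : σ → ℕ → ℕ → K, Per n P → ∀ a : ℕ, FreeAlgebra.lift K (fun i =>
    (Matrix.of fun x y : Fin k => P i (a + x) (a + y) : Matrix (Fin k) (Fin k) K)) f = 0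

theorem vans_iff (f : FreeAlgebra K σ) (n k : ℕ) : Vans f n k ↔
    ∀ P : σ → ℕ → ℕ → K, ∀ hP : Per n P, ∀ a b : ℕ, b < a + k → V P hP f a b = 0 := by
  constructor
  · intro h P hP a b hb
    rcases lt_or_ge b a with h1 | h1
    · exact V_low P hP f a b h1
    · have h2 := congrFun (congrFun (h P hP a) ⟨0, by omega⟩) ⟨b - a, by omega⟩
      rw [V_win P hP] at h2
      simp only [add_zero, Nat.add_sub_cancel' h1] at h2
      exact h2
  · intro h P hP a
    ext x y
    rw [V_win P hP]
    have := y.2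
    exact h P hP _ _ (by omega)

theorem vans_mono (f : FreeAlgebra K σ) (n : ℕ) {k k' : ℕ} (h : k ≤ k') (hv : Vans f n k') :
    Vans f n k := by
  rw [vans_iff] at hv ⊢
  exact fun P hP a b hb => hv P hP a b (by omega)

theorem psi_eq (f : FreeAlgebra K σ) (n k : ℕ) (P : σ → ℕ → ℕ → K) (hP : Per n P) (a : ℕ) :
    psi k f P a = V P hP f a (a + k) := by
  have h := V_win P hP (k + 1) a f 0 (Fin.last k)
  rw [Fin.val_last, Fin.val_zero, add_zero] at h
  exact h

theorem vans_succ (f : FreeAlgebra K σ) (n k : ℕ) (hv : Vans f n k)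
    (h : ∀ P : σ → ℕ → ℕ → K, Per n P → ∀ a, psi k f P a = 0) : Vans f n (k + 1) := by
  rw [vans_iff] at hv ⊢
  intro P hP a b hb
  rcases lt_or_ge b (a + k) with h1 | h1
  · exact hv P hP a b h1
  · have h2 : b = a + k := by omega
    rw [h2, ← psi_eq f n k P hP a]
    exact h P hP a

theorem psi_shift (k : ℕ) (f : FreeAlgebra K σ) (P : σ → ℕ → ℕ → K) (a : ℕ) :
    psi k f (sh P) a = psi k f P (a + 1) := psi_sh k f P a

theorem dichK [Infinite K] {n : ℕ} (hn : n.Prime) (hn2 : n ≠ 2) (hnK : (n : K) ≠ 0)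
    (f : FreeAlgebra K σ)
    (hch : ∀ X : σ → Matrix (Fin n) (Fin n) K,
      ∃ c : K, (FreeAlgebra.lift K X f).charpoly = Polynomial.X ^ n - Polynomial.C c)
    (j : ℕ) (hvan : Vans f n (n * j)) : Vans f n (n * j + 1) ∨
    (∃ ζ : K, IsPrimitiveRoot ζ n ∧ ∀ P : σ → ℕ → ℕ → K, Per n P → ∀ a : ℕ,
      psi (n * j) f P a = ζ ^ a * psi (n * j) f P 0) := by
  classical
  have hodd : Odd n := hn.odd_of_ne_two hn2
  have hn1 := hn.two_le
  have : NeZero n := ⟨hn.ne_zero⟩
  have hprod : ∀ P : σ → ℕ → ℕ → K, Per n P →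
      ∏ a : Fin n, (Polynomial.X - Polynomial.C (psi (n * j) f P a)) =
        Polynomial.X ^ n - Polynomial.C (∏ a : Fin n, psi (n * j) f P a) := by
    intro P hP
    simp only [psi_eq f n (n * j) P hP]
    exact leading hodd f hch P hP j ((vans_iff f n (n * j)).mp hvan P hP)
  have hpow : ∀ P : σ → ℕ → ℕ → K, Per n P → psi (n * j) f P 1 ^ n = psi (n * j) f P 0 ^ n := by
    intro P hP
    have h0 := pow_eq_prod _ (hprod P hP) ⟨0, by omega⟩
    have h1 := pow_eq_prod _ (hprod P hP) ⟨1, by omega⟩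
    exact h1.trans h0.symm
  by_cases hz : ∀ P : σ → ℕ → ℕ → K, Per n P → psi (n * j) f P 0 = 0
  · left
    have hz' : ∀ a : ℕ, ∀ P : σ → ℕ → ℕ → K, Per n P → psi (n * j) f P a = 0 := by
      intro a
      induction a with
      | zero => exact hz
      | succ a ih =>
        intro P hP
        rw [← psi_sh]
        exact ih _ hP.sh
    exact vans_succ f n (n * j) hvan fun P hP a => hz' a P hP
  right
  push Not at hz
  obtain ⟨P₀, hP₀, hne⟩ := hz
  set ζ := psi (n * j) f P₀ 1 / psi (n * j) f P₀ 0 with hζ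
  have hζn : ζ ^ n = 1 := by
    rw [hζ, div_pow, hpow P₀ hP₀, div_self (pow_ne_zero n hne)]
  have hstep : ∀ P : σ → ℕ → ℕ → K, Per n P → psi (n * j) f P 1 = ζ * psi (n * j) f P 0 := by
    intro P hP
    let Q : σ → ℕ → ℕ → K := fun i u v => P i u v - P₀ i u v
    have hL : ∀ t : K, Per n (fun i u v => P₀ i u v + t * Q i u v) := by
      intro t
      refine ⟨fun i a b h => ?_, fun i a b => ?_⟩
      · simp [Q, hP₀.1 i a b h, hP.1 i a b h]
      · simp only [Q, hP₀.2 i a b, hP.2 i a b]
    obtain ⟨p, hp⟩ := psi_line (n * j) f P₀ Q 0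
    obtain ⟨q, hq⟩ := psi_line (n * j) f P₀ Q 1
    have hpq : q ^ n = p ^ n := by
      apply Polynomial.funext
      intro t
      rw [Polynomial.eval_pow, Polynomial.eval_pow, hp, hq]
      exact hpow _ (hL t)
    have e0 : (fun i u v => P₀ i u v + (0 : K) * Q i u v) = P₀ := by
      funext i u v
      simp
    have e1 : (fun i u v => P₀ i u v + (1 : K) * Q i u v) = P := by
      funext i u v
      simp [Q]
    have hp0 := hp 0
    have hp1 := hp 1
    have hq0 := hq 0
    have hq1 := hq 1
    rw [e0] at hp0 hq0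
    rw [e1] at hp1 hq1
    have hpne : p ≠ 0 := by
      rintro rfl
      rw [Polynomial.eval_zero] at hp0
      exact hne hp0.symm
    obtain ⟨u, hu⟩ := (UniqueFactorizationMonoid.pow_dvd_pow_iff_dvd hn.ne_zero).mp (dvd_of_eq hpq.symm)
    have hdeg : q.natDegree = p.natDegree := by
      have := congrArg Polynomial.natDegree hpq
      rw [Polynomial.natDegree_pow, Polynomial.natDegree_pow] at this
      exact Nat.eq_of_mul_eq_mul_left hn.pos this
    have hqne : q ≠ 0 := by
      rintro rfl
      rw [zero_pow hn.ne_zero] at hpq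
      exact pow_ne_zero n hpne hpq.symm
    have hune : u ≠ 0 := by
      rintro rfl
      rw [mul_zero] at hu
      exact hqne hu
    have hu0 : u.natDegree = 0 := by
      rw [hu, Polynomial.natDegree_mul hpne hune] at hdeg
      omega
    obtain ⟨c, rfl⟩ := Polynomial.natDegree_eq_zero.mp hu0
    have hc : c = ζ := by
      have h1 := hq0
      rw [hu, Polynomial.eval_mul, Polynomial.eval_C, hp0] at h1
      rw [hζ, ← h1, mul_div_cancel_left₀ _ hne]
    rw [← hq1, hu, Polynomial.eval_mul, Polynomial.eval_C, hp1, hc, mul_comm]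
  have hall : ∀ a : ℕ, ∀ P : σ → ℕ → ℕ → K, Per n P →
      psi (n * j) f P a = ζ ^ a * psi (n * j) f P 0 := by
    intro a
    induction a with
    | zero => intro P _; simp
    | succ a ih =>
      intro P hP
      rw [← psi_sh, ih _ hP.sh, psi_sh, zero_add, hstep P hP]
      ring
  refine ⟨ζ, ?_, fun P hP a => hall a P hP⟩
  have hζ1 : ζ ≠ 1 := by
    intro h1
    apply hne
    refine zero_of_const hn1 hnK (fun a : Fin n => psi (n * j) f P₀ a) (hprod P₀ hP₀)
      ⟨0, by omega⟩ ?_
    intro b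
    simp only
    rw [hall b P₀ hP₀, h1, one_pow, one_mul]
  have : Fact n.Prime := ⟨hn⟩
  have h1 := orderOf_eq_prime hζn hζ1
  rw [← h1]
  exact IsPrimitiveRoot.orderOf ζ

/-- If `f` vanishes on all windows then it vanishes on the `n × n` matrices. -/
theorem not_all {n : ℕ} (hn : 0 < n) (f : FreeAlgebra K σ)
    (hv : ∀ k, Vans f n k) (X : σ → Matrix (Fin n) (Fin n) K) : FreeAlgebra.lift K X f = 0 := by
  classical
  let P : σ → ℕ → ℕ → K := fun i a b => if b / n = a / n + 1 then
    X i ⟨a % n, Nat.mod_lt _ hn⟩ ⟨b % n, Nat.mod_lt _ hn⟩ else 0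
  have hP : Per n P := by
    constructor
    · intro i a b hab
      simp only [P]
      rw [if_neg]
      intro h
      have := Nat.div_le_div_right (c := n) hab.le
      omega
    · intro i a b
      simp only [P, Nat.add_div_right _ hn, Nat.add_mod_right]
      have h1 : (b / n).succ = (a / n).succ + 1 ↔ b / n = a / n + 1 := by omega
      simp only [h1]
  -- the polynomial matrices
  let Y : σ → Matrix (Fin n) (Fin n) (Polynomial K) := fun i =>
    (X i).map fun x => Polynomial.C x * Polynomial.X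
  have hcast : ∀ p : Polynomial K, Polynomial.coeToPowerSeries.algHom K p = (p : PowerSeries K) := by
    intro p
    rw [Polynomial.coeToPowerSeries.algHom_apply]
    simp
  have hY : (fun i => (Y i).map (Polynomial.coeToPowerSeries.algHom K)) = PX n P := by
    funext i
    ext1 k l
    rw [Matrix.map_apply, PX, Matrix.of_apply]
    ext s
    rw [PowerSeries.coeff_mk]
    simp only [Y, P, Matrix.map_apply]
    have hk : (k : ℕ) / n = 0 := Nat.div_eq_of_lt k.2
    have hl : ((l : ℕ) + n * s) / n = s := by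
      rw [Nat.add_mul_div_left _ _ hn, Nat.div_eq_of_lt l.2, zero_add]
    have hk' : (k : ℕ) % n = k := Nat.mod_eq_of_lt k.2
    have hl' : ((l : ℕ) + n * s) % n = l := by
      rw [Nat.add_mul_mod_self_left, Nat.mod_eq_of_lt l.2]
    simp only [hk, hl, hk', hl', zero_add, Fin.eta]
    rw [hcast, Polynomial.coeff_coe, Polynomial.coeff_C_mul, Polynomial.coeff_X]
    by_cases hs : s = 1
    · rw [if_pos hs, if_pos hs.symm, mul_one]
    · rw [if_neg hs, if_neg (Ne.symm hs), mul_zero]
  have h0 : FreeAlgebra.lift K (PX n P) f = 0 := by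
    ext1 k l
    ext s
    rw [dict P hP f k l s, Matrix.zero_apply, map_zero]
    exact (vans_iff f n (l + n * s + 1)).mp (hv _) P hP k _ (by omega)
  rw [← hY, ← lift_map'] at h0
  have h1 : FreeAlgebra.lift K Y f = 0 := by
    ext1 k l
    have h2 := congrFun (congrFun h0 k) l
    rw [Matrix.map_apply, Matrix.zero_apply, hcast] at h2
    exact Polynomial.coe_eq_zero_iff.mp h2
  have h2 := lift_map' (Polynomial.aeval (1 : K) : Polynomial K →ₐ[K] K) Y f
  rw [h1, Matrix.map_zero _ (map_zero _)] at h2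
  have h3 : (fun i => (Y i).map (Polynomial.aeval (1 : K) : Polynomial K →ₐ[K] K)) = X := by
    funext i
    ext1 k l
    simp [Y]
  rw [h3] at h2
  exact h2.symm

end Pool.Agent.H16NC
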