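import Mathlib
import Pool.Agent.H16NC.It3
import Pool.Agent.R176.NC.Frob

/-!
The order of vanishing along the Iwahori filtration: characteristic `n`.
-/

set_option autoImplicit false

namespace Pool.Agent.H16NC

open Matrix Pool.Agent.R176.NC

variable {K : Type*} [Field K] {σ : Type*}

theorem entry_all [Infinite K] {n : ℕ} (f : FreeAlgebra K σ) (a b c d : Fin n)
    (h : ∀ X : σ → Matrix (Fin n) (Fin n) K,
      FreeAlgebra.lift K X f a b = FreeAlgebra.lift K X f c d)
    {R : Type*} [CommRing R] [Algebra K R] (X : σ → Matrix (Fin n) (Fin n) R) :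
    FreeAlgebra.lift K X f a b = FreeAlgebra.lift K X f c d := by
  let G := MvPolynomial (σ × Fin n × Fin n) K
  let Xg : σ → Matrix (Fin n) (Fin n) G := fun i => Matrix.of fun p q => MvPolynomial.X (i, p, q)
  have hG : FreeAlgebra.lift K Xg f a b = FreeAlgebra.lift K Xg f c d := by
    apply MvPolynomial.funext
    intro v
    let φ : G →ₐ[K] K := MvPolynomial.aeval v
    have h1 := h (fun i => (Xg i).map φ)
    rw [← lift_map'] at h1
    rw [Matrix.map_apply, Matrix.map_apply] at h1
    have h3 : ∀ z : G, φ z = MvPolynomial.eval v z := by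
      intro z
      change MvPolynomial.aeval v z = _
      rw [MvPolynomial.aeval_eq_eval]
    rw [h3, h3] at h1
    exact h1
  let φ : G →ₐ[K] R := MvPolynomial.aeval (fun p => X p.1 p.2.1 p.2.2)
  have e1 : (fun i => (Xg i).map φ) = X := by
    funext i
    ext1 p q
    exact MvPolynomial.aeval_X _ (i, p, q)
  rw [← e1, ← lift_map', Matrix.map_apply, Matrix.map_apply, hG]

theorem entry_zero_all [Infinite K] {n : ℕ} (f : FreeAlgebra K σ) (a b : Fin n)
    (h : ∀ X : σ → Matrix (Fin n) (Fin n) K, FreeAlgebra.lift K X f a b = 0)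
    {R : Type*} [CommRing R] [Algebra K R] (X : σ → Matrix (Fin n) (Fin n) R) :
    FreeAlgebra.lift K X f a b = 0 := by
  let G := MvPolynomial (σ × Fin n × Fin n) K
  let Xg : σ → Matrix (Fin n) (Fin n) G := fun i => Matrix.of fun p q => MvPolynomial.X (i, p, q)
  have hG : FreeAlgebra.lift K Xg f a b = 0 := by
    apply MvPolynomial.funext
    intro v
    let φ : G →ₐ[K] K := MvPolynomial.aeval v
    have h1 := h (fun i => (Xg i).map φ)
    rw [← lift_map'] at h1
    rw [Matrix.map_apply] at h1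
    have h3 : ∀ z : G, φ z = MvPolynomial.eval v z := by
      intro z
      change MvPolynomial.aeval v z = _
      rw [MvPolynomial.aeval_eq_eval]
    rw [h3] at h1
    rw [map_zero]
    exact h1
  let φ : G →ₐ[K] R := MvPolynomial.aeval (fun p => X p.1 p.2.1 p.2.2)
  have e1 : (fun i => (Xg i).map φ) = X := by
    funext i
    ext1 p q
    exact MvPolynomial.aeval_X _ (i, p, q)
  rw [← e1, ← lift_map', Matrix.map_apply, hG, map_zero]

/-- The leading terms in characteristic `n`. -/
theorem leadingP [Infinite K] {n : ℕ} (g : FreeAlgebra K σ)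
    (hsc : ∀ X : σ → Matrix (Fin n) (Fin n) K,
      ∃ c : K, FreeAlgebra.lift K X g ^ n = Matrix.scalar (Fin n) c)
    (P : σ → ℕ → ℕ → K) (hP : Per n P) (j : ℕ)
    (hV : ∀ a b, b < a + n * j → V P hP g a b = 0) (a b : Fin n) :
    V P hP g a (a + n * j) ^ n = V P hP g b (b + n * j) ^ n := by
  classical
  set F := FreeAlgebra.lift K (PX n P) g with hF
  have hdvd : ∀ k l : Fin n, ∃ u : PowerSeries K, F k l = PowerSeries.X ^ j * u := by
    intro k l
    have h1 : (PowerSeries.X : PowerSeries K) ^ j ∣ F k l := by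
      rw [PowerSeries.X_pow_dvd_iff]
      intro s hs
      rw [hF, dict P hP g k l s]
      apply hV
      have h2 : n * (s + 1) ≤ n * j := Nat.mul_le_mul_left n hs
      rw [Nat.mul_succ] at h2
      have := l.2
      omega
    exact h1
  choose G hG using hdvd
  have hG0 : ∀ k l, PowerSeries.constantCoeff (G k l) = V P hP g k (l + n * j) := by
    intro k l
    rw [← dict P hP g k l j, ← hF, hG, PowerSeries.coeff_X_pow_mul', if_pos le_rfl, Nat.sub_self,
      PowerSeries.coeff_zero_eq_constantCoeff_apply]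
  set Gm : Matrix (Fin n) (Fin n) (PowerSeries K) := Matrix.of G with hGm
  have hFG : F = (PowerSeries.X : PowerSeries K) ^ j • Gm := by
    ext1 k l
    rw [Matrix.smul_apply, hGm, Matrix.of_apply, smul_eq_mul, hG]
  have hXne : ((PowerSeries.X : PowerSeries K) ^ j) ^ n ≠ 0 :=
    pow_ne_zero _ (pow_ne_zero _ PowerSeries.X_ne_zero)
  have h1 : (F ^ n) a a = (F ^ n) b b := by
    rw [hF, ← map_pow]
    refine entry_all (g ^ n) a a b b (fun X => ?_) (PX n P)
    obtain ⟨c, hc⟩ := hsc X
    rw [map_pow, hc, Matrix.scalar_apply, Matrix.diagonal_apply_eq, Matrix.diagonal_apply_eq]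
  rw [hFG, smul_pow, Matrix.smul_apply, Matrix.smul_apply, smul_eq_mul, smul_eq_mul] at h1
  have h2 := mul_left_cancel₀ hXne h1
  set G0 : Matrix (Fin n) (Fin n) K := Gm.map PowerSeries.constantCoeff with hG0d
  have hG0a : ∀ k l, G0 k l = V P hP g k (l + n * j) := by
    intro k l
    rw [hG0d, Matrix.map_apply, hGm, Matrix.of_apply, hG0]
  have h3 : (Gm ^ n).map PowerSeries.constantCoeff = G0 ^ n :=
    map_pow ((PowerSeries.constantCoeff (R := K)).mapMatrix (m := Fin n)) Gm n
  have h4 : (G0 ^ n) a a = (G0 ^ n) b b := by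
    rw [← h3, Matrix.map_apply, Matrix.map_apply, h2]
  have htri : ∀ a b, b < a → G0 a b = 0 := by
    intro a b hab
    rw [hG0a]
    apply hV
    have : (b : ℕ) < a := hab
    omega
  rw [(tri_pow G0 htri n).2, (tri_pow G0 htri n).2, hG0a, hG0a] at h4
  exact h4

theorem constK [Infinite K] {n : ℕ} (hn : n.Prime) (hnK : (n : K) = 0)
    (g : FreeAlgebra K σ)
    (hsc : ∀ X : σ → Matrix (Fin n) (Fin n) K,
      ∃ c : K, FreeAlgebra.lift K X g ^ n = Matrix.scalar (Fin n) c)
    (j : ℕ) (hvan : Vans g n (n * j)) (P : σ → ℕ → ℕ → K) (hP : Per n P) (a : ℕ) :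
    psi (n * j) g P a = psi (n * j) g P 0 := by
  have hn1 := hn.two_le
  have : Fact n.Prime := ⟨hn⟩
  have hchar : CharP K n := by
    obtain ⟨q, hq⟩ := CharP.exists K
    have h4 : q ∣ n := (CharP.cast_eq_zero_iff K q n).mp hnK
    rcases (Nat.dvd_prime hn).mp h4 with h5 | h5
    · exfalso
      have := CharP.cast_eq_zero K q
      rw [h5] at this
      simp at this
    · rw [← h5]; exact hq
  have h01 : ∀ P : σ → ℕ → ℕ → K, Per n P → psi (n * j) g P 1 = psi (n * j) g P 0 := by
    intro P hP
    have h1 := leadingP g hsc P hP j ((vans_iff g n (n * j)).mp hvan P hP) ⟨1, by omega⟩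
      ⟨0, by omega⟩
    rw [← psi_eq g n (n * j) P hP, ← psi_eq g n (n * j) P hP] at h1
    have h2 : (psi (n * j) g P 1 - psi (n * j) g P 0) ^ n = 0 := by
      rw [sub_pow_char]
      exact sub_eq_zero.mpr h1
    exact sub_eq_zero.mp (pow_eq_zero_iff hn.ne_zero |>.mp h2)
  induction a generalizing P with
  | zero => rfl
  | succ a ih => rw [← psi_sh, ih _ hP.sh, psi_sh, zero_add, h01 P hP]

end Pool.Agent.H16NC
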