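import Mathlib
import Pool.Agent.H16NC.It4
import Pool.Agent.H16NC.Fin2
import Pool.Agent.H16NC.Cor1

/-!
Characteristic `n`: powers of the derivative.
-/

set_option autoImplicit false

namespace Pool.Agent.H16NC

open Matrix Pool.Agent.R176.NC Pool.Agent.TH82.NC
open Pool.Agent.Results.MP_5d2531_al.BlockTriangular (IsNuCentral coef)

variable {K : Type*} [Field K] {σ : Type*}

/-- The power of a diagonal block. -/
theorem block_pow {n b p N : ℕ} (hpb : p + b ≤ n) (H : Matrix (Fin n) (Fin n) K)
    (h0 : ∀ k l : Fin n, (l : ℕ) < p → p ≤ (k : ℕ) → H k l = 0)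
    (h1 : ∀ k l : Fin n, (l : ℕ) < p + b → p + b ≤ (k : ℕ) → H k l = 0) (c : K)
    (hH : H ^ N = c • (1 : Matrix (Fin n) (Fin n) K)) :
    (Matrix.of fun k l : Fin b => H ⟨p + k, by omega⟩ ⟨p + l, by omega⟩) ^ N =
      c • (1 : Matrix (Fin b) (Fin b) K) := by
  let β : Fin n → ℕ := fun x => if (x : ℕ) < p then 0 else if (x : ℕ) < p + b then 1 else 2
  have hβ : ∀ x, β x = if (x : ℕ) < p then 0 else if (x : ℕ) < p + b then 1 else 2 := fun x => rfl
  let e : Fin b → Fin n := fun k => ⟨p + k, by omega⟩
  have hei : Function.Injective e := by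
    intro x y h
    have := congrArg Fin.val h
    simp only [e] at this
    exact Fin.ext (by omega)
  have he : ∀ x, β x = 1 ↔ ∃ j, e j = x := by
    intro x
    constructor
    · intro h
      rw [hβ] at h
      split_ifs at h with h2 h3
      · exact ⟨⟨(x : ℕ) - p, by omega⟩, Fin.ext (by simp only [e]; omega)⟩
      · omega
    · rintro ⟨j, rfl⟩
      have hj := j.2
      rw [hβ]
      simp only [e]
      rw [if_neg (by omega), if_pos (by omega)]
  obtain ⟨-, h2⟩ := win' (σ := Unit) β 1 e hei he (fun _ => H) (by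
    intro _ x y hxy
    rw [hβ, hβ] at hxy
    by_cases hx : p ≤ (x : ℕ) ∧ (y : ℕ) < p
    · exact h0 x y hx.2 hx.1
    · refine h1 x y ?_ ?_
      · split_ifs at hxy <;> omega
      · split_ifs at hxy <;> omega) ((FreeAlgebra.ι K ()) ^ N)
  rw [map_pow, map_pow, FreeAlgebra.lift_ι_apply, FreeAlgebra.lift_ι_apply, hH] at h2
  have h3 : (Matrix.of fun k l : Fin b => H ⟨p + k, by omega⟩ ⟨p + l, by omega⟩) =
      H.submatrix e e := rfl
  rw [h3, ← h2]
  ext k l
  rw [submatrix_apply, Matrix.smul_apply, Matrix.smul_apply, Matrix.one_apply, Matrix.one_apply]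
  simp only [hei.eq_iff]

/-- In characteristic `n`, a matrix whose `n`-th power is scalar is the sum of a scalar matrix and a
nilpotent matrix. -/
theorem trace_nil {n : ℕ} (hn : n.Prime) (hnK : (n : K) = 0) {ι : Type*} [Fintype ι] [DecidableEq ι]
    (haK : (Fintype.card ι : K) ≠ 0) (F : Matrix ι ι K) (c : K)
    (hF : F ^ n = c • (1 : Matrix ι ι K)) :
    (F - ((Fintype.card ι : K)⁻¹ * F.trace) • (1 : Matrix ι ι K)) ^ n = 0 ∧
      c = ((Fintype.card ι : K)⁻¹ * F.trace) ^ n := by
  have hfact : Fact n.Prime := ⟨hn⟩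
  have hne : Nonempty ι := by
    by_contra h
    rw [not_nonempty_iff] at h
    exact haK (by simp)
  have hchar : CharP K n := by
    obtain ⟨q, hq⟩ := CharP.exists K
    have h4 : q ∣ n := (CharP.cast_eq_zero_iff K q n).mp hnK
    rcases (Nat.dvd_prime hn).mp h4 with h5 | h5
    · exfalso
      have := CharP.cast_eq_zero K q
      rw [h5] at this
      simp at this
    · rw [← h5]; exact hq
  have hpow : ∀ s : K, (F - s • (1 : Matrix ι ι K)) ^ n = (c - s ^ n) • (1 : Matrix ι ι K) := by
    intro s
    rw [sub_pow_char_of_commute n (Commute.smul_right (Commute.one_right F) s), hF, smul_pow,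
      one_pow, sub_smul]
  have hc : c = ((Fintype.card ι : K)⁻¹ * F.trace) ^ n := by
    obtain ⟨r, hr⟩ := IsAlgClosed.exists_pow_nat_eq (algebraMap K (AlgebraicClosure K) c) hn.pos
    have : CharP (AlgebraicClosure K) n :=
      charP_of_injective_algebraMap (algebraMap K (AlgebraicClosure K)).injective n
    set F' := F.map (algebraMap K (AlgebraicClosure K)) with hF'
    have h1 : F' ^ n = (algebraMap K (AlgebraicClosure K) c) •
        (1 : Matrix ι ι (AlgebraicClosure K)) := by
      have h2 := congrArg (fun G : Matrix ι ι K => (algebraMap K (AlgebraicClosure K)).mapMatrix G) hF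
      simp only [map_pow] at h2
      rw [RingHom.mapMatrix_apply] at h2
      rw [hF', h2]
      ext k l
      rw [RingHom.mapMatrix_apply, Matrix.map_apply, Matrix.smul_apply, Matrix.smul_apply, smul_eq_mul,
        smul_eq_mul, map_mul, Matrix.one_apply, Matrix.one_apply]
      split_ifs <;> simp
    have h2 : (F' - r • (1 : Matrix ι ι (AlgebraicClosure K))) ^ n = 0 := by
      rw [sub_pow_char_of_commute n (Commute.smul_right (Commute.one_right F') r), h1, smul_pow,
        one_pow, hr, sub_self]
    have h3 : (F' - r • (1 : Matrix ι ι (AlgebraicClosure K))).trace = 0 := by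
      have h4 : IsNilpotent (F' - r • (1 : Matrix ι ι (AlgebraicClosure K))) := ⟨n, h2⟩
      exact (Matrix.isNilpotent_trace_of_isNilpotent h4).eq_zero
    rw [Matrix.trace_sub, Matrix.trace_smul, Matrix.trace_one, smul_eq_mul, sub_eq_zero] at h3
    have h5 : F'.trace = algebraMap K (AlgebraicClosure K) F.trace := by
      rw [hF', Matrix.trace, Matrix.trace, map_sum]
      rfl
    have h6 : r = algebraMap K (AlgebraicClosure K) ((Fintype.card ι : K)⁻¹ * F.trace) := by
      rw [map_mul, ← h5, h3, map_inv₀, map_natCast, mul_comm r, ← mul_assoc, inv_mul_cancel₀, one_mul]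
      intro h7
      apply haK
      apply (algebraMap K (AlgebraicClosure K)).injective
      rw [map_natCast, h7, map_zero]
    apply (algebraMap K (AlgebraicClosure K)).injective
    rw [← hr, h6, map_pow]
  refine ⟨?_, hc⟩
  rw [hpow, ← hc, sub_self, zero_smul]

/-- The power of the derivative. -/
theorem pow_up [Infinite K] {n : ℕ} (hn0 : 0 < n) (g : FreeAlgebra K σ)
    (hsc : ∀ X : σ → Matrix (Fin n) (Fin n) K,
      ∃ c : K, FreeAlgebra.lift K X g ^ n = Matrix.scalar (Fin n) c)
    (B C : σ → Matrix (Fin n) (Fin n) K) (hB : FreeAlgebra.lift K B g = 0) :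
    ∃ c : K, (up B B C g) ^ n = c • (1 : Matrix (Fin n) (Fin n) K) := by
  classical
  set F := FreeAlgebra.lift K (line B C) g with hF
  have hev : ∀ t : K, F.map (Polynomial.eval t) =
      FreeAlgebra.lift K (fun i => B i + t • C i) g := eval_line B C g
  have hF0 : ∀ a b, (F a b).coeff 0 = 0 := by
    intro a b
    have h1 := congrFun (congrFun (hev 0) a) b
    have h2 : (fun i => B i + (0 : K) • C i) = B := by
      funext i
      rw [zero_smul, add_zero]
    rw [h2, hB] at h1
    rw [Polynomial.coeff_zero_eq_eval_zero]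
    exact h1
  set H : Matrix (Fin n) (Fin n) (Polynomial K) := F.map Polynomial.divX with hH
  have hFH : F = (Polynomial.X : Polynomial K) • H := by
    ext1 a b
    have h1 := Polynomial.divX_mul_X_add (F a b)
    rw [hF0, map_zero, add_zero] at h1
    rw [Matrix.smul_apply, hH, Matrix.map_apply, smul_eq_mul, mul_comm]
    exact h1.symm
  have hXn : (Polynomial.X : Polynomial K) ^ n ≠ 0 := pow_ne_zero _ Polynomial.X_ne_zero
  have hoff : ∀ a b, a ≠ b → (H ^ n) a b = 0 := by
    intro a b hab
    have h1 : (F ^ n) a b = 0 := by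
      rw [hF, ← map_pow]
      refine entry_zero_all (g ^ n) a b (fun X => ?_) (line B C)
      obtain ⟨c, hc⟩ := hsc X
      rw [map_pow, hc, Matrix.scalar_apply, Matrix.diagonal_apply_ne _ hab]
    rw [hFH, smul_pow, Matrix.smul_apply, smul_eq_mul] at h1
    exact (mul_eq_zero.mp h1).resolve_left hXn
  have hdiag : ∀ a b, (H ^ n) a a = (H ^ n) b b := by
    intro a b
    have h1 : (F ^ n) a a = (F ^ n) b b := by
      rw [hF, ← map_pow]
      refine entry_all (g ^ n) a a b b (fun X => ?_) (line B C)
      obtain ⟨c, hc⟩ := hsc X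
      rw [map_pow, hc, Matrix.scalar_apply, Matrix.diagonal_apply_eq, Matrix.diagonal_apply_eq]
    rw [hFH, smul_pow, Matrix.smul_apply, Matrix.smul_apply, smul_eq_mul, smul_eq_mul] at h1
    exact mul_left_cancel₀ hXn h1
  have hFe : ∀ a b, F a b = H a b * Polynomial.X := by
    intro a b
    rw [hFH, Matrix.smul_apply, smul_eq_mul, mul_comm]
  have hH0 : H.map (Polynomial.eval 0) = up B B C g := by
    ext a b
    rw [up, dual, Matrix.toBlocks_fromBlocks₁₂, Matrix.map_apply, ← hF, Matrix.map_apply, hFe,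
      Polynomial.coeff_mul_X, Polynomial.coeff_zero_eq_eval_zero]
  refine ⟨((H ^ n) ⟨0, hn0⟩ ⟨0, hn0⟩).eval 0, ?_⟩
  have h1 : (H ^ n).map (Polynomial.eval 0) = (up B B C g) ^ n := by
    rw [← hH0]
    exact map_pow ((Polynomial.evalRingHom (0 : K)).mapMatrix (m := Fin n)) H n
  rw [← h1]
  ext a b
  rw [Matrix.map_apply, Matrix.smul_apply, smul_eq_mul, Matrix.one_apply]
  split_ifs with hab
  · subst hab
    rw [mul_one, hdiag a ⟨0, hn0⟩]
  · rw [hoff a b hab, Polynomial.eval_zero, mul_zero]

end Pool.Agent.H16NC
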