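import Mathlib
import Pool.Agent.H16NC.Fin1

/-!
The corner block up to scalar matrices.
-/

set_option autoImplicit false

namespace Pool.Agent.H16NC

open Matrix Pool.Agent.R176.NC Pool.Agent.TH82.NC Polynomial
open Pool.Agent.Results.MP_5d2531_al.BlockTriangular (IsNuCentral coef)

section sub1

variable (K : Type*) [Field K] {ι : Type*} [Fintype ι] [DecidableEq ι] {R R' : Type*} [CommRing R]
  [Algebra K R] [CommRing R'] [Algebra K R']

/-- The part of trace zero. -/
noncomputable def sub1 (F : Matrix ι ι R) : Matrix ι ι R :=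
  F - (algebraMap K R (Fintype.card ι : K)⁻¹ * F.trace) • (1 : Matrix ι ι R)

theorem sub1_map (φ : R →ₐ[K] R') (F : Matrix ι ι R) : (sub1 K F).map φ = sub1 K (F.map φ) := by
  have h1 : (F.map φ).trace = φ F.trace := by
    rw [Matrix.trace, Matrix.trace, map_sum]
    rfl
  ext p q
  rw [Matrix.map_apply, sub1, sub1, Matrix.sub_apply, Matrix.sub_apply, Matrix.smul_apply,
    Matrix.smul_apply, Matrix.map_apply, map_sub, smul_eq_mul, smul_eq_mul, map_mul, map_mul,
    AlgHom.commutes, h1, Matrix.one_apply, Matrix.one_apply]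
  split_ifs <;> simp

theorem sub1_conj (g g' : Matrix ι ι R) (hg : g' * g = 1) (hg' : g * g' = 1) (F : Matrix ι ι R) :
    sub1 K (g * F * g') = g * sub1 K F * g' := by
  have h1 : (g * F * g').trace = F.trace := by
    rw [Matrix.trace_mul_comm, ← Matrix.mul_assoc, hg, Matrix.one_mul]
  rw [sub1, sub1, h1, Matrix.mul_sub, Matrix.sub_mul, Matrix.mul_smul, Matrix.smul_mul,
    Matrix.mul_one, hg']

/-- `sub1` as a linear map. -/
noncomputable def sub1L (L : Type*) [Field L] [Algebra L R] : Matrix ι ι R →ₗ[L] Matrix ι ι R where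
  toFun := sub1 K
  map_add' F G := by
    rw [sub1, sub1, sub1, Matrix.trace_add, mul_add, add_smul]
    abel
  map_smul' c F := by
    rw [sub1, sub1, Matrix.trace_smul, RingHom.id_apply, smul_sub, mul_smul_comm, smul_assoc]

theorem sub1_zero : sub1 K (0 : Matrix ι ι R) = 0 := by
  rw [sub1, Matrix.trace_zero, mul_zero, zero_smul, sub_zero]

end sub1

section T1

variable {K : Type*} [Field K] {σ : Type*} {ι κ : Type*} [Fintype ι] [DecidableEq ι] [Fintype κ]
  [DecidableEq κ]

/-- The corner block for off-diagonal blocks of rank one, up to scalars. -/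
noncomputable def T1 {R : Type*} [CommRing R] [Algebra K R] (M : σ → Matrix κ κ K)
    (ξ η : σ → κ → K) (f : FreeAlgebra K σ) (Y : σ → Matrix ι ι R) (x y : ι → R) :
    Matrix ι ι R := sub1 K (T0 M ξ η f Y x y)

variable {R R' : Type*} [CommRing R] [Algebra K R] [CommRing R'] [Algebra K R']
  (M : σ → Matrix κ κ K) (ξ η : σ → κ → K) (f : FreeAlgebra K σ)

theorem T1_map (φ : R →ₐ[K] R') (Y : σ → Matrix ι ι R) (x y : ι → R) :
    (T1 M ξ η f Y x y).map φ = T1 M ξ η f (fun i => (Y i).map φ) (fun p => φ (x p))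
      (fun p => φ (y p)) := by
  rw [T1, sub1_map, T0_map, T1]

/-- Transfer of nilpotency to all commutative algebras. -/
theorem T1_nil [Infinite K] (N : ℕ)
    (h : ∀ (Y : σ → Matrix ι ι K) (x y : ι → K), (T1 M ξ η f Y x y) ^ N = 0)
    (Y : σ → Matrix ι ι R) (x y : ι → R) : (T1 M ξ η f Y x y) ^ N = 0 := by
  let G := MvPolynomial (σ × ι × ι ⊕ ι ⊕ ι) K
  let Yg : σ → Matrix ι ι G := fun i => Matrix.of fun p q => MvPolynomial.X (Sum.inl (i, p, q))
  let xg : ι → G := fun p => MvPolynomial.X (Sum.inr (Sum.inl p))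
  let yg : ι → G := fun p => MvPolynomial.X (Sum.inr (Sum.inr p))
  have hmap1 : ∀ (φ : G →ₐ[K] K),
      φ.mapMatrix ((T1 M ξ η f Yg xg yg) ^ N) =
        (T1 M ξ η f (fun i => (Yg i).map φ) (fun p => φ (xg p)) (fun p => φ (yg p))) ^ N := by
    intro φ
    rw [map_pow, AlgHom.mapMatrix_apply, T1_map]
  have hmap : ∀ (φ : G →ₐ[K] R),
      φ.mapMatrix ((T1 M ξ η f Yg xg yg) ^ N) =
        (T1 M ξ η f (fun i => (Yg i).map φ) (fun p => φ (xg p)) (fun p => φ (yg p))) ^ N := by
    intro φ
    rw [map_pow, AlgHom.mapMatrix_apply, T1_map]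
  have hG : (T1 M ξ η f Yg xg yg) ^ N = 0 := by
    ext1 p q
    apply MvPolynomial.funext
    intro v
    have e := congrFun (congrFun (hmap1 (MvPolynomial.aeval v : G →ₐ[K] K)) p) q
    rw [h] at e
    rw [Matrix.zero_apply, map_zero]
    rw [AlgHom.mapMatrix_apply, Matrix.map_apply, MvPolynomial.aeval_eq_eval] at e
    exact e
  have e := hmap (MvPolynomial.aeval
    (Sum.elim (fun p => Y p.1 p.2.1 p.2.2) (Sum.elim x y)) : G →ₐ[K] R)
  rw [hG, map_zero] at e
  have e1 : (fun i => (Yg i).map (MvPolynomial.aeval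
    (Sum.elim (fun p => Y p.1 p.2.1 p.2.2) (Sum.elim x y)) : G →ₐ[K] R)) = Y := by
    funext i
    ext p q
    simp [Yg]
  have e2 : (fun p => (MvPolynomial.aeval
    (Sum.elim (fun p => Y p.1 p.2.1 p.2.2) (Sum.elim x y)) : G →ₐ[K] R) (xg p)) = x := by
    funext p
    simp [xg]
  have e3 : (fun p => (MvPolynomial.aeval
    (Sum.elim (fun p => Y p.1 p.2.1 p.2.2) (Sum.elim x y)) : G →ₐ[K] R) (yg p)) = y := by
    funext p
    simp [yg]
  rw [e1, e2, e3] at e
  exact e.symm

end T1

section TT1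

variable {K : Type*} [Field K] {σ : Type*} {ι κ : Type*} [Fintype ι] [DecidableEq ι] [Fintype κ]
  [DecidableEq κ] {L : Type*} [Field L] [Algebra K L] {R : Type*} [CommRing R] [Algebra K R]
  [Algebra L R] [IsScalarTower K L R]
  (M : σ → Matrix κ κ K) (ξ η : σ → κ → K) (f : FreeAlgebra K σ)

/-- The linear operator. -/
noncomputable def TT1 (Y : σ → Matrix ι ι R) : Matrix ι ι L →ₗ[L] Matrix ι ι R :=
  (sub1L K L).comp (TT M ξ η f Y)

theorem TT1_apply (Y : σ → Matrix ι ι R) (D : Matrix ι ι L) :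
    TT1 M ξ η f Y D = sub1 K (TT M ξ η f Y D) := rfl

theorem TT1_vec (Y : σ → Matrix ι ι R) (x y : ι → L) : TT1 M ξ η f Y (Matrix.vecMulVec x y) =
    T1 M ξ η f Y (fun p => algebraMap L R (x p)) (fun p => algebraMap L R (y p)) := by
  rw [TT1_apply, TT_vec, T1]

theorem TT1_conj (g g' : Matrix ι ι L) (hg : g' * g = 1) (hg' : g * g' = 1)
    (Y : σ → Matrix ι ι R) (D : Matrix ι ι L) :
    TT1 M ξ η f (fun i => g.map (algebraMap L R) * Y i * g'.map (algebraMap L R)) (g * D * g') =
      g.map (algebraMap L R) * TT1 M ξ η f Y D * g'.map (algebraMap L R) := by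
  have h1 : g'.map (algebraMap L R) * g.map (algebraMap L R) = 1 := by
    rw [← Matrix.map_mul, hg, Matrix.map_one _ (map_zero _) (map_one _)]
  have h2 : g.map (algebraMap L R) * g'.map (algebraMap L R) = 1 := by
    rw [← Matrix.map_mul, hg', Matrix.map_one _ (map_zero _) (map_one _)]
  rw [TT1_apply, TT_conj M ξ η f g g' hg hg', sub1_conj K _ _ h1 h2, TT1_apply]

theorem TT1_map (φ : R →ₐ[L] R) (Y : σ → Matrix ι ι R) (D : Matrix ι ι L) :
    (TT1 M ξ η f Y D).map φ = TT1 M ξ η f (fun i => (Y i).map φ) D := by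
  rw [TT1_apply, TT1_apply, ← TT_map]
  exact sub1_map K (φ.restrictScalars K) (TT M ξ η f Y D)

end TT1

section Main

variable {K : Type*} [Field K] {σ : Type*} {κ : Type*} [Fintype κ] [DecidableEq κ]
  {a : ℕ} [NeZero a]

theorem T1_zero_L [Infinite K] {L : Type*} [Field L] [IsAlgClosed L] [Algebra K L]
    (ψ : AddChar (ZMod a) L) (hψ : ψ.IsPrimitive)
    (haL : (a : L) ≠ 0) (hψ1 : ∀ x, ψ x = 1 → x = 0)
    (M : σ → Matrix κ κ K) (ξ η : σ → κ → K) (f : FreeAlgebra K σ) (N : ℕ)
    (h : ∀ (Y : σ → Matrix (ZMod a) (ZMod a) K) (x y : ZMod a → K),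
      (T1 M ξ η f Y x y) ^ N = 0) (Y : σ → Matrix (ZMod a) (ZMod a) L) (x y : ZMod a → L) :
    T1 M ξ η f Y x y = 0 := by
  choose c hc using fun i => exists_coeff ψ hψ haL (Y i)
  set T := TT1 (L := L) M ξ η f (Yp ψ c) with hT
  have hcomm : ∀ (φ : L[X][X] →ₐ[L] L[X][X]) (g g' : Matrix (ZMod a) (ZMod a) L)
      (hg : g' * g = 1) (hg' : g * g' = 1) (χ χ' : ZMod a × ZMod a → L)
      (h1 : ∀ i n, φ (C (C (c i n) * X ^ n.1.val) * X ^ n.2.val : L[X][X]) =
        χ n • (C (C (c i n) * X ^ n.1.val) * X ^ n.2.val : L[X][X]))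
      (h2 : ∀ n, g * W ψ n * g' = χ n • W ψ n) (h3 : ∀ n, g' * W ψ n * g = χ' n • W ψ n)
      (n : ZMod a × ZMod a),
      (T (W ψ n)).map φ * g.map (algebraMap L L[X][X]) =
        χ' n • (g.map (algebraMap L L[X][X]) * T (W ψ n)) := by
    intro φ g g' hg hg' χ χ' h1 h2 h3 n
    have e1 : (fun i => (Yp ψ c i).map φ) = fun i => g.map (algebraMap L L[X][X]) * Yp ψ c i *
        g'.map (algebraMap L L[X][X]) := by
      funext i
      exact Yp_conj ψ c i φ g g' χ (h1 i) h2
    have e2 : W ψ n = g * (g' * W ψ n * g) * g' := by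
      calc W ψ n = (g * g') * W ψ n * (g * g') := by rw [hg', Matrix.one_mul, Matrix.mul_one]
        _ = _ := by simp only [Matrix.mul_assoc]
    have e3 : (T (W ψ n)).map φ = g.map (algebraMap L L[X][X]) * T (g' * W ψ n * g) *
        g'.map (algebraMap L L[X][X]) := by
      rw [hT, TT1_map, e1, ← TT1_conj M ξ η f g g' hg hg', ← e2]
    have e4 : g'.map (algebraMap L L[X][X]) * g.map (algebraMap L L[X][X]) = 1 := by
      rw [← Matrix.map_mul, hg, Matrix.map_one _ (map_zero _) (map_one _)]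
    rw [e3, h3, map_smul, Matrix.mul_assoc, e4, Matrix.mul_one, Matrix.mul_smul]
  have hpow : ∀ (z : ZMod a) (k : ℕ), ψ z ^ k = ψ (k * z) := by
    intro z k
    rw [← AddChar.map_nsmul_eq_pow, nsmul_eq_mul]
  have hzero : T = 0 := by
    refine heis_poly ψ hψ haL hψ1 T ?_ ?_ N ?_
    · intro n k l
      have h1 := hcomm (scO (ψ (-1))) (W ψ (1, 0)) (W ψ (-1, 0))
        (by rw [W_mul]; simp; exact W_zero ψ) (by rw [W_mul]; simp; exact W_zero ψ)
        (fun n => ψ (-n.2)) (fun n => ψ n.2)
        (by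
          intro i n
          rw [map_mul, map_pow, scO_C, scO_X, mul_pow, ← C_pow, ← C_pow, hpow,
            ZMod.natCast_zmod_val, mul_neg_one, Algebra.smul_def]
          have : algebraMap L L[X][X] (ψ (-n.2)) = C (C (ψ (-n.2))) := rfl
          rw [this]
          ring)
        (by
          intro n
          rw [W_mul, Matrix.smul_mul, W_mul, smul_smul, ← AddChar.map_add_eq_mul]
          congr 2
          · simp
          · ext <;> simp)
        (by
          intro n
          rw [W_mul, Matrix.smul_mul, W_mul, smul_smul, ← AddChar.map_add_eq_mul]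
          congr 2
          · simp
          · ext <;> simp) n
      have h2 := congrArg (fun Q : Matrix (ZMod a) (ZMod a) L[X][X] =>
        Q.map (fun p => (p.coeff l).coeff k)) h1
      simp only [cf_mul, cf_smul, cf_mul'] at h2
      rw [← h2, ← Matrix.smul_mul]
      congr 1
      ext p q
      rw [Matrix.smul_apply, Matrix.map_apply, Matrix.map_apply, Matrix.map_apply, scO_coeff,
        smul_eq_mul, hpow, mul_neg_one]
    · intro n k l
      have h1 := hcomm (scI (ψ 1)) (W ψ (0, 1)) (W ψ (0, -1))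
        (by rw [W_mul]; simp; exact W_zero ψ) (by rw [W_mul]; simp; exact W_zero ψ)
        (fun n => ψ n.1) (fun n => ψ (-n.1))
        (by
          intro i n
          rw [map_mul, map_pow, scI_C, scI_X, Polynomial.mul_comp, Polynomial.C_comp,
            Polynomial.pow_comp, Polynomial.X_comp, mul_pow, ← C_pow, hpow,
            ZMod.natCast_zmod_val, mul_one, Algebra.smul_def]
          have : algebraMap L L[X][X] (ψ n.1) = C (C (ψ n.1)) := rfl
          rw [this]
          simp only [map_mul]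
          ring)
        (by
          intro n
          rw [W_mul, Matrix.smul_mul, W_mul, smul_smul, ← AddChar.map_add_eq_mul]
          congr 2
          · simp
          · ext <;> simp)
        (by
          intro n
          rw [W_mul, Matrix.smul_mul, W_mul, smul_smul, ← AddChar.map_add_eq_mul]
          congr 2
          · simp
          · ext <;> simp) n
      have h2 := congrArg (fun Q : Matrix (ZMod a) (ZMod a) L[X][X] =>
        Q.map (fun p => (p.coeff l).coeff k)) h1
      simp only [cf_mul, cf_smul, cf_mul'] at h2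
      rw [← h2, ← Matrix.smul_mul]
      congr 1
      ext p q
      rw [Matrix.smul_apply, Matrix.map_apply, Matrix.map_apply, Matrix.map_apply, scI_coeff,
        smul_eq_mul, hpow, mul_one]
    · intro x y
      rw [hT, TT1_vec]
      exact T1_nil M ξ η f N h _ _ _
  have h1 : T1 M ξ η f (Yp ψ c) (fun p => algebraMap L L[X][X] (x p))
      (fun p => algebraMap L L[X][X] (y p)) = 0 := by
    rw [← TT1_vec, ← hT, hzero, LinearMap.zero_apply]
  let φ1 : L[X][X] →ₐ[L] L := (Polynomial.aeval (1 : L) : L[X] →ₐ[L] L).comp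
    ((Polynomial.aeval (1 : L[X]) : L[X][X] →ₐ[L[X]] L[X]).restrictScalars L)
  have h2 := T1_map M ξ η f (φ1.restrictScalars K) (Yp ψ c)
    (fun p => algebraMap L L[X][X] (x p)) (fun p => algebraMap L L[X][X] (y p))
  rw [h1, Matrix.map_zero _ (map_zero _)] at h2
  have h3 : (fun i => (Yp ψ c i).map (φ1.restrictScalars K)) = Y := by
    funext i
    rw [← hc i]
    refine Matrix.ext fun p q => ?_
    rw [Matrix.map_apply, Yp, Matrix.sum_apply, Matrix.sum_apply, map_sum]
    refine Finset.sum_congr rfl fun n _ => ?_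
    rw [Matrix.smul_apply, Matrix.smul_apply, smul_eq_mul, smul_eq_mul, map_mul, Matrix.map_apply]
    congr 1
    · simp [φ1]
    · change φ1 (algebraMap L L[X][X] (W ψ n p q)) = W ψ n p q
      rw [AlgHom.commutes]
      rfl
  have h4 : ∀ z : ZMod a → L, (fun p => (φ1.restrictScalars K) (algebraMap L L[X][X] (z p))) =
      z := by
    intro z
    funext p
    change φ1 (algebraMap L L[X][X] (z p)) = z p
    rw [AlgHom.commutes]
    rfl
  rw [h3, h4, h4] at h2
  exact h2.symm

end Main

end Pool.Agent.H16NC
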