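import Mathlib
import Pool.Agent.H16NC.N1
import Pool.Agent.H16NC.N2

/-!
Characteristic `n`: the corner block is a scalar matrix.
-/

set_option autoImplicit false

namespace Pool.Agent.H16NC

open Matrix Pool.Agent.R176.NC Pool.Agent.TH82.NC
open Pool.Agent.Results.MP_5d2531_al.BlockTriangular (IsNuCentral coef)

variable {K : Type*} [Field K] {σ : Type*}

theorem T1_zero [Infinite K] {κ : Type*} [Fintype κ] [DecidableEq κ] {a : ℕ} [NeZero a]
    (haK : (a : K) ≠ 0)
    (M : σ → Matrix κ κ K) (ξ η : σ → κ → K) (f : FreeAlgebra K σ) (N : ℕ)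
    (h : ∀ (Y : σ → Matrix (ZMod a) (ZMod a) K) (x y : ZMod a → K),
      (T1 M ξ η f Y x y) ^ N = 0) (Y : σ → Matrix (ZMod a) (ZMod a) K) (x y : ZMod a → K) :
    T1 M ξ η f Y x y = 0 := by
  have haL : (a : AlgebraicClosure K) ≠ 0 := by
    intro h0
    apply haK
    apply (algebraMap K (AlgebraicClosure K)).injective
    rw [map_natCast, h0, map_zero]
  obtain ⟨ψ, hψ, hψ1⟩ := exists_char haL
  have h1 := T1_zero_L ψ hψ haL hψ1 M ξ η f N h
    (fun i => (Y i).map (Algebra.ofId K (AlgebraicClosure K)))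
    (fun p => Algebra.ofId K (AlgebraicClosure K) (x p))
    (fun p => Algebra.ofId K (AlgebraicClosure K) (y p))
  rw [← T1_map] at h1
  refine Matrix.ext fun p q => ?_
  have h2 := congrFun (congrFun h1 p) q
  rw [Matrix.map_apply, Matrix.zero_apply] at h2
  rw [Matrix.zero_apply]
  exact (algebraMap K (AlgebraicClosure K)).injective (h2.trans (map_zero _).symm)

theorem cr_scalar_aux [Infinite K] {κ : Type*} [Fintype κ] [DecidableEq κ] {a : ℕ} [NeZero a]
    (M : σ → Matrix κ κ K) (f : FreeAlgebra K σ)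
    (h : ∀ (ξ η : σ → κ → K) (Y : σ → Matrix (ZMod a) (ZMod a) K) (x y : ZMod a → K),
      T1 M ξ η f Y x y = 0) (Y : σ → Matrix (ZMod a) (ZMod a) K)
    (B : σ → Matrix (ZMod a) κ K) (C : σ → Matrix κ (ZMod a) K) :
    ∃ ψ : K, cr Y M B C f = ψ • (1 : Matrix (ZMod a) (ZMod a) K) := by
  have hB : B = fun i => ∑ p : ZMod a, (1 : K) • Matrix.vecMulVec (Pi.single p 1) (B i p) := by
    funext i
    refine Matrix.ext fun p c => ?_
    rw [Matrix.sum_apply, Finset.sum_eq_single p]
    · simp [Matrix.vecMulVec_apply]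
    · intro b _ hb
      rw [Matrix.smul_apply, Matrix.vecMulVec_apply, Pi.single_eq_of_ne (Ne.symm hb), zero_mul,
        smul_zero]
    · intro h; exact absurd (Finset.mem_univ _) h
  have hC : C = fun i => ∑ q : ZMod a, (1 : K) •
      Matrix.vecMulVec (fun c => C i c q) (Pi.single q 1) := by
    funext i
    refine Matrix.ext fun c q => ?_
    rw [Matrix.sum_apply, Finset.sum_eq_single q]
    · simp [Matrix.vecMulVec_apply]
    · intro b _ hb
      rw [Matrix.smul_apply, Matrix.vecMulVec_apply, Pi.single_eq_of_ne (Ne.symm hb), mul_zero,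
        smul_zero]
    · intro h; exact absurd (Finset.mem_univ _) h
  have hs : ∀ p q : ZMod a, ∃ ψ : K, cr Y M (fun i => Matrix.vecMulVec (Pi.single p 1) (B i p))
        (fun i => Matrix.vecMulVec (fun c => C i c q) (Pi.single q 1)) f =
      ψ • (1 : Matrix (ZMod a) (ZMod a) K) := by
    intro p q
    have h1 := h (fun i => B i p) (fun i c => C i c q) Y (Pi.single p 1) (Pi.single q 1)
    have h2 : T0 M (fun i => B i p) (fun i c => C i c q) f Y (Pi.single p 1) (Pi.single q 1) =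
        cr Y M (fun i => Matrix.vecMulVec (Pi.single p 1) (B i p))
          (fun i => Matrix.vecMulVec (fun c => C i c q) (Pi.single q 1)) f := by
      unfold T0
      congr 1
    rw [T1, sub1, h2, sub_eq_zero] at h1
    exact ⟨_, h1⟩
  choose ψ hψ using hs
  refine ⟨∑ p, ∑ q, ψ p q, ?_⟩
  rw [hB, hC, cr_lin Y M Finset.univ Finset.univ (fun _ => (1 : K)) (fun _ => (1 : K))
    (fun p i => Matrix.vecMulVec (Pi.single p 1) (B i p))
    (fun q i => Matrix.vecMulVec (fun c => C i c q) (Pi.single q 1)) f]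
  rw [Finset.sum_smul]
  refine Finset.sum_congr rfl fun p _ => ?_
  rw [Finset.sum_smul]
  refine Finset.sum_congr rfl fun q _ => ?_
  rw [hψ, mul_one, one_smul]

theorem cr_scalar [Infinite K] {n : ℕ} (hn : n.Prime) (hnK : (n : K) = 0)
    {κ : Type*} [Fintype κ] [DecidableEq κ] {a : ℕ} (ha : 0 < a)
    (haK : (a : K) ≠ 0) (M : σ → Matrix κ κ K) (f : FreeAlgebra K σ)
    (h : ∀ (Y : σ → Matrix (Fin a) (Fin a) K) (B : σ → Matrix (Fin a) κ K)
      (C : σ → Matrix κ (Fin a) K), ∃ c : K, (cr Y M B C f) ^ n = c • (1 : Matrix (Fin a) (Fin a) K))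
    (Y : σ → Matrix (Fin a) (Fin a) K) (B : σ → Matrix (Fin a) κ K)
    (C : σ → Matrix κ (Fin a) K) :
    ∃ ψ : K, cr Y M B C f = ψ • (1 : Matrix (Fin a) (Fin a) K) := by
  have : NeZero a := ⟨ha.ne'⟩
  set e : Fin a ≃ ZMod a := (ZMod.finEquiv a).toEquiv with he
  have hcard : (Fintype.card (ZMod a) : K) ≠ 0 := by
    rw [ZMod.card]; exact haK
  have h1 : ∀ (Y : σ → Matrix (ZMod a) (ZMod a) K) (B : σ → Matrix (ZMod a) κ K)
      (C : σ → Matrix κ (ZMod a) K), (sub1 K (cr Y M B C f)) ^ n = 0 := by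
    intro Y B C
    obtain ⟨c, h2⟩ := h (fun i => (Y i).submatrix e e) (fun i => (B i).submatrix e id)
      (fun i => (C i).submatrix id e)
    rw [cr_sub] at h2
    have h3 : (cr Y M B C f).submatrix e e = Matrix.reindexAlgEquiv K K e.symm (cr Y M B C f) := by
      rw [Matrix.coe_reindexAlgEquiv, Matrix.reindex_apply, Equiv.symm_symm]
    have h4 : (c • (1 : Matrix (Fin a) (Fin a) K)) =
        Matrix.reindexAlgEquiv K K e.symm (c • (1 : Matrix (ZMod a) (ZMod a) K)) := by
      rw [map_smul, map_one]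
    rw [h3, ← map_pow, h4] at h2
    have h5 := (Matrix.reindexAlgEquiv K K e.symm).injective h2
    have h6 := (trace_nil hn hnK hcard _ c h5).1
    exact h6
  have h2 := cr_scalar_aux M f (fun ξ η Y x y => T1_zero haK M ξ η f n
    (fun Y x y => h1 _ _ _) Y x y)
    (fun i => (Y i).submatrix e.symm e.symm) (fun i => (B i).submatrix e.symm id)
    (fun i => (C i).submatrix id e.symm)
  rw [cr_sub] at h2
  obtain ⟨ψ, h2⟩ := h2
  refine ⟨ψ, ?_⟩
  have h3 : (cr Y M B C f).submatrix e.symm e.symm =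
      Matrix.reindexAlgEquiv K K e (cr Y M B C f) := by
    rw [Matrix.coe_reindexAlgEquiv, Matrix.reindex_apply]
  have h4 : (ψ • (1 : Matrix (ZMod a) (ZMod a) K)) =
      Matrix.reindexAlgEquiv K K e (ψ • (1 : Matrix (Fin a) (Fin a) K)) := by
    rw [map_smul, map_one]
  rw [h3, h4] at h2
  exact (Matrix.reindexAlgEquiv K K e).injective h2

theorem corner_pow [Infinite K] {a m : ℕ} (g : FreeAlgebra K σ)
    (hsc : ∀ X : σ → Matrix (Fin (a + m)) (Fin (a + m)) K,
      ∃ c : K, FreeAlgebra.lift K X g ^ (a + m) = Matrix.scalar (Fin (a + m)) c) (P : ℕ → Prop)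
    (hper : ∀ q, P (q + (a + m)) ↔ P q) (hP0 : P 0) (hPa : P a) (ha : 0 < a) (hm : 0 < m)
    (hmin : ∀ q, 0 < q → q < a → ¬ P q)
    (hsink : ∀ p, P p → ∃ s, 0 < s ∧ s < a + m ∧ P (p + s) ∧ Van g (a + m) s)
    (Y : σ → Matrix (Fin a) (Fin a) K)
    (M : σ → Matrix (Fin m) (Fin m) K)
    (hM : ∀ i (k l : Fin m) q, P (a + q) → (l : ℕ) < q → q ≤ (k : ℕ) → M i k l = 0)
    (B : σ → Matrix (Fin a) (Fin m) K) (C : σ → Matrix (Fin m) (Fin a) K) :
    ∃ c : K, (cr Y M B C g) ^ (a + m) = c • (1 : Matrix (Fin a) (Fin a) K) := by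
  classical
  set X : σ → Matrix (Fin (a + m)) (Fin (a + m)) K := bX Y M B with hXd
  have hX : ∀ i (k l : Fin (a + m)) q, P q → (l : ℕ) < q → q ≤ (k : ℕ) → X i k l = 0 := by
    intro i k l q hq hl hk
    induction k using Fin.addCases with
    | left k =>
      rw [Fin.val_castAdd] at hk
      exact absurd hq (hmin q (by omega) (by omega))
    | right k =>
      rw [Fin.val_natAdd] at hk
      induction l using Fin.addCases with
      | left l => simp [hXd, bX]
      | right l =>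
        rw [Fin.val_natAdd] at hl
        have h1 := hM i k l (q - a) (by rw [Nat.add_sub_cancel' (by omega)]; exact hq) (by omega)
          (by omega)
        simpa [hXd, bX] using h1
  have hf0 : FreeAlgebra.lift K X g = 0 := by
    obtain ⟨s, hs0, hsn, hs, hV⟩ := hsink 0 hP0
    rw [zero_add] at hs
    exact hV X (fun i k l h1 h2 => hX i k l s hs h1 h2)
  obtain ⟨c, hc⟩ := pow_up (by omega) g hsc X (bZ C) hf0
  refine ⟨c, ?_⟩
  have h1 := block_pow (p := 0) (b := a) (by omega) (up X X (bZ C) g) (fun k l h _ => by omega)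
    (fun k l h2 h3 => by
      obtain ⟨s, hs0, hsn, hs, hV⟩ := hsink a hPa
      exact low_zero P hper g X (bZ C) hX a hPa (by omega) s hsn hs hV k l (by omega) (by omega))
    c hc
  rw [← h1]
  congr 1
  ext k l
  rw [Matrix.of_apply, ← up_corner]
  have e1 : ∀ k : Fin a, (⟨0 + (k : ℕ), by omega⟩ : Fin (a + m)) = Fin.castAdd m k := by
    intro k
    exact Fin.ext (by simp)
  rw [e1, e1]

/-- The assembly. -/
theorem full_scalar [Infinite K] {a m : ℕ}
    (g : FreeAlgebra K σ) (P : ℕ → Prop)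
    (hper : ∀ q, P (q + (a + m)) ↔ P q) (hP0 : P 0) (hPa : P a)
    (hmin : ∀ q, 0 < q → q < a → ¬ P q)
    (hsink : ∀ p, P p → ∃ s, 0 < s ∧ s < a + m ∧ P (p + s) ∧ Van g (a + m) s)
    (Y : σ → Matrix (Fin a) (Fin a) K)
    (M : σ → Matrix (Fin m) (Fin m) K)
    (hM : ∀ i (k l : Fin m) q, P (a + q) → (l : ℕ) < q → q ≤ (k : ℕ) → M i k l = 0)
    (B : σ → Matrix (Fin a) (Fin m) K) (C : σ → Matrix (Fin m) (Fin a) K)
    (E : σ → Matrix (Fin a) (Fin a) K) (ψ : K)
    (hcr : cr Y M B C g = ψ • (1 : Matrix (Fin a) (Fin a) K)) :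
    FreeAlgebra.lift K (fun i => fromBlocks (Y i) (Matrix.fromCols (B i) (E i)) 0
      (fromBlocks (M i) (C i) 0 (Y i))) g =
      fromBlocks 0 (Matrix.fromCols 0 (ψ • (1 : Matrix (Fin a) (Fin a) K))) 0 0 := by
  have h1 := van_base g P hP0 hmin hsink Y M hM B
  rw [lift_up] at h1
  have h2 := congrArg Matrix.toBlocks₁₂ h1
  rw [toBlocks_fromBlocks₁₂] at h2
  have h3 := congrArg Matrix.toBlocks₁₁ h1
  rw [toBlocks_fromBlocks₁₁] at h3
  have hY : ∀ Y : σ → Matrix (Fin a) (Fin a) K, FreeAlgebra.lift K Y g = 0 := by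
    intro Y
    have h5 := van_base g P hP0 hmin hsink Y M hM B
    rw [lift_up] at h5
    have h6 := congrArg Matrix.toBlocks₁₁ h5
    rw [toBlocks_fromBlocks₁₁] at h6
    exact h6
  rw [lift_up, up_eq, van_rot g P hper hPa hmin hsink Y M hM C, crn_E, h2, h3]
  have h4 : crn Y M B C (fun _ => 0) g = ψ • (1 : Matrix (Fin a) (Fin a) K) := hcr
  rw [h4, up_same g hY, add_zero]
  have h5 : toBlocks₁₂ (0 : Matrix (Fin a ⊕ Fin m) (Fin a ⊕ Fin m) K) = 0 := rfl
  have h6 : toBlocks₁₁ (0 : Matrix (Fin a ⊕ Fin m) (Fin a ⊕ Fin m) K) = 0 := rfl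
  rw [h5, h6]

/-- The matrix with the entries `ψ` at the places `(k, k + n)` and `0` elsewhere. -/
def cm {K : Type*} [Field K] (n N : ℕ) (ψ : K) : Matrix (Fin N) (Fin N) K :=
  Matrix.of fun k l => if (l : ℕ) = k + n then ψ else 0

/-- The final form: matrices of size `n + a`. -/
theorem window_scalar [Infinite K] {n a : ℕ} (hn : n.Prime) (hnK : (n : K) = 0)
    (g : FreeAlgebra K σ)
    (hsc : ∀ X : σ → Matrix (Fin n) (Fin n) K,
      ∃ c : K, FreeAlgebra.lift K X g ^ n = Matrix.scalar (Fin n) c) (P : ℕ → Prop)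
    (hper : ∀ q, P (q + n) ↔ P q) (hP0 : P 0) (hPa : P a) (ha : 0 < a) (han : a < n)
    (hmin : ∀ q, 0 < q → q < a → ¬ P q)
    (hsink : ∀ p, P p → ∃ s, 0 < s ∧ s < n ∧ P (p + s) ∧ Van g n s)
    (X : σ → Matrix (Fin (n + a)) (Fin (n + a)) K)
    (hX : ∀ i (k l : Fin (n + a)) q, P q → (l : ℕ) < q → q ≤ (k : ℕ) → X i k l = 0)
    (hXY : ∀ i (k l : Fin a), X i (Fin.natAdd n k) (Fin.natAdd n l) =
      X i (Fin.castLE (by omega) k) (Fin.castLE (by omega) l)) :
    ∃ ψ : K, FreeAlgebra.lift K X g = cm n (n + a) ψ := by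
  have haK : (a : K) ≠ 0 := by
    obtain ⟨q, hq⟩ := CharP.exists K
    have h4 : q ∣ n := (CharP.cast_eq_zero_iff K q n).mp hnK
    intro h0
    have h5 : q ∣ a := (CharP.cast_eq_zero_iff K q a).mp h0
    rcases (Nat.dvd_prime hn).mp h4 with h6 | h6
    · have := CharP.cast_eq_zero K q
      rw [h6] at this
      simp at this
    · rw [h6] at h5
      exact absurd (Nat.le_of_dvd ha h5) (by omega)
  obtain ⟨m, rfl⟩ : ∃ m, n = a + m := ⟨n - a, by omega⟩
  let e : Fin a ⊕ (Fin m ⊕ Fin a) ≃ Fin (a + m + a) :=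
    (Equiv.sumAssoc _ _ _).symm.trans ((Equiv.sumCongr finSumFinEquiv (Equiv.refl _)).trans
      finSumFinEquiv)
  have e1 : ∀ p : Fin a, e (Sum.inl p) = Fin.castAdd a (Fin.castAdd m p) := fun p => rfl
  have e2 : ∀ p : Fin m, e (Sum.inr (Sum.inl p)) = Fin.castAdd a (Fin.natAdd a p) := fun p => rfl
  have e3 : ∀ p : Fin a, e (Sum.inr (Sum.inr p)) = Fin.natAdd (a + m) p := fun p => rfl
  have hPn : P (a + m) := by
    have := (hper 0).mpr hP0
    rwa [zero_add] at this
  set Y : σ → Matrix (Fin a) (Fin a) K := fun i => Matrix.of fun p q =>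
    X i (e (Sum.inl p)) (e (Sum.inl q)) with hY
  set M : σ → Matrix (Fin m) (Fin m) K := fun i => Matrix.of fun p q =>
    X i (e (Sum.inr (Sum.inl p))) (e (Sum.inr (Sum.inl q))) with hMd
  set B : σ → Matrix (Fin a) (Fin m) K := fun i => Matrix.of fun p q =>
    X i (e (Sum.inl p)) (e (Sum.inr (Sum.inl q))) with hB
  set C : σ → Matrix (Fin m) (Fin a) K := fun i => Matrix.of fun p q =>
    X i (e (Sum.inr (Sum.inl p))) (e (Sum.inr (Sum.inr q))) with hC
  set E : σ → Matrix (Fin a) (Fin a) K := fun i => Matrix.of fun p q =>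
    X i (e (Sum.inl p)) (e (Sum.inr (Sum.inr q))) with hE
  have hM : ∀ i (k l : Fin m) q, P (a + q) → (l : ℕ) < q → q ≤ (k : ℕ) → M i k l = 0 := by
    intro i k l q hq hl hk
    rw [hMd]
    simp only [Matrix.of_apply, e2]
    refine hX i _ _ (a + q) hq ?_ ?_
    · simp only [Fin.val_castAdd, Fin.val_natAdd]
      omega
    · simp only [Fin.val_castAdd, Fin.val_natAdd]
      omega
  obtain ⟨ψ, hψ⟩ := cr_scalar hn hnK ha haK M g (fun Y B C =>
    corner_pow g hsc P hper hP0 hPa ha (by omega) hmin hsink Y M hM B C) Y B C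
  refine ⟨ψ, ?_⟩
  have h1 := full_scalar g P hper hP0 hPa hmin hsink Y M hM B C E ψ hψ
  have h2 : (fun i => fromBlocks (Y i) (Matrix.fromCols (B i) (E i)) 0
      (fromBlocks (M i) (C i) 0 (Y i))) = fun i => (X i).submatrix e e := by
    funext i
    refine Matrix.ext fun p q => ?_
    rcases p with p | p | p <;> rcases q with q | q | q
    · rfl
    · rfl
    · rfl
    · rw [Matrix.submatrix_apply, e1, e2]
      symm
      refine (hX i _ _ a hPa ?_ ?_).trans ?_
      · simp only [Fin.val_castAdd, Fin.is_lt]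
      · simp only [Fin.val_castAdd, Fin.val_natAdd]
        omega
      · rfl
    · rfl
    · rfl
    · rw [Matrix.submatrix_apply, e1, e3]
      symm
      refine (hX i _ _ (a + m) hPn ?_ ?_).trans ?_
      · simp only [Fin.val_castAdd]
        omega
      · simp only [Fin.val_natAdd]
        omega
      · rfl
    · rw [Matrix.submatrix_apply, e2, e3]
      symm
      refine (hX i _ _ (a + m) hPn ?_ ?_).trans ?_
      · simp only [Fin.val_castAdd, Fin.val_natAdd]
        omega
      · simp only [Fin.val_natAdd]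
        omega
      · rfl
    · rw [Matrix.submatrix_apply, e3, e3]
      exact (hXY i p q).symm
  rw [h2, lift_sub] at h1
  refine Matrix.ext fun p q => ?_
  obtain ⟨p, rfl⟩ := e.surjective p
  obtain ⟨q, rfl⟩ := e.surjective q
  have h3 := congrFun (congrFun h1 p) q
  rw [Matrix.submatrix_apply] at h3
  rw [h3, cm, Matrix.of_apply]
  rcases p with p | p | p <;> rcases q with q | q | q
  · rw [e1, e1, if_neg (by simp only [Fin.val_castAdd]; omega)]
    rfl
  · rw [e1, e2, if_neg (by simp only [Fin.val_castAdd, Fin.val_natAdd]; omega)]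
    rfl
  · rw [e1, e3]
    simp only [Fin.val_castAdd, Fin.val_natAdd]
    by_cases hpq : p = q
    · subst hpq
      rw [if_pos (by omega)]
      simp
    · rw [if_neg (by intro h; exact hpq (Fin.ext (by omega)))]
      simp [Matrix.one_apply_ne hpq]
  · rw [e2, e1, if_neg (by simp only [Fin.val_castAdd, Fin.val_natAdd]; omega)]
    rfl
  · rw [e2, e2, if_neg (by simp only [Fin.val_castAdd, Fin.val_natAdd]; omega)]
    rfl
  · rw [e2, e3, if_neg (by simp only [Fin.val_castAdd, Fin.val_natAdd]; omega)]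
    rfl
  · rw [e3, e1, if_neg (by simp only [Fin.val_castAdd, Fin.val_natAdd]; omega)]
    rfl
  · rw [e3, e2, if_neg (by simp only [Fin.val_castAdd, Fin.val_natAdd]; omega)]
    rfl
  · rw [e3, e3, if_neg (by simp only [Fin.val_natAdd]; omega)]
    rfl

end Pool.Agent.H16NC
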