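import Mathlib
import Pool.Agent.H16NC.N3

/-!
Characteristic `n`: arrays.
-/

set_option autoImplicit false

namespace Pool.Agent.H16NC

open Matrix Pool.Agent.R176.NC Pool.Agent.TH82.NC
open Pool.Agent.Results.MP_5d2531_al.BlockTriangular (IsNuCentral coef)

variable {K : Type*} [Field K] {σ : Type*}

/-- Block upper triangular arrays with period `n`. -/
def Arr (n : ℕ) (P : ℕ → Prop) (A : σ → ℕ → ℕ → K) : Prop :=
  (∀ i k l q, P q → l < q → q ≤ k → A i k l = 0) ∧ ∀ i k l, A i (k + n) (l + n) = A i k l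

/-- Windows. -/
def Wn (m : ℕ) (A : σ → ℕ → ℕ → K) (p : ℕ) (i : σ) : Matrix (Fin m) (Fin m) K :=
  Matrix.of fun x y => A i (p + x) (p + y)

theorem arr_scalar [Infinite K] {n : ℕ} (hn : n.Prime) (hnK : (n : K) = 0)
    (g : FreeAlgebra K σ)
    (hsc : ∀ X : σ → Matrix (Fin n) (Fin n) K,
      ∃ c : K, FreeAlgebra.lift K X g ^ n = Matrix.scalar (Fin n) c) (P : ℕ → Prop)
    (hper : ∀ q, P (q + n) ↔ P q)
    (hsink : ∀ p, P p → ∃ s, 0 < s ∧ s < n ∧ P (p + s) ∧ Van g n s)
    (A : σ → ℕ → ℕ → K) (hA : Arr n P A) (p b : ℕ) (hp : P p) (hb : 0 < b) (hbn : b < n)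
    (hpb : P (p + b)) (hmin : ∀ q, 0 < q → q < b → ¬ P (p + q)) :
    ∃ ψ : K, FreeAlgebra.lift K (Wn (n + b) A p) g = cm n (n + b) ψ := by
  refine window_scalar hn hnK g hsc (fun q => P (p + q)) (fun q => ?_) hp hpb hb hbn hmin
    (fun q hq => ?_) (Wn (n + b) A p) (fun i k l q hq h1 h2 => ?_) (fun i k l => ?_)
  · show P (p + (q + n)) ↔ P (p + q)
    rw [← add_assoc]
    exact hper _
  · obtain ⟨s, h1, h2, h3, h4⟩ := hsink (p + q) hq
    exact ⟨s, h1, h2, by rw [← add_assoc]; exact h3, h4⟩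
  · exact hA.1 i _ _ (p + q) hq (by omega) (by omega)
  · rw [Wn, Matrix.of_apply, Matrix.of_apply, Fin.val_natAdd, Fin.val_natAdd, Fin.val_castLE,
      Fin.val_castLE, ← hA.2 i (p + k) (p + l)]
    congr 1 <;> omega

theorem up_win {n : ℕ} (g : FreeAlgebra K σ) (P : ℕ → Prop)
    (hper : ∀ q, P (q + n) ↔ P q) (hP0 : P 0)
    (A : σ → ℕ → ℕ → K) (hA : Arr n P A) (p b : ℕ) (hp : P p)
    (hpb : P (p + b)) (hpbn : p + b ≤ n) (k l : Fin b) :
    FreeAlgebra.lift K (Wn (n + b) A p) g ⟨k, by omega⟩ ⟨n + l, by omega⟩ =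
      up (Wn n A 0) (Wn n A 0) (fun i => Matrix.of fun x y : Fin n => A i x (n + y)) g
        ⟨p + k, by omega⟩ ⟨p + l, by omega⟩ := by
  classical
  have hPn : P n := by
    have := (hper 0).mpr hP0
    rwa [zero_add] at this
  have hPpb : P (p + n + b) := by
    have := (hper (p + b)).mpr hpb
    have e : p + b + n = p + n + b := by ring
    rwa [e] at this
  let β : Fin n ⊕ Fin n → ℕ := fun x =>
    if (finSumFinEquiv x : ℕ) < p then 0 else if (finSumFinEquiv x : ℕ) < p + n + b then 1 else 2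
  have hβ : ∀ x, β x = if (finSumFinEquiv x : ℕ) < p then 0
    else if (finSumFinEquiv x : ℕ) < p + n + b then 1 else 2 := fun x => rfl
  let e : Fin (n + b) → Fin n ⊕ Fin n := fun k => finSumFinEquiv.symm ⟨p + k, by omega⟩
  have hev : ∀ k, (finSumFinEquiv (e k) : ℕ) = p + k := by
    intro k
    simp [e]
  have hei : Function.Injective e := by
    intro x y h
    have h1 := hev x
    rw [h, hev y] at h1
    exact Fin.ext (by omega)
  have he : ∀ x, β x = 1 ↔ ∃ j, e j = x := by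
    intro x
    constructor
    · intro h
      have h12 : ¬ (finSumFinEquiv x : ℕ) < p ∧ (finSumFinEquiv x : ℕ) < p + n + b := by
        rw [hβ] at h
        by_cases h1 : (finSumFinEquiv x : ℕ) < p
        · rw [if_pos h1] at h
          exact absurd h zero_ne_one
        · rw [if_neg h1] at h
          refine ⟨h1, ?_⟩
          by_contra h2
          rw [if_neg h2] at h
          omega
      obtain ⟨h1, h2⟩ := h12
      refine ⟨⟨(finSumFinEquiv x : ℕ) - p, by omega⟩, ?_⟩
      apply finSumFinEquiv.injective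
      apply Fin.ext
      rw [hev]
      simp only
      omega
    · rintro ⟨j, rfl⟩
      have hj := j.2
      rw [hβ, hev, if_neg (by omega), if_pos (by omega)]
  set X : σ → Matrix (Fin n) (Fin n) K := Wn n A 0 with hX
  set Z : σ → Matrix (Fin n) (Fin n) K := fun i => Matrix.of fun x y : Fin n => A i x (n + y)
    with hZ
  have hD : ∀ i x y, fromBlocks (X i) (Z i) 0 (X i) x y =
      A i (finSumFinEquiv x : ℕ) (finSumFinEquiv y : ℕ) := by
    intro i x y
    rcases x with x | x <;> rcases y with y | y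
    · rw [fromBlocks_apply₁₁, hX, Wn, Matrix.of_apply, zero_add, zero_add]
      simp only [finSumFinEquiv_apply_left, Fin.val_castAdd]
    · rw [fromBlocks_apply₁₂, hZ]
      simp only [finSumFinEquiv_apply_left, finSumFinEquiv_apply_right, Fin.val_castAdd,
        Fin.val_natAdd, Matrix.of_apply]
    · rw [fromBlocks_apply₂₁]
      simp only [finSumFinEquiv_apply_left, finSumFinEquiv_apply_right, Fin.val_castAdd,
        Fin.val_natAdd, Matrix.zero_apply]
      exact (hA.1 i _ _ n hPn y.2 (by omega)).symm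
    · rw [fromBlocks_apply₂₂, hX, Wn, Matrix.of_apply, zero_add, zero_add]
      simp only [finSumFinEquiv_apply_right, Fin.val_natAdd]
      rw [← hA.2 i x y, add_comm (x : ℕ) n, add_comm (y : ℕ) n]
  obtain ⟨-, h2⟩ := win' β 1 e hei he (fun i => fromBlocks (X i) (Z i) 0 (X i)) (by
    intro i x y hxy
    rw [hβ, hβ] at hxy
    rw [hD]
    by_cases h3 : p ≤ (finSumFinEquiv x : ℕ) ∧ (finSumFinEquiv y : ℕ) < p
    · exact hA.1 i _ _ p hp h3.2 h3.1
    · refine hA.1 i _ _ (p + n + b) hPpb ?_ ?_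
      · split_ifs at hxy <;> omega
      · split_ifs at hxy <;> omega) g
  have h3 : (fun i => (fromBlocks (X i) (Z i) 0 (X i)).submatrix e e) = Wn (n + b) A p := by
    funext i
    ext x y
    rw [Matrix.submatrix_apply, hD, hev, hev, Wn, Matrix.of_apply]
  rw [h3] at h2
  have h5 : Sum.inl ⟨p + k, by omega⟩ = e ⟨k, by omega⟩ := by
    apply finSumFinEquiv.injective
    apply Fin.ext
    rw [hev]
    simp only [finSumFinEquiv_apply_left, Fin.val_castAdd]
  have h6 : Sum.inr ⟨p + l, by omega⟩ = e ⟨n + l, by omega⟩ := by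
    apply finSumFinEquiv.injective
    apply Fin.ext
    rw [hev]
    simp only [finSumFinEquiv_apply_right, Fin.val_natAdd]
    omega
  rw [← h2, Matrix.submatrix_apply, ← h5, ← h6]
  rfl

theorem arr_pow [Infinite K] {n : ℕ} (hn : n.Prime)
    (g : FreeAlgebra K σ)
    (hsc : ∀ X : σ → Matrix (Fin n) (Fin n) K,
      ∃ c : K, FreeAlgebra.lift K X g ^ n = Matrix.scalar (Fin n) c) (P : ℕ → Prop)
    (hper : ∀ q, P (q + n) ↔ P q) (hP0 : P 0)
    (hsink : ∀ p, P p → ∃ s, 0 < s ∧ s < n ∧ P (p + s) ∧ Van g n s)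
    (A : σ → ℕ → ℕ → K) (hA : Arr n P A) :
    ∃ c : K, ∀ p b : ℕ, P p → 0 < b → P (p + b) → p + b ≤ n → ∀ ψ : K,
      FreeAlgebra.lift K (Wn (n + b) A p) g = cm n (n + b) ψ → ψ ^ n = c := by
  classical
  have hX : ∀ i (k l : Fin n) q, P q → (l : ℕ) < q → q ≤ (k : ℕ) → Wn n A 0 i k l = 0 := by
    intro i k l q hq hl hk
    rw [Wn, Matrix.of_apply]
    exact hA.1 i _ _ q hq (by omega) (by omega)
  have hf0 : FreeAlgebra.lift K (Wn n A 0) g = 0 := by
    obtain ⟨s, hs0, hsn, hs, hV⟩ := hsink 0 hP0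
    rw [zero_add] at hs
    exact hV _ (fun i k l h1 h2 => hX i k l s hs h1 h2)
  obtain ⟨c, hc⟩ := pow_up hn.pos g hsc (Wn n A 0)
    (fun i => Matrix.of fun x y : Fin n => A i x (n + y)) hf0
  refine ⟨c, fun p b hp hb hpb hpbn ψ hψ => ?_⟩
  have hlow : ∀ q, P q → q ≤ n → ∀ k l : Fin n, (l : ℕ) < q → q ≤ (k : ℕ) →
      up (Wn n A 0) (Wn n A 0) (fun i => Matrix.of fun x y : Fin n => A i x (n + y)) g k l = 0 := by
    intro q hq hqn k l hl hk
    obtain ⟨s, hs0, hsn, hs, hV⟩ := hsink q hq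
    exact low_zero P hper g _ _ hX q hq (by omega) s hsn hs hV k l hl hk
  have h1 := block_pow (p := p) (b := b) hpbn _ (hlow p hp (by omega)) (hlow (p + b) hpb hpbn) c hc
  have h2 : (Matrix.of fun k l : Fin b => up (Wn n A 0) (Wn n A 0)
      (fun i => Matrix.of fun x y : Fin n => A i x (n + y)) g ⟨p + k, by omega⟩
      ⟨p + l, by omega⟩) = ψ • (1 : Matrix (Fin b) (Fin b) K) := by
    ext k l
    rw [Matrix.of_apply, ← up_win g P hper hP0 A hA p b hp hpb hpbn k l, hψ, cm, Matrix.of_apply,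
      Matrix.smul_apply, Matrix.one_apply, smul_eq_mul]
    by_cases hkl : k = l
    · subst hkl
      rw [if_pos rfl, if_pos (by simp only; omega), mul_one]
    · rw [if_neg hkl, if_neg (fun h => hkl (Fin.ext (by simp only at h; omega))), mul_zero]
  rw [h2, smul_pow, one_pow] at h1
  have h3 := congrFun (congrFun h1 ⟨0, hb⟩) ⟨0, hb⟩
  rw [Matrix.smul_apply, Matrix.smul_apply, Matrix.one_apply_eq, smul_eq_mul, smul_eq_mul, mul_one,
    mul_one] at h3
  exact h3

/-- The main statement for arrays. -/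
theorem arr_main [Infinite K] {n : ℕ} (hn : n.Prime) (hnK : (n : K) = 0)
    (g : FreeAlgebra K σ)
    (hsc : ∀ X : σ → Matrix (Fin n) (Fin n) K,
      ∃ c : K, FreeAlgebra.lift K X g ^ n = Matrix.scalar (Fin n) c) (P : ℕ → Prop)
    (hper : ∀ q, P (q + n) ↔ P q) (hP0 : P 0)
    (hsink : ∀ p, P p → ∃ s, 0 < s ∧ s < n ∧ P (p + s) ∧ Van g n s)
    (A : σ → ℕ → ℕ → K) (hA : Arr n P A) :
    ∃ ψ : K, ∀ p b : ℕ, P p → 0 < b → P (p + b) → (∀ q, 0 < q → q < b → ¬ P (p + q)) →
      FreeAlgebra.lift K (Wn (n + b) A p) g = cm n (n + b) ψ := by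
  classical
  have hfact : Fact n.Prime := ⟨hn⟩
  have hchar : CharP K n := by
    obtain ⟨q, hq⟩ := CharP.exists K
    have h4 : q ∣ n := (CharP.cast_eq_zero_iff K q n).mp hnK
    rcases (Nat.dvd_prime hn).mp h4 with h5 | h5
    · exfalso
      have := CharP.cast_eq_zero K q
      rw [h5] at this
      simp at this
    · rw [← h5]; exact hq
  have hperm : ∀ q t, P (q + n * t) ↔ P q := by
    intro q t
    induction t with
    | zero => simp
    | succ t ih => rw [Nat.mul_succ, ← add_assoc, hper, ih]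
  have hAm : ∀ i k l t, A i (k + n * t) (l + n * t) = A i k l := by
    intro i k l t
    induction t with
    | zero => simp
    | succ t ih => rw [Nat.mul_succ, ← add_assoc, ← add_assoc, hA.2, ih]
  obtain ⟨c, hc⟩ := arr_pow hn g hsc P hper hP0 hsink A hA
  have hbn : ∀ p b : ℕ, P p → 0 < b → P (p + b) → (∀ q, 0 < q → q < b → ¬ P (p + q)) → b < n := by
    intro p b hp hb hpb hmin
    obtain ⟨s, hs0, hsn, hs, -⟩ := hsink p hp
    by_contra h
    exact hmin s hs0 (by omega) hs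
  -- the reduction modulo `n`
  have hmod : ∀ p b : ℕ, P p → 0 < b → P (p + b) → (∀ q, 0 < q → q < b → ¬ P (p + q)) → ∀ ψ : K,
      FreeAlgebra.lift K (Wn (n + b) A p) g = cm n (n + b) ψ → ψ ^ n = c := by
    intro p b hp hb hpb hmin ψ hψ
    have e1 : p % n + n * (p / n) = p := Nat.mod_add_div p n
    have hr := Nat.mod_lt p hn.pos
    have h1 : P (p % n) := by rw [← hperm _ (p / n), e1]; exact hp
    have h2 : P (p % n + b) := by
      rw [← hperm _ (p / n)]
      have : p % n + b + n * (p / n) = p + b := by omega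
      rw [this]; exact hpb
    have h3 : p % n + b ≤ n := by
      by_contra h
      have h4 : P (p + (n - p % n)) := by
        have : p + (n - p % n) = 0 + n * (p / n + 1) := by
          rw [Nat.mul_add]
          omega
        rw [this, hperm]
        exact hP0
      exact hmin (n - p % n) (by omega) (by omega) h4
    refine hc (p % n) b h1 hb h2 h3 ψ ?_
    rw [← hψ]
    have e5 : Wn (n + b) A (p % n) = Wn (n + b) A p := by
      funext i
      ext x y
      rw [Wn, Wn, Matrix.of_apply, Matrix.of_apply, ← hAm i _ _ (p / n)]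
      congr 1 <;> omega
    rw [e5]
  -- one of the scalars
  have h0 : ∃ b, 0 < b ∧ P (0 + b) := by
    obtain ⟨s, hs0, -, hs, -⟩ := hsink 0 hP0
    exact ⟨s, hs0, hs⟩
  have hb0 := Nat.find_spec h0
  set b0 := Nat.find h0 with hb0d
  have hmin0 : ∀ q, 0 < q → q < b0 → ¬ P (0 + q) := fun q hq0 hq h =>
    Nat.find_min h0 hq ⟨hq0, h⟩
  obtain ⟨ψ, hψ⟩ := arr_scalar hn hnK g hsc P hper hsink A hA 0 b0 hP0 hb0.1
    (hbn 0 b0 hP0 hb0.1 hb0.2 hmin0) hb0.2 hmin0
  refine ⟨ψ, fun p b hp hb hpb hmin => ?_⟩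
  obtain ⟨ψ', hψ'⟩ := arr_scalar hn hnK g hsc P hper hsink A hA p b hp hb
    (hbn p b hp hb hpb hmin) hpb hmin
  have h1 := hmod 0 b0 hP0 hb0.1 hb0.2 hmin0 ψ hψ
  have h2 := hmod p b hp hb hpb hmin ψ' hψ'
  have h3 : ψ' = ψ := by
    have h4 : (ψ' - ψ) ^ n = 0 := by
      rw [sub_pow_char, h1, h2, sub_self]
    exact sub_eq_zero.mp (pow_eq_zero_iff hn.ne_zero |>.mp h4)
  rw [hψ', h3]

end Pool.Agent.H16NC
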