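import Mathlib
import Pool.Agent.H16NC.N4

/-!
Characteristic `n`: upper triangular arrays.
-/

set_option autoImplicit false

namespace Pool.Agent.H16NC

open Matrix Pool.Agent.R176.NC Pool.Agent.TH82.NC
open Pool.Agent.Results.MP_5d2531_al.BlockTriangular (IsNuCentral coef)

variable {K : Type*} [Field K] {σ : Type*}

/-- The polynomial without its constant term. -/
noncomputable def gz (f : FreeAlgebra K σ) : FreeAlgebra K σ :=
  f - algebraMap K (FreeAlgebra K σ) (coef f [])

theorem gz_lift (f : FreeAlgebra K σ) {ι : Type*} [Fintype ι] [DecidableEq ι]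
    (X : σ → Matrix ι ι K) : FreeAlgebra.lift K X f =
      algebraMap K _ (coef f []) + FreeAlgebra.lift K X (gz f) := by
  rw [gz, map_sub, AlgHom.commutes]
  abel

theorem van_orN [Infinite K] {n : ℕ} (hn : n.Prime) (hn2 : n ≠ 2)
    (f : FreeAlgebra K σ) (hcen : IsNuCentral n n f) (s : ℕ) (hs : 0 < s) (hsn : s < n) :
    Van (gz f) n s ∨ Van (gz f) n (n - s) := by
  classical
  have h1 := (Pool.Agent.Results.MP_5d2531_al.BlockTriangular.result n hn hn2 f hcen).1 s (n - s)
    hs (by omega) (by omega)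
  rcases h1 with h2 | h2
  · left
    intro X hX
    have h3 := const_up' (finSumFinEquiv.trans (finCongr (by omega : s + (n - s) = n))) f _ h2 X
      (fun i k u => hX i _ _ (by simp) (by simp))
    rw [gz, map_sub, AlgHom.commutes, h3, sub_self]
  · right
    intro X hX
    have h3 := const_lo' (((Equiv.sumComm _ _).trans finSumFinEquiv).trans
      (finCongr (by omega : (n - s) + s = n))) f _ h2 X
      (fun i k u => hX i _ _ (by simp) (by simp))
    rw [gz, map_sub, AlgHom.commutes, h3, sub_self]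

theorem gz_sc {n : ℕ} (hn : n.Prime) (hnK : (n : K) = 0)
    (f : FreeAlgebra K σ) (hcen : IsNuCentral n n f) (X : σ → Matrix (Fin n) (Fin n) K) :
    ∃ c : K, FreeAlgebra.lift K X (gz f) ^ n = Matrix.scalar (Fin n) c := by
  have : Fact n.Prime := ⟨hn⟩
  have : CharP K n := by
    obtain ⟨q, hq⟩ := CharP.exists K
    have h4 : q ∣ n := (CharP.cast_eq_zero_iff K q n).mp hnK
    rcases (Nat.dvd_prime hn).mp h4 with h5 | h5
    · exfalso
      have := CharP.cast_eq_zero K q
      rw [h5] at this
      simp at this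
    · rw [← h5]; exact hq
  have : CharP (FreeAlgebra K σ) n :=
    charP_of_injective_algebraMap (algebraMap K (FreeAlgebra K σ)).injective n
  have h4 : (gz f) ^ n = f ^ n - algebraMap K (FreeAlgebra K σ) ((coef f []) ^ n) := by
    rw [gz, sub_pow_char_of_commute n (Algebra.commutes (coef f []) f).symm, map_pow]
  obtain ⟨d, hd⟩ := hcen.2.1.1 X
  refine ⟨d - (coef f []) ^ n, ?_⟩
  rw [← map_pow, h4, map_sub, hd, AlgHom.commutes, map_sub]
  rfl

theorem PP_sinkN [Infinite K] {n : ℕ} (hn : n.Prime) (hn2 : n ≠ 2)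
    (f : FreeAlgebra K σ) (hcen : IsNuCentral n n f) (a : ℕ) (ha : 0 < a) (han : 2 * a < n)
    (p : ℕ) (hp : PP n a p) : ∃ s, 0 < s ∧ s < n ∧ PP n a (p + s) ∧ Van (gz f) n s := by
  have hn0 : 0 < n := hn.pos
  have hn1 : 1 < n := hn.one_lt
  have key : ∀ s, (p + s) % n = (p % n + s) % n := by
    intro s
    exact (Nat.mod_add_mod p n s).symm
  have hr : p % n < n := Nat.mod_lt _ hn0
  unfold PP at hp ⊢
  simp only [key]
  set r := p % n with hrd
  rcases hp with h | h
  · rw [h]
    simp only [zero_add]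
    rcases van_orN hn hn2 f hcen a ha (by omega) with hV | hV
    · exact ⟨a, ha, by omega, by rw [Nat.mod_eq_of_lt (by omega)]; right; exact le_rfl, hV⟩
    · exact ⟨n - a, by omega, by omega, by rw [Nat.mod_eq_of_lt (by omega)]; right; omega, hV⟩
  · rcases eq_or_lt_of_le h with h1 | h1
    · rw [← h1]
      rcases van_orN hn hn2 f hcen a ha (by omega) with hV | hV
      · exact ⟨a, ha, by omega, by rw [Nat.mod_eq_of_lt (by omega)]; right; omega, hV⟩
      · exact ⟨n - a, by omega, by omega, by
          rw [Nat.add_sub_cancel' (by omega), Nat.mod_self]; left; rfl, hV⟩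
    · rcases van_orN hn hn2 f hcen 1 one_pos (by omega) with hV | hV
      · refine ⟨1, one_pos, by omega, ?_, hV⟩
        rcases eq_or_lt_of_le (Nat.succ_le_of_lt hr) with h2 | h2
        · have : r + 1 = n := h2
          rw [this, Nat.mod_self]; left; rfl
        · rw [Nat.mod_eq_of_lt h2]; right; omega
      · refine ⟨n - 1, by omega, by omega, ?_, hV⟩
        have : r + (n - 1) = (r - 1) + n := by omega
        rw [this, Nat.add_mod_right, Nat.mod_eq_of_lt (by omega)]
        right; omega

/-- Upper triangular arrays. -/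
theorem tri_main [Infinite K] {n : ℕ} (hn : n.Prime) (hn2 : n ≠ 2) (hnK : (n : K) = 0)
    (f : FreeAlgebra K σ) (hcen : IsNuCentral n n f) (A : σ → ℕ → ℕ → K) (hA : Per n A)
    (b : ℕ) (hb : 2 * b < n) (p : ℕ) :
    FreeAlgebra.lift K (Wn (n + b) A p) (gz f) = cm n (n + b) (psi n (gz f) A 0) := by
  classical
  have hvan : Vans (gz f) n n := by
    intro P hP a
    rw [gz, map_sub, AlgHom.commutes]
    refine sub_eq_zero.mpr (Pool.Agent.R176.NC.up_const n hn hn2 f hcen
      (fun i => Matrix.of fun x y => P i (a + x) (a + y)) (fun i x y hxy => hP.1 i _ _ ?_))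
    have : (y : ℕ) < x := hxy
    omega
  rcases Nat.eq_zero_or_pos b with rfl | hb0
  · have h1 := hvan A hA p
    have h2 : FreeAlgebra.lift K (Wn n A p) (gz f) = 0 := h1
    rw [add_zero, h2]
    ext k l
    rw [cm, Matrix.of_apply, if_neg (by omega), Matrix.zero_apply]
  · have hArr : ∀ p, Arr n (PP n b) (fun i k l => A i (p + k) (p + l)) := by
      intro p
      refine ⟨fun i k l q _ h1 h2 => hA.1 i _ _ (by omega), fun i k l => ?_⟩
      show A i (p + (k + n)) (p + (l + n)) = A i (p + k) (p + l)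
      rw [← hA.2 i (p + k) (p + l), add_assoc, add_assoc]
    obtain ⟨ψ, hψ⟩ := arr_scalar hn hnK (gz f) (gz_sc hn hnK f hcen) (PP n b) (PP_per n b)
      (PP_sinkN hn hn2 f hcen b hb0 hb) _ (hArr p) 0 b (PP_zero n b) hb0 (by omega)
      (by rw [zero_add, PP, Nat.mod_eq_of_lt (by omega)]; right; exact le_rfl)
      (fun q hq0 hq h => by
        rw [zero_add, PP, Nat.mod_eq_of_lt (by omega)] at h
        omega)
    have h1 : Wn (n + b) (fun i k l => A i (p + k) (p + l)) 0 = Wn (n + b) A p := by
      funext i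
      ext x y
      rw [Wn, Wn, Matrix.of_apply, Matrix.of_apply, zero_add, zero_add]
    rw [h1] at hψ
    have h2 : ψ = psi n (gz f) A p := by
      have h3 := congrFun (congrFun hψ ⟨0, by omega⟩) ⟨n, by omega⟩
      rw [cm, Matrix.of_apply, if_pos (by simp)] at h3
      rw [← h3, psi_eq (gz f) n n A hA p]
      exact V_win A hA (n + b) p (gz f) ⟨0, by omega⟩ ⟨n, by omega⟩
    have h4 := constK hn hnK (gz f) (gz_sc hn hnK f hcen) 1 (by rw [mul_one]; exact hvan) A hA p
    rw [mul_one] at h4
    rw [hψ, h2, h4]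

end Pool.Agent.H16NC
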